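import Pool.Agent.H4.MZ.Cf2

set_option autoImplicit false

/-! The characteristic function of the pair, relative to every Dirichlet polynomial. -/

namespace Pool.Agent.H4.MZ

open Filter Topology MeasureTheory Complex
open scoped ComplexConjugate
open Pool.Agent.Q97.UM
open Pool.Agent.H4.LG (Yt PF st_eq dp_c N2_nn Yt_meas Yt_bdd)

noncomputable section

/-- the statement for the characteristic function -/
def S_CF : Prop := ∀ Xi τ : ℝ, 0 < Xi → 0 < τ → ∃ A₀ : ℝ, 4 ≤ A₀ ∧ ∀ al : ℝ, A₀ ≤ al → ∃ θ : ℝ, 0 < θ ∧ θ ≤ 1 / 40 ∧ ∀ᶠ T : ℝ in atTop,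
  ∀ N : ℕ, (N : ℝ) ≤ T ^ θ → ∀ (b : ℕ → ℂ) (z : ℂ), ‖z‖ ≤ Xi →
    ‖(∫ t in T..(2 * T), cexp (I * ((z.re * Rr al T t + z.im * Ri al T t : ℝ) : ℂ)) * ((‖dp N b t‖ ^ 2 : ℝ) : ℂ)) -
      ((Real.exp (-(‖z‖ ^ 2 / 2)) * (T * N2 N b) : ℝ) : ℂ)‖ ≤ τ * (T * N2 N b)

/-- integrability of the squared error of the count -/
lemma fi_ii {al T : ℝ} {Y : ℕ} {β b : ℕ → ℂ} {N : ℕ} (lam : ℝ) (c d : ℝ) :
    IntervalIntegrable (fun s => (Real.pi * (Yt (wd (2 * al)) T s - lam) - (dp Y β s).im) ^ 2 * ‖dp N b s‖ ^ 2) volume c d := by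
  have hm := Yt_meas (wd_pf (a := 2 * al)) T
  have hb := Yt_bdd (wd_pf (a := 2 * al)) T
  obtain ⟨K, hK⟩ : ∃ K, K = ∑ s ∈ ZT T, (mz s : ℝ) * 1 := ⟨_, rfl⟩
  have hc1 : Continuous fun s => (dp Y β s).im := Complex.continuous_im.comp (dp_c Y β)
  have hc2 : Continuous fun s => ‖dp N b s‖ ^ 2 := (dp_c N b).norm.pow 2
  have hg : Continuous fun s => (Real.pi * (K + |lam|) + |(dp Y β s).im|) ^ 2 * ‖dp N b s‖ ^ 2 := by fun_prop
  refine (hg.intervalIntegrable c d).mono_fun' ?_ (Filter.Eventually.of_forall fun s => ?_)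
  · refine Measurable.aestronglyMeasurable ?_
    exact ((((hm.sub_const lam).const_mul _).sub hc1.measurable).pow_const 2).mul hc2.measurable
  · beta_reduce
    rw [Real.norm_eq_abs, abs_mul, abs_of_nonneg (sq_nonneg ‖dp N b s‖), abs_pow]
    refine mul_le_mul_of_nonneg_right (pow_le_pow_left₀ (abs_nonneg _) ?_ 2) (sq_nonneg _)
    refine (abs_sub _ _).trans (add_le_add ?_ le_rfl)
    rw [abs_mul, abs_of_pos Real.pi_pos]
    refine mul_le_mul_of_nonneg_left ((abs_sub _ _).trans (add_le_add ?_ le_rfl)) Real.pi_pos.le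
    rw [hK]
    exact hb s

/-- shrinking the interval -/
lemma shrink {f : ℝ → ℝ} (hf : ∀ t, 0 ≤ f t) {a b c d : ℝ} (h1 : a ≤ c) (h2 : c ≤ d) (h3 : d ≤ b) (hi : IntervalIntegrable f volume a b) :
    ∫ t in c..d, f t ≤ ∫ t in a..b, f t :=
  intervalIntegral.integral_mono_interval h1 h2 h3 (Filter.Eventually.of_forall hf) hi

/-- **the characteristic function** -/
theorem cf (hR : S_REAL) (hI : S_IMAG) (hV : S_VAR) (hC : S_CHR) : S_CF := by
  intro Xi τ hXi hτ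
  obtain ⟨m, κ, hm, hκ, hchr⟩ := hC 3 Xi (τ / 8) (by norm_num) hXi.le (by positivity)
  obtain ⟨θR, hθR0, hθR1, hR⟩ := hR
  obtain ⟨θI, hθI0, hθI1, hI⟩ := hI
  have hm0 : (0 : ℝ) < m := by exact_mod_cast hm
  obtain ⟨ε, hε⟩ : ∃ ε, ε = min (min θR θI) (1 / (16 * m)) := ⟨_, rfl⟩
  have hε0 : 0 < ε := by rw [hε]; positivity
  have hεR : ε ≤ θR := by rw [hε]; exact (min_le_left _ _).trans (min_le_left _ _)
  have hεI : ε ≤ θI := by rw [hε]; exact (min_le_left _ _).trans (min_le_right _ _)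
  have hεm : ε * m ≤ 1 / 16 := by
    have h1 : ε ≤ 1 / (16 * m) := by rw [hε]; exact min_le_right _ _
    calc ε * m ≤ 1 / (16 * m) * m := mul_le_mul_of_nonneg_right h1 hm0.le
      _ = 1 / 16 := by field_simp
  obtain ⟨CR, hCR, hR⟩ := hR ε hε0 hεR
  obtain ⟨CI, hCI, hI⟩ := hI ε hε0 hεI
  obtain ⟨CV, hCV, hV⟩ := hV ε hε0 (hεR.trans (by linarith))
  obtain ⟨η, hη⟩ : ∃ η, η = τ / (32 * (Xi + 1)) := ⟨_, rfl⟩
  have hη0 : 0 < η := by rw [hη]; positivity
  have hηX : Xi * (η * 2) ≤ τ / 16 := by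
    rw [hη]
    have h1 : Xi * (τ / (32 * (Xi + 1)) * 2) = τ / 16 * (Xi / (Xi + 1)) := by field_simp; ring
    rw [h1]
    have h2 : Xi / (Xi + 1) ≤ 1 := by rw [div_le_one (by linarith)]; linarith
    have h3 := mul_le_mul_of_nonneg_left h2 (show 0 ≤ τ / 16 by positivity)
    linarith
  obtain ⟨K, hK⟩ : ∃ K, K = 1 + (CV + 3) + Xi ^ 2 * (CV + 3) * 2 / τ + 4 * Xi * (CR + CI + 1) / (η * τ) := ⟨_, rfl⟩
  have hK1 : 1 ≤ K := by
    rw [hK]
    have h1 : 0 ≤ Xi ^ 2 * (CV + 3) * 2 / τ := by positivity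
    have h2 : 0 ≤ 4 * Xi * (CR + CI + 1) / (η * τ) := by positivity
    linarith
  have hK2 : CV + 3 ≤ K := by
    rw [hK]
    have h1 : 0 ≤ Xi ^ 2 * (CV + 3) * 2 / τ := by positivity
    have h2 : 0 ≤ 4 * Xi * (CR + CI + 1) / (η * τ) := by positivity
    linarith
  have hK3 : Xi ^ 2 * (CV + 3) * 2 / τ ≤ K := by
    rw [hK]
    have h2 : 0 ≤ 4 * Xi * (CR + CI + 1) / (η * τ) := by positivity
    linarith
  have hK4 : 4 * Xi * (CR + CI + 1) / (η * τ) ≤ K := by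
    rw [hK]
    have h1 : 0 ≤ Xi ^ 2 * (CV + 3) * 2 / τ := by positivity
    linarith
  refine ⟨max 4 (Real.exp K), le_max_left _ _, fun al hal => ?_⟩
  have hal4 : 4 ≤ al := (le_max_left _ _).trans hal
  have halK : Real.exp K ≤ al := (le_max_right _ _).trans hal
  have hla : K ≤ Real.log al := by
    rw [← Real.log_exp K]
    exact Real.log_le_log (Real.exp_pos _) halK
  obtain ⟨la, hlae⟩ : ∃ la, la = Real.log al := ⟨_, rfl⟩
  rw [← hlae] at hla
  have hla1 : 1 ≤ la := hK1.trans hla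
  have hla0 : 0 < la := by linarith
  have hπ := Real.pi_pos
  have hπ4 := Real.pi_lt_four
  obtain ⟨lam, hlam⟩ : ∃ lam, lam = al / Real.pi := ⟨_, rfl⟩
  have hlam1 : 1 ≤ lam := by
    rw [hlam, le_div_iff₀ hπ]
    linarith
  have hlam0 : 0 < lam := by linarith
  have h2pl : 2 * Real.pi * lam = 2 * al := by rw [hlam]; field_simp
  have hlogl : |2 * Real.log lam - 2 * la| ≤ 3 := by
    have h1 : Real.log lam = la - Real.log Real.pi := by
      rw [hlam, Real.log_div (by linarith) hπ.ne', hlae]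
    have h2 : 0 ≤ Real.log Real.pi := Real.log_nonneg (by linarith [Real.pi_gt_three])
    have h3 : Real.log Real.pi ≤ 3 / 2 := by
      have h4 : Real.log 4 ≤ 3 / 2 := by
        have h5 : Real.log 4 = 2 * Real.log 2 := by
          rw [show (4 : ℝ) = 2 ^ 2 by norm_num, Real.log_pow]
          push_cast; ring
        have h6 := Real.log_two_lt_d9
        linarith
      exact (Real.log_le_log hπ hπ4.le).trans h4
    rw [h1, abs_le]
    constructor <;> linarith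
  obtain ⟨θ, hθ⟩ : ∃ θ, θ = min (min θR θI / lam) (1 / 40) := ⟨_, rfl⟩
  have hθ0 : 0 < θ := by rw [hθ]; positivity
  have hθ40 : θ ≤ 1 / 40 := by rw [hθ]; exact min_le_right _ _
  have hθR : θ ≤ θR / lam := by
    rw [hθ]
    exact (min_le_left _ _).trans (div_le_div_of_nonneg_right (min_le_left _ _) hlam0.le)
  have hθI : θ ≤ θI / lam := by
    rw [hθ]
    exact (min_le_left _ _).trans (div_le_div_of_nonneg_right (min_le_right _ _) hlam0.le)
  have hθ1 : θ ≤ 1 / lam := hθR.trans (div_le_div_of_nonneg_right (by linarith) hlam0.le)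
  refine ⟨θ, hθ0, hθ40, ?_⟩
  have hlogT : ∀ᶠ T : ℝ in atTop, Real.log T ≤ 1 / 20 * T := by
    have h1 : Tendsto (fun T : ℝ => Real.log T / T ^ (1 : ℝ)) atTop (𝓝 0) :=
      (isLittleO_log_rpow_atTop (by norm_num : (0 : ℝ) < 1)).tendsto_div_nhds_zero
    filter_upwards [h1.eventually_le_const (show (0 : ℝ) < 1 / 20 by norm_num), eventually_gt_atTop (0 : ℝ)] with T h2 hT
    rw [Real.rpow_one, div_le_iff₀ hT] at h2
    exact h2
  have hedge : ∀ᶠ T : ℝ in atTop, 2 * (6 * Real.log T + 1) * T ^ (1 / 40 : ℝ) ≤ τ / 8 * T := by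
    have h1 : Tendsto (fun T : ℝ => Real.log T / T ^ (1 / 40 : ℝ)) atTop (𝓝 0) :=
      (isLittleO_log_rpow_atTop (by norm_num : (0 : ℝ) < 1 / 40)).tendsto_div_nhds_zero
    have h2 : ∀ᶠ T : ℝ in atTop, Real.log T / T ^ (1 / 40 : ℝ) ≤ 1 := h1.eventually_le_const (by norm_num)
    have h3 : ∀ᶠ T : ℝ in atTop, 8 * 14 / τ ≤ T ^ (38 / 40 : ℝ) := (tendsto_rpow_atTop (by norm_num)).eventually_ge_atTop _
    filter_upwards [h2, h3, eventually_ge_atTop (1 : ℝ)] with T h2 h3 hT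
    have hT0 : 0 < T := by linarith
    have hq0 : 0 < T ^ (1 / 40 : ℝ) := by positivity
    have hq1 : 1 ≤ T ^ (1 / 40 : ℝ) := Real.one_le_rpow hT (by norm_num)
    rw [div_le_one hq0] at h2
    have e1 : T ^ (38 / 40 : ℝ) * (T ^ (1 / 40 : ℝ) * T ^ (1 / 40 : ℝ)) = T := by
      rw [← Real.rpow_add hT0, ← Real.rpow_add hT0]; norm_num
    rw [div_le_iff₀ hτ] at h3
    have h4 : 2 * (6 * Real.log T + 1) ≤ 14 * T ^ (1 / 40 : ℝ) := by linarith
    have h5 : 2 * (6 * Real.log T + 1) * T ^ (1 / 40 : ℝ) ≤ 14 * T ^ (1 / 40 : ℝ) * T ^ (1 / 40 : ℝ) := mul_le_mul_of_nonneg_right h4 hq0.le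
    have h6 : 14 * T ^ (1 / 40 : ℝ) * T ^ (1 / 40 : ℝ) ≤ τ / 8 * T := by
      have h7 : 14 ≤ τ / 8 * T ^ (38 / 40 : ℝ) := by linarith
      have h8 := mul_le_mul_of_nonneg_right h7 (mul_nonneg hq0.le hq0.le)
      have e2 : τ / 8 * T ^ (38 / 40 : ℝ) * (T ^ (1 / 40 : ℝ) * T ^ (1 / 40 : ℝ)) = τ / 8 * T := by rw [mul_assoc, e1]
      rw [e2] at h8
      linarith
    linarith
  filter_upwards [hR lam hlam1, hI lam hlam1, hV lam hlam1 κ hκ, hchr, hedge, eventually_ge_atTop (1000 : ℝ),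
    Real.tendsto_log_atTop.eventually_ge_atTop (2 * al + 1), hlogT] with T hR hI hV hchr hedge hT hLal hLT N hN b z hz
  have hT0 : 0 < T := by linarith
  have hT1 : (1 : ℝ) ≤ T := by linarith
  have hT16 : (16 : ℝ) ≤ T := by linarith
  obtain ⟨L, hLe⟩ : ∃ L, L = Real.log T := ⟨_, rfl⟩
  rw [← hLe] at hLT hLal
  have hL0 : 0 < L := by linarith
  have hTN : 0 ≤ T * N2 N b := mul_nonneg hT0.le (N2_nn N b)
  -- the trivial case
  rcases Nat.eq_zero_or_pos N with hN0 | hN0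
  · subst hN0
    have h1 : ∀ t, dp 0 b t = 0 := fun t => by unfold dp; simp
    have h2 : N2 0 b = 0 := by unfold N2; simp
    simp [h1, h2]
  have hNR : (N : ℝ) ≤ T ^ (θR / lam) := hN.trans (Real.rpow_le_rpow_of_exponent_le hT1 hθR)
  have hNI : (N : ℝ) ≤ T ^ (θI / lam) := hN.trans (Real.rpow_le_rpow_of_exponent_le hT1 hθI)
  have hNV : (N : ℝ) ≤ T ^ (1 / lam) := hN.trans (Real.rpow_le_rpow_of_exponent_le hT1 hθ1)
  have hN40 : (N : ℝ) ≤ T ^ (1 / 40 : ℝ) := hN.trans (Real.rpow_le_rpow_of_exponent_le hT1 hθ40)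
  obtain ⟨a, ha⟩ : ∃ a, a = al / L := ⟨_, rfl⟩
  have ha0 : 0 < a := by rw [ha]; positivity
  have ha1 : a ≤ 1 := by rw [ha, div_le_one hL0]; linarith
  have hsh : sh lam T = 2 * a := by
    unfold sh
    rw [h2pl, ha, ← hLe]
    ring
  obtain ⟨Y, hY⟩ : ∃ Y, Y = ⌊T ^ ε⌋₊ := ⟨_, rfl⟩
  obtain ⟨b', hb'⟩ : ∃ b' : ℕ → ℂ, b' = fun n => b n * (n : ℂ) ^ ((-a : ℝ) * I) := ⟨_, rfl⟩
  have hbt : ∀ t, dp N b t = dp N b' (t - a) := fun t => by rw [hb']; exact dp_tr N b a t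
  have hbN : N2 N b' = N2 N b := by rw [hb']; exact N2_tr N b a
  replace hR := hR N hN0 hNR b'
  replace hI := hI N hN0 hNI b'
  replace hV := hV N hNV
  rw [← hY, hsh] at hR hI hV
  rw [hbN] at hR hI
  rw [h2pl] at hI
  obtain ⟨r, hr⟩ : ∃ r, r = 1 / Real.sqrt la := ⟨_, rfl⟩
  have hsq0 : 0 < Real.sqrt la := Real.sqrt_pos.2 hla0
  have hr0 : 0 < r := by rw [hr]; positivity
  have hr2 : r ^ 2 = 1 / la := by rw [hr, div_pow, one_pow, Real.sq_sqrt hla0.le]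
  obtain ⟨α, hα⟩ : ∃ α, α = asc r (2 * a) a N Y := ⟨_, rfl⟩
  have hαdp : ∀ t, dp Y α t = ((r : ℝ) : ℂ) * dp Y (ah (2 * a) N Y) (t - a) := fun t => by rw [hα]; exact asc_dp _ _ _ _ _ _
  -- variance
  have hVd : |N2 Y α - 2| ≤ (CV + 3) / la := by
    rw [hα, asc_N2, hr2]
    have h1 : 1 / la * N2 Y (ah (2 * a) N Y) - 2 = (N2 Y (ah (2 * a) N Y) - 2 * la) / la := by field_simp
    rw [h1, abs_div, abs_of_pos hla0]
    refine div_le_div_of_nonneg_right ?_ hla0.le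
    have h2 : N2 Y (ah (2 * a) N Y) - 2 * la = (N2 Y (ah (2 * a) N Y) - 2 * Real.log lam) + (2 * Real.log lam - 2 * la) := by ring
    rw [h2]
    exact (abs_add_le _ _).trans (add_le_add hV.1 hlogl)
  have hVd1 : (CV + 3) / la ≤ 1 := by rw [div_le_one hla0]; linarith
  have hV3 : N2 Y α ≤ 3 := by
    have := (abs_le.1 hVd).2
    linarith
  have hV0 : 0 ≤ N2 Y α := N2_nn _ _
  have hQ : Q4 Y α ≤ κ := by
    rw [hα, asc_Q4]
    have h1 : r ^ 4 ≤ 1 := by
      have h2 : r ^ 4 = (1 / la) ^ 2 := by rw [← hr2]; ring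
      rw [h2]
      refine pow_le_one₀ (by positivity) ?_
      rw [div_le_one hla0]; exact hla1
    have h3 := Q4_nn Y (ah (2 * a) N Y)
    calc r ^ 4 * Q4 Y (ah (2 * a) N Y) ≤ 1 * Q4 Y (ah (2 * a) N Y) := mul_le_mul_of_nonneg_right h1 h3
      _ = Q4 Y (ah (2 * a) N Y) := one_mul _
      _ ≤ κ := hV.2
  have hTε1 : 1 ≤ T ^ ε := Real.one_le_rpow hT1 hε0.le
  have hY1 : 1 ≤ Y := by
    rw [hY]
    exact Nat.le_floor (by exact_mod_cast hTε1)
  have hYle : (Y : ℝ) ≤ T ^ ε := by rw [hY]; exact Nat.floor_le (by linarith)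
  have hYm : (Y : ℝ) ^ m * N ≤ T ^ (1 / 8 : ℝ) := by
    have h1 : (Y : ℝ) ^ m ≤ T ^ (1 / 16 : ℝ) := by
      calc (Y : ℝ) ^ m ≤ (T ^ ε) ^ m := pow_le_pow_left₀ (Nat.cast_nonneg _) hYle m
        _ = T ^ (ε * m) := by rw [← Real.rpow_natCast, ← Real.rpow_mul hT0.le]
        _ ≤ T ^ (1 / 16 : ℝ) := Real.rpow_le_rpow_of_exponent_le hT1 hεm
    calc (Y : ℝ) ^ m * N ≤ T ^ (1 / 16 : ℝ) * T ^ (1 / 40 : ℝ) := mul_le_mul h1 hN40 (Nat.cast_nonneg _) (by positivity)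
      _ = T ^ (1 / 16 + 1 / 40 : ℝ) := by rw [← Real.rpow_add hT0]
      _ ≤ T ^ (1 / 8 : ℝ) := Real.rpow_le_rpow_of_exponent_le hT1 (by norm_num)
  have hPS : PS N Y α := by rw [hα]; exact asc_PS _ _ _ _ _
  have hch := hchr N Y α b hY1 hYm hPS hV3 hQ z hz
  -- closeness
  obtain ⟨W, hW⟩ : ∃ W : ℝ → ℝ, W = fun t => ‖dp N b t‖ ^ 2 := ⟨_, rfl⟩
  have hWc : Continuous W := by rw [hW]; exact (dp_c N b).norm.pow 2
  have hW0 : ∀ t, 0 ≤ W t := fun t => by rw [hW]; exact sq_nonneg _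
  have hWb : ∀ t, W t ≤ N * N2 N b := fun t => by rw [hW]; exact (Pool.Agent.Q84.UM.t_DPM.2.2 N b t).1
  have hN14 : (N : ℝ) ≤ T ^ (1 / 4 : ℝ) := hN40.trans (Real.rpow_le_rpow_of_exponent_le hT1 (by norm_num))
  have hWT : ∫ t in T..(2 * T), W t ≤ 2 * (T * N2 N b) := by
    have := (Pool.Agent.Q84.UM.t_MVL T hT16 N hN14 b).2
    rw [hW]
    linarith
  obtain ⟨c, hc⟩ : ∃ c, c = T + 3 * L + 1 := ⟨_, rfl⟩
  obtain ⟨d, hd⟩ : ∃ d, d = 2 * T - 3 * L := ⟨_, rfl⟩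
  have hAc : T ≤ c := by linarith
  have hcd : c ≤ d := by linarith
  have hdB : d ≤ 2 * T := by linarith
  have hiW : ∀ x y, IntervalIntegrable W volume x y := fun x y => hWc.intervalIntegrable x y
  have hφ : Measurable fun t => z.re * Rr al T t + z.im * Ri al T t :=
    ((Rr_meas al T).const_mul _).add ((Ri_meas al T).const_mul _)
  have hφP : Measurable fun t => (conj z * dp Y α t).re := by
    have h1 : Continuous fun t => (conj z * dp Y α t).re := Complex.continuous_re.comp (continuous_const.mul (dp_c Y α))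
    exact h1.measurable
  -- the functions before translation
  obtain ⟨FR, hFR⟩ : ∃ FR : ℝ → ℝ, FR = fun t => |Real.log ‖zt (t + 2 * a)‖ - Real.log ‖zt t‖ - (dp Y (ah (2 * a) N Y) t).re| ^ 2 * ‖dp N b' t‖ ^ 2 := ⟨_, rfl⟩
  obtain ⟨FI, hFI⟩ : ∃ FI : ℝ → ℝ, FI = fun t => (Real.pi * (Yt (wd (2 * al)) T t - lam) - (dp Y (ah (2 * a) N Y) t).im) ^ 2 * ‖dp N b' t‖ ^ 2 := ⟨_, rfl⟩
  rw [← hFR] at hR
  rw [← hFI, ← hLe] at hI
  have hFR0 : ∀ t, 0 ≤ FR t := fun t => by rw [hFR]; positivity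
  have hFI0 : ∀ t, 0 ≤ FI t := fun t => by rw [hFI]; positivity
  have hiFI : ∀ x y, IntervalIntegrable FI volume x y := fun x y => by rw [hFI]; exact fi_ii lam x y
  have eu : ∀ t, (Rr al T t - (dp Y α t).re) ^ 2 * W t = r ^ 2 * FR (t - a) := by
    intro t
    rw [hαdp t, hW, hFR]
    simp only
    rw [hbt t, Complex.re_ofReal_mul, sq_abs]
    unfold Rr
    rw [← hLe, ← hlae, ← ha]
    have e1 : t - a + 2 * a = t + a := by ring
    rw [e1, div_eq_mul_inv]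
    have e2 : (Real.sqrt la)⁻¹ = r := by rw [hr, one_div]
    rw [e2]
    ring
  have ev : ∀ t, c ≤ t → t ≤ d → (Ri al T t - (dp Y α t).im) ^ 2 * W t = r ^ 2 * FI (t - a) := by
    intro t ht1 ht2
    rw [hαdp t, hW, hFI]
    simp only
    rw [hbt t, Complex.im_ofReal_mul]
    unfold Ri
    have e0 : Cn al T t = Yt (wd (2 * al)) T (t - a) := by
      have h1 := Cn_Yt (al := al) (T := T) (t := t) hT16 (by rw [← hLe]; exact hLal) (by rw [← hLe, ← ha]; linarith) (by rw [← hLe, ← ha]; linarith)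
      rw [← hLe, ← ha] at h1
      exact h1
    rw [e0, ← hlae, div_eq_mul_inv]
    have e2 : (Real.sqrt la)⁻¹ = r := by rw [hr, one_div]
    have e3 : Real.pi * (Yt (wd (2 * al)) T (t - a) - lam) = Real.pi * Yt (wd (2 * al)) T (t - a) - al := by
      rw [hlam]; field_simp
    rw [e2, e3]
    ring
  have hiFRa : IntervalIntegrable (fun t => FR (t - a)) volume (T + a) (2 * T + a) := hR.1.comp_sub_right a
  have hiu : IntervalIntegrable (fun t => (Rr al T t - (dp Y α t).re) ^ 2 * W t) volume c d := by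
    simp only [eu]
    refine (hiFRa.const_mul (r ^ 2)).mono_set ?_
    rw [Set.uIcc_of_le hcd, Set.uIcc_of_le (by linarith)]
    exact Set.Icc_subset_Icc (by linarith) (by linarith)
  have hiv : IntervalIntegrable (fun t => (Ri al T t - (dp Y α t).im) ^ 2 * W t) volume c d := by
    have h1 : IntervalIntegrable (fun t => r ^ 2 * FI (t - a)) volume c d := by
      have := (hiFI (c - a) (d - a)).comp_sub_right a
      simp only [sub_add_cancel] at this
      exact this.const_mul _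
    refine (intervalIntegrable_congr (fun t ht => ?_)).1 h1
    rw [Set.uIoc_of_le hcd] at ht
    exact (ev t ht.1.le ht.2).symm
  have hUI : ∫ t in c..d, (Rr al T t - (dp Y α t).re) ^ 2 * W t ≤ CR / la * (T * N2 N b) := by
    simp only [eu]
    rw [intervalIntegral.integral_const_mul, intervalIntegral.integral_comp_sub_right FR a, hr2]
    have h1 := shrink hFR0 (by linarith : T ≤ c - a) (by linarith : c - a ≤ d - a) (by linarith : d - a ≤ 2 * T) hR.1
    have h2 := h1.trans hR.2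
    have h3 := mul_le_mul_of_nonneg_left h2 (show 0 ≤ 1 / la by positivity)
    refine h3.trans (le_of_eq ?_)
    ring
  have hVI : ∫ t in c..d, (Ri al T t - (dp Y α t).im) ^ 2 * W t ≤ CI / la * (T * N2 N b) := by
    have e1 : ∫ t in c..d, (Ri al T t - (dp Y α t).im) ^ 2 * W t = ∫ t in c..d, r ^ 2 * FI (t - a) := by
      refine intervalIntegral.integral_congr fun t ht => ?_
      rw [Set.uIcc_of_le hcd] at ht
      exact ev t ht.1 ht.2
    rw [e1, intervalIntegral.integral_const_mul, intervalIntegral.integral_comp_sub_right FI a, hr2]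
    have h1 := shrink hFI0 (by linarith : T + 3 * L ≤ c - a) (by linarith : c - a ≤ d - a) (by linarith : d - a ≤ 2 * T - 3 * L) (hiFI _ _)
    have h2 := h1.trans hI
    have h3 := mul_le_mul_of_nonneg_left h2 (show 0 ≤ 1 / la by positivity)
    refine h3.trans (le_of_eq ?_)
    ring
  have hcl := cf_close hAc hcd hdB hXi.le hη0 hWc hW0 (φ := fun t => z.re * Rr al T t + z.im * Ri al T t)
    (φP := fun t => (conj z * dp Y α t).re) (u := fun t => Rr al T t - (dp Y α t).re) (v := fun t => Ri al T t - (dp Y α t).im) hφ hφP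
    (fun t _ _ => by
      have e1 : z.re * Rr al T t + z.im * Ri al T t - (conj z * dp Y α t).re =
          z.re * (Rr al T t - (dp Y α t).re) + z.im * (Ri al T t - (dp Y α t).im) := by
        rw [Complex.mul_re, Complex.conj_re, Complex.conj_im]
        ring
      simp only [e1]
      refine (abs_add_le _ _).trans ?_
      rw [abs_mul, abs_mul]
      have h1 := (Complex.abs_re_le_norm z).trans hz
      have h2 := (Complex.abs_im_le_norm z).trans hz
      have h3 := mul_le_mul_of_nonneg_right h1 (abs_nonneg (Rr al T t - (dp Y α t).re))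
      have h4 := mul_le_mul_of_nonneg_right h2 (abs_nonneg (Ri al T t - (dp Y α t).im))
      linarith) hiu hiv
  -- the edges
  have hed : 2 * (∫ t in T..c, W t) + 2 * (∫ t in d..(2 * T), W t) ≤ τ / 8 * (T * N2 N b) := by
    have h1 : ∫ t in T..c, W t ≤ ∫ t in T..c, (N * N2 N b : ℝ) := intervalIntegral.integral_mono_on hAc (hiW _ _) intervalIntegrable_const fun t _ => hWb t
    have h2 : ∫ t in d..(2 * T), W t ≤ ∫ t in d..(2 * T), (N * N2 N b : ℝ) := intervalIntegral.integral_mono_on hdB (hiW _ _) intervalIntegrable_const fun t _ => hWb t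
    rw [intervalIntegral.integral_const, smul_eq_mul] at h1 h2
    have h3 : (2 * (6 * L + 1) * T ^ (1 / 40 : ℝ)) * N2 N b ≤ (τ / 8 * T) * N2 N b := by
      rw [hLe]
      exact mul_le_mul_of_nonneg_right hedge (N2_nn N b)
    have h4 : 2 * (6 * L + 1) * ((N : ℝ) * N2 N b) ≤ (2 * (6 * L + 1) * T ^ (1 / 40 : ℝ)) * N2 N b := by
      have h5 : (N : ℝ) * N2 N b ≤ T ^ (1 / 40 : ℝ) * N2 N b := mul_le_mul_of_nonneg_right hN40 (N2_nn N b)
      have h6 := mul_le_mul_of_nonneg_left h5 (show 0 ≤ 2 * (6 * L + 1) by positivity)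
      linarith
    have e1 : (c - T) * ((N : ℝ) * N2 N b) * 2 + (2 * T - d) * ((N : ℝ) * N2 N b) * 2 = 2 * (6 * L + 1) * ((N : ℝ) * N2 N b) := by
      rw [hc, hd]; ring
    linarith
  have hmid : ∫ t in c..d, W t ≤ 2 * (T * N2 N b) := (shrink hW0 hAc hcd hdB (hiW _ _)).trans hWT
  have hsm : Xi * (η * (∫ t in c..d, W t) + 1 / (2 * η) * ((∫ t in c..d, (Rr al T t - (dp Y α t).re) ^ 2 * W t) +
      ∫ t in c..d, (Ri al T t - (dp Y α t).im) ^ 2 * W t)) ≤ (τ / 16 + τ / 8) * (T * N2 N b) := by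
    have h1 : Xi * (η * (∫ t in c..d, W t)) ≤ τ / 16 * (T * N2 N b) := by
      have h2 := mul_le_mul_of_nonneg_left hmid (mul_nonneg hXi.le hη0.le)
      have h3 := mul_le_mul_of_nonneg_right hηX hTN
      linarith
    have h4 : Xi * (1 / (2 * η) * ((∫ t in c..d, (Rr al T t - (dp Y α t).re) ^ 2 * W t) +
      ∫ t in c..d, (Ri al T t - (dp Y α t).im) ^ 2 * W t)) ≤ τ / 8 * (T * N2 N b) := by
      have h5 : Xi * (1 / (2 * η) * (CR / la * (T * N2 N b) + CI / la * (T * N2 N b))) ≤ τ / 8 * (T * N2 N b) := by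
        have h6 : Xi * (1 / (2 * η) * (CR / la + CI / la)) ≤ τ / 8 := by
          have h7 : 4 * Xi * (CR + CI + 1) / (η * τ) ≤ la := hK4.trans hla
          rw [div_le_iff₀ (by positivity)] at h7
          have h8 : Xi * (1 / (2 * η) * (CR / la + CI / la)) = Xi * (CR + CI) / (2 * η * la) := by field_simp
          rw [h8, div_le_iff₀ (by positivity)]
          have h9 : 0 ≤ Xi * (CR + CI) := by positivity
          nlinarith
        have h7 := mul_le_mul_of_nonneg_right h6 hTN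
        refine le_trans (le_of_eq ?_) h7
        ring
      refine le_trans ?_ h5
      refine mul_le_mul_of_nonneg_left (mul_le_mul_of_nonneg_left (add_le_add hUI hVI) (by positivity)) hXi.le
    have e1 : Xi * (η * (∫ t in c..d, W t) + 1 / (2 * η) * ((∫ t in c..d, (Rr al T t - (dp Y α t).re) ^ 2 * W t) +
      ∫ t in c..d, (Ri al T t - (dp Y α t).im) ^ 2 * W t)) = Xi * (η * (∫ t in c..d, W t)) +
        Xi * (1 / (2 * η) * ((∫ t in c..d, (Rr al T t - (dp Y α t).re) ^ 2 * W t) +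
      ∫ t in c..d, (Ri al T t - (dp Y α t).im) ^ 2 * W t)) := by ring
    rw [e1]
    linarith
  -- the exponential
  have hexp : |Real.exp (-(‖z‖ ^ 2 * N2 Y α / 4)) - Real.exp (-(‖z‖ ^ 2 / 2))| ≤ τ / 8 := by
    refine (exp_lip (by positivity) (by positivity)).trans ?_
    have e1 : ‖z‖ ^ 2 * N2 Y α / 4 - ‖z‖ ^ 2 / 2 = ‖z‖ ^ 2 / 4 * (N2 Y α - 2) := by ring
    rw [e1, abs_mul, abs_of_nonneg (by positivity)]
    have h1 : ‖z‖ ^ 2 ≤ Xi ^ 2 := pow_le_pow_left₀ (norm_nonneg _) hz 2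
    have h2 : ‖z‖ ^ 2 / 4 * |N2 Y α - 2| ≤ Xi ^ 2 / 4 * ((CV + 3) / la) :=
      mul_le_mul (by linarith) hVd (abs_nonneg _) (by positivity)
    refine h2.trans ?_
    have h3 : Xi ^ 2 * (CV + 3) * 2 / τ ≤ la := hK3.trans hla
    rw [div_le_iff₀ hτ] at h3
    have h4 : Xi ^ 2 / 4 * ((CV + 3) / la) = Xi ^ 2 * (CV + 3) / (4 * la) := by field_simp
    rw [h4, div_le_iff₀ (by positivity)]
    linarith
  -- conclusion
  have key : (∫ t in T..(2 * T), cexp (I * ((z.re * Rr al T t + z.im * Ri al T t : ℝ) : ℂ)) * ((‖dp N b t‖ ^ 2 : ℝ) : ℂ)) -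
      ((Real.exp (-(‖z‖ ^ 2 / 2)) * (T * N2 N b) : ℝ) : ℂ) =
      ((∫ t in T..(2 * T), cexp (I * ((z.re * Rr al T t + z.im * Ri al T t : ℝ) : ℂ)) * ((W t : ℝ) : ℂ)) -
        ∫ t in T..(2 * T), cexp (I * (((conj z * dp Y α t).re : ℝ) : ℂ)) * ((W t : ℝ) : ℂ)) +
      ((∫ t in T..(2 * T), cexp (I * (((conj z * dp Y α t).re : ℝ) : ℂ)) * ((‖dp N b t‖ ^ 2 : ℝ) : ℂ)) -
        ((Real.exp (-(‖z‖ ^ 2 * N2 Y α / 4)) * (T * N2 N b) : ℝ) : ℂ)) +
      (((Real.exp (-(‖z‖ ^ 2 * N2 Y α / 4)) - Real.exp (-(‖z‖ ^ 2 / 2))) * (T * N2 N b) : ℝ) : ℂ) := by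
    rw [hW]
    push_cast
    ring
  rw [key]
  refine (norm_add₃_le).trans ?_
  have k1 := hcl.trans (add_le_add hed hsm)
  have k3 : ‖(((Real.exp (-(‖z‖ ^ 2 * N2 Y α / 4)) - Real.exp (-(‖z‖ ^ 2 / 2))) * (T * N2 N b) : ℝ) : ℂ)‖ ≤ τ / 8 * (T * N2 N b) := by
    rw [Complex.norm_real, Real.norm_eq_abs, abs_mul, abs_of_nonneg hTN]
    exact mul_le_mul_of_nonneg_right hexp hTN
  have k4 : 0 ≤ τ * (T * N2 N b) := mul_nonneg hτ.le hTN
  linarith

end

end Pool.Agent.H4.MZ
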