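import Pool.Agent.H4.SC.Can

set_option autoImplicit false

/-! The integrand of `Q_k(α, T)`: modulus, and argument in terms of the number of zeros between the two points. -/

open Filter Topology MeasureTheory Complex

namespace Pool.Agent.H4.MZ

open Pool.Agent.Q97.UM (zt)
open Pool.Agent.Q85.Mom (ph)
open Pool.Agent.Q32.Idx (Z N N_split sign_formula)
open Pool.Agent.H4.SC (Fk ZZ_eq ph_shift abs_Z)

noncomputable section

/-- the sign of the product of two values of Hardy's function -/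
lemma sgn_ZZ {x y : ℝ} (hx : 0 < x) (hxy : x ≤ y) : Z y * Z x = (-1) ^ N x y * |Z y * Z x| := by
  by_cases h1 : Z x = 0
  · rw [h1, mul_zero, abs_zero, mul_zero]
  by_cases h2 : Z y = 0
  · rw [h2, zero_mul, abs_zero, mul_zero]
  have h3 := sign_formula _ x hx h1 rfl
  have h4 := sign_formula _ y (hx.trans_le hxy) h2 rfl
  rw [N_split hx.le hxy, pow_add] at h4
  have h5 : 0 < ((-1 : ℝ) ^ N x y) * (Z y * Z x) := by
    have h6 := mul_pos h3 h4
    have h7 : ((-1 : ℝ) ^ N 0 x) * (-1) ^ N 0 x = 1 := by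
      rw [← mul_pow]; norm_num
    have h8 : -((-1 : ℝ) ^ N 0 x * Z x) * -((-1) ^ N 0 x * (-1) ^ N x y * Z y) =
        (((-1 : ℝ) ^ N 0 x) * (-1) ^ N 0 x) * (((-1 : ℝ) ^ N x y) * (Z y * Z x)) := by ring
    rw [h8, h7, one_mul] at h6
    exact h6
  rcases neg_one_pow_eq_or ℝ (N x y) with h9 | h9
  · rw [h9, one_mul] at h5 ⊢
    rw [abs_of_pos h5]
  · rw [h9] at h5 ⊢
    have h10 : Z y * Z x < 0 := by linarith
    rw [abs_of_neg h10]
    ring

/-- the integrand -/
lemma Fk_arg {k : ℕ} {α T t : ℝ} (hT : 400 ≤ T) (hα : 0 ≤ α) (hL : α + 1 ≤ Real.log T) (h1 : T ≤ t) (h2 : t ≤ 2 * T) :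
    ‖Fk k (α / Real.log T) t - (((‖zt (t + α / Real.log T)‖ * ‖zt (t - α / Real.log T)‖) ^ k : ℝ) : ℂ) *
      cexp (I * (k * (Real.pi * N (t - α / Real.log T) (t + α / Real.log T) - α)))‖ ≤
      (7 * k * α) / Real.log T * (‖zt (t + α / Real.log T)‖ * ‖zt (t - α / Real.log T)‖) ^ k := by
  have hL0 : 0 < Real.log T := by linarith
  obtain ⟨a, ha⟩ : ∃ a, a = α / Real.log T := ⟨_, rfl⟩
  have haL : a * Real.log T = α := by rw [ha]; field_simp
  have ha0 : 0 ≤ a := by rw [ha]; positivity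
  have ha1 : a ≤ 1 := by rw [ha, div_le_one hL0]; linarith
  have e0 : (7 * k * α) / Real.log T = 7 * k * a := by rw [ha]; ring
  rw [e0, ← ha]
  have h3 := ph_shift (T := 2 * T) (a := a) (t := t) (by linarith) ha0 ha1 (by linarith) h2
  have h4 : Real.log (2 * T) = Real.log 2 + Real.log T := Real.log_mul (by norm_num) (by linarith)
  rw [h4, mul_add, haL] at h3
  obtain ⟨ψ, hψ⟩ : ∃ ψ, ψ = ph (t - a) - ph (t + a) + α := ⟨_, rfl⟩
  have h5 : |ψ| ≤ 7 * a := by
    have e : ψ = (ph (t - a) - ph (t + a) + (a * Real.log 2 + α)) - a * Real.log 2 := by rw [hψ]; ring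
    have h6 : |a * Real.log 2| ≤ a * 1 := by
      rw [abs_mul, abs_of_nonneg ha0, abs_of_nonneg (Real.log_nonneg (by norm_num))]
      refine mul_le_mul_of_nonneg_left ?_ ha0
      have := Real.log_two_lt_d9
      linarith
    rw [e]
    refine (abs_sub _ _).trans ?_
    linarith
  obtain ⟨n, hn⟩ : ∃ n, n = N (t - a) (t + a) := ⟨_, rfl⟩
  have hs := sgn_ZZ (x := t - a) (y := t + a) (by linarith) (by linarith)
  have hab : |Z (t + a) * Z (t - a)| = ‖zt (t + a)‖ * ‖zt (t - a)‖ := by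
    rw [abs_mul, abs_Z, abs_Z]
  rw [hab, ← hn] at hs
  obtain ⟨R, hR⟩ : ∃ R, R = ‖zt (t + a)‖ * ‖zt (t - a)‖ := ⟨_, rfl⟩
  rw [← hR] at hs
  rw [← hR, ← hn]
  have hR0 : 0 ≤ R := by rw [hR]; positivity
  have hneg : cexp (I * (Real.pi * n)) = (-1) ^ n := by
    have : (I * (Real.pi * n) : ℂ) = n * (Real.pi * I) := by ring
    rw [this, Complex.exp_nat_mul, Complex.exp_pi_mul_I]
  have h7 : Fk k a t = ((R ^ k : ℝ) : ℂ) * cexp (I * (k * (Real.pi * n - α))) * cexp (I * ((k * ψ : ℝ) : ℂ)) := by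
    unfold Fk
    rw [ZZ_eq (by linarith : 100 < t + a) (by linarith : 100 < t - a), hs]
    have e1 : (cexp (((ph (t - a) - ph (t + a) : ℝ) : ℂ) * I) * (((-1) ^ n * R : ℝ) : ℂ)) =
        (R : ℂ) * (cexp (I * (Real.pi * n - α)) * cexp (I * (ψ : ℂ))) := by
      have e2 : (I * (Real.pi * n - α) : ℂ) = I * (Real.pi * n) + -(I * α) := by ring
      have e3 : cexp (-(I * α)) * cexp (I * (ψ : ℂ)) = cexp (((ph (t - a) - ph (t + a) : ℝ) : ℂ) * I) := by
        rw [← Complex.exp_add, hψ]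
        congr 1
        push_cast
        ring
      rw [e2, Complex.exp_add, hneg, mul_assoc ((-1 : ℂ) ^ n), e3]
      push_cast
      ring
    rw [e1, mul_pow, mul_pow, ← Complex.exp_nat_mul, ← Complex.exp_nat_mul]
    push_cast
    rw [mul_assoc]
    congr 2
    · congr 1
      ring
    · congr 1
      ring
  have h8 : Fk k a t - ((R ^ k : ℝ) : ℂ) * cexp (I * (k * (Real.pi * n - α))) =
      ((R ^ k : ℝ) : ℂ) * cexp (I * (k * (Real.pi * n - α))) * (cexp (I * ((k * ψ : ℝ) : ℂ)) - 1) := by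
    rw [h7]; ring
  have h9 : ‖cexp (I * (k * (Real.pi * n - α)))‖ = 1 := by
    have : (I * (k * (Real.pi * n - α)) : ℂ) = ((k * (Real.pi * n - α) : ℝ) : ℂ) * I := by
      push_cast
      ring
    rw [this, Complex.norm_exp_ofReal_mul_I]
  rw [h8, norm_mul, norm_mul, h9, mul_one, Complex.norm_real, Real.norm_eq_abs, abs_of_nonneg (pow_nonneg hR0 k), mul_comm]
  apply mul_le_mul_of_nonneg_right _ (pow_nonneg hR0 k)
  refine (Real.norm_exp_I_mul_ofReal_sub_one_le).trans ?_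
  rw [Real.norm_eq_abs, abs_mul, Nat.abs_cast]
  calc (k : ℝ) * |ψ| ≤ k * (7 * a) := mul_le_mul_of_nonneg_left h5 (Nat.cast_nonneg k)
    _ = 7 * k * a := by ring

end

end Pool.Agent.H4.MZ
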