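import Pool.Agent.H4.MZ.Stm
import Pool.Graph.R_pool_sql_team_seeded_3997aac3.Q84.UM.DPM
import Pool.Graph.R_pool_sql_team_seeded_3997aac3.Q222.UM.MV2

/-!
# Project MZ, module MOM: the moments
-/

set_option autoImplicit false

namespace Pool.Agent.H4.MZ

open Filter Topology MeasureTheory Complex
open scoped ComplexConjugate
open Pool.Agent.Q97.UM

theorem pol_pt (f g : ℂ) : f * conj g = (1 / 4 : ℂ) * (((‖f + 1 * g‖ ^ 2 : ℝ) : ℂ) +
    I * ((‖f + I * g‖ ^ 2 : ℝ) : ℂ) - ((‖f + (-1) * g‖ ^ 2 : ℝ) : ℂ) -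
      I * ((‖f + (-I) * g‖ ^ 2 : ℝ) : ℂ)) := by
  push_cast
  rw [← Complex.mul_conj', ← Complex.mul_conj', ← Complex.mul_conj', ← Complex.mul_conj']
  simp only [map_add, map_mul, map_neg, map_one, Complex.conj_I]
  have hI := Complex.I_mul_I
  linear_combination (-(1 / 2 : ℂ) * (g * conj f - f * conj g)) * hI

theorem pol (F G : ℝ → ℂ) (hF : Continuous F) (hG : Continuous G) (a b n e : ℝ)
    (h : ∀ z : ℂ, ‖z‖ = 1 → |(∫ t in a..b, ‖F t + z * G t‖ ^ 2) - n| ≤ e) :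
    ‖∫ t in a..b, F t * conj (G t)‖ ≤ e := by
  have hc : ∀ z : ℂ, Continuous fun t => ((‖F t + z * G t‖ ^ 2 : ℝ) : ℂ) := fun z =>
    Complex.continuous_ofReal.comp (((hF.add (continuous_const.mul hG)).norm).pow 2)
  have hi : ∀ z : ℂ, IntervalIntegrable (fun t => ((‖F t + z * G t‖ ^ 2 : ℝ) : ℂ)) volume a b :=
    fun z => (hc z).intervalIntegrable a b
  have h1 : ∫ t in a..b, F t * conj (G t) = (1 / 4 : ℂ) *
      ((((∫ t in a..b, ‖F t + 1 * G t‖ ^ 2 : ℝ)) : ℂ) +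
      I * ((∫ t in a..b, ‖F t + I * G t‖ ^ 2 : ℝ) : ℂ) -
      ((∫ t in a..b, ‖F t + (-1) * G t‖ ^ 2 : ℝ) : ℂ) -
      I * ((∫ t in a..b, ‖F t + (-I) * G t‖ ^ 2 : ℝ) : ℂ)) := by
    simp_rw [pol_pt]
    rw [intervalIntegral.integral_const_mul, intervalIntegral.integral_sub,
      intervalIntegral.integral_sub, intervalIntegral.integral_add,
      intervalIntegral.integral_const_mul, intervalIntegral.integral_const_mul]
    · simp only [intervalIntegral.integral_ofReal]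
    · exact hi 1
    · exact (hi I).const_mul I
    · exact (hi 1).add ((hi I).const_mul I)
    · exact hi (-1)
    · exact ((hi 1).add ((hi I).const_mul I)).sub (hi (-1))
    · exact (hi (-I)).const_mul I
  obtain ⟨A1, hA1⟩ : ∃ A : ℝ, A = (∫ t in a..b, ‖F t + 1 * G t‖ ^ 2) - n := ⟨_, rfl⟩
  obtain ⟨A2, hA2⟩ : ∃ A : ℝ, A = (∫ t in a..b, ‖F t + I * G t‖ ^ 2) - n := ⟨_, rfl⟩
  obtain ⟨A3, hA3⟩ : ∃ A : ℝ, A = (∫ t in a..b, ‖F t + (-1) * G t‖ ^ 2) - n := ⟨_, rfl⟩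
  obtain ⟨A4, hA4⟩ : ∃ A : ℝ, A = (∫ t in a..b, ‖F t + (-I) * G t‖ ^ 2) - n := ⟨_, rfl⟩
  have e1 : (∫ t in a..b, ‖F t + 1 * G t‖ ^ 2) = A1 + n := by rw [hA1]; ring
  have e2 : (∫ t in a..b, ‖F t + I * G t‖ ^ 2) = A2 + n := by rw [hA2]; ring
  have e3 : (∫ t in a..b, ‖F t + (-1) * G t‖ ^ 2) = A3 + n := by rw [hA3]; ring
  have e4 : (∫ t in a..b, ‖F t + (-I) * G t‖ ^ 2) = A4 + n := by rw [hA4]; ring
  have b1 : |A1| ≤ e := by rw [hA1]; exact h 1 (by simp)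
  have b2 : |A2| ≤ e := by rw [hA2]; exact h I (by simp)
  have b3 : |A3| ≤ e := by rw [hA3]; exact h (-1) (by simp)
  have b4 : |A4| ≤ e := by rw [hA4]; exact h (-I) (by simp)
  rw [h1, e1, e2, e3, e4]
  have e5 : (1 / 4 : ℂ) * (((A1 + n : ℝ) : ℂ) + I * ((A2 + n : ℝ) : ℂ) - ((A3 + n : ℝ) : ℂ) -
      I * ((A4 + n : ℝ) : ℂ)) = (1 / 4 : ℂ) * ((A1 : ℂ) + I * (A2 : ℂ) - (A3 : ℂ) - I * (A4 : ℂ)) := by
    push_cast
    ring
  rw [e5, norm_mul]
  have e6 : ‖(1 / 4 : ℂ)‖ = 1 / 4 := by norm_num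
  have n1 : ‖(A1 : ℂ)‖ ≤ e := by rw [Complex.norm_real]; exact b1
  have n2 : ‖I * (A2 : ℂ)‖ ≤ e := by
    rw [norm_mul, Complex.norm_I, one_mul, Complex.norm_real]; exact b2
  have n3 : ‖(A3 : ℂ)‖ ≤ e := by rw [Complex.norm_real]; exact b3
  have n4 : ‖I * (A4 : ℂ)‖ ≤ e := by
    rw [norm_mul, Complex.norm_I, one_mul, Complex.norm_real]; exact b4
  have n5 : ‖(A1 : ℂ) + I * (A2 : ℂ) - (A3 : ℂ) - I * (A4 : ℂ)‖ ≤ 4 * e := by
    have g1 := norm_sub_le ((A1 : ℂ) + I * (A2 : ℂ) - (A3 : ℂ)) (I * (A4 : ℂ))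
    have g2 := norm_sub_le ((A1 : ℂ) + I * (A2 : ℂ)) (A3 : ℂ)
    have g3 := norm_add_le (A1 : ℂ) (I * (A2 : ℂ))
    linarith
  rw [e6]
  linarith

theorem dp_ext' (M M' : ℕ) (c : ℕ → ℂ) (hM : M' ≤ M) (hc : ∀ n, c n ≠ 0 → 1 ≤ n ∧ n ≤ M')
    (t : ℝ) : dp M c t = dp M' c t := by
  unfold dp
  symm
  apply Finset.sum_subset (Finset.Icc_subset_Icc_right hM)
  intro n hn hn'
  by_cases h : c n = 0
  · rw [h, zero_mul]
  · exact absurd (Finset.mem_Icc.mpr (hc n h)) hn'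

theorem N2_ext' (M M' : ℕ) (c : ℕ → ℂ) (hM : M' ≤ M) (hc : ∀ n, c n ≠ 0 → 1 ≤ n ∧ n ≤ M') :
    N2 M c = N2 M' c := by
  unfold N2
  symm
  apply Finset.sum_subset (Finset.Icc_subset_Icc_right hM)
  intro n hn hn'
  by_cases h : c n = 0
  · rw [h]; simp
  · exact absurd (Finset.mem_Icc.mpr (hc n h)) hn'

theorem dp_lin (M : ℕ) (c c' : ℕ → ℂ) (z : ℂ) (t : ℝ) :
    dp M (fun n => c n + z * c' n) t = dp M c t + z * dp M c' t := by
  unfold dp
  rw [Finset.mul_sum, ← Finset.sum_add_distrib]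
  refine Finset.sum_congr rfl fun n _ => ?_
  ring

theorem N2_disj (M : ℕ) (c c' : ℕ → ℂ) (z : ℂ) (hz : ‖z‖ = 1) (h : ∀ n, c n = 0 ∨ c' n = 0) :
    N2 M (fun n => c n + z * c' n) = N2 M c + N2 M c' := by
  unfold N2
  rw [← Finset.sum_add_distrib]
  refine Finset.sum_congr rfl fun n _ => ?_
  change ‖c n + z * c' n‖ ^ 2 / (n : ℝ) = _
  rcases h n with h1 | h1
  · rw [h1, zero_add, norm_mul, hz, one_mul, norm_zero]
    ring
  · rw [h1, mul_zero, add_zero, norm_zero]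
    ring

theorem N2_nn (M : ℕ) (c : ℕ → ℂ) : 0 ≤ N2 M c :=
  Finset.sum_nonneg fun n _ => div_nonneg (sq_nonneg _) (Nat.cast_nonneg n)

theorem Q4_nn (Y : ℕ) (α : ℕ → ℂ) : 0 ≤ Q4 Y α :=
  Finset.sum_nonneg fun n _ => div_nonneg (by positivity) (by positivity)

theorem t_MOM : S_ALG → S_MOM := by
  intro hALG m
  obtain ⟨C₀, hC₀, hMV⟩ := Pool.Agent.Q222.UM.t_MV2
  have hcont : ∀ (N : ℕ) (b : ℕ → ℂ), Continuous (dp N b) := fun N b =>
    ((Pool.Agent.Q84.UM.t_DPM).2.2 N b 0).2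
  have hf1 : ∀ i : ℕ, i ≤ m → (i.factorial : ℝ) ≤ m.factorial := fun i hi => by
    exact_mod_cast Nat.factorial_le hi
  refine ⟨(m.factorial : ℝ) * (m : ℝ) ^ 2 + 2 * C₀ * m.factorial, by positivity, ?_⟩
  filter_upwards [eventually_ge_atTop (1 : ℝ)] with T hT
  intro N Y α b hY hM hPS i l hi hl
  have hT0 : 0 < T := by linarith
  have hT12 : 0 < T ^ (-(1 / 2) : ℝ) := Real.rpow_pos_of_pos hT0 _
  have hV0 : 0 ≤ N2 Y α := N2_nn Y α
  have hQ0 : 0 ≤ Q4 Y α := Q4_nn Y α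
  have hB0 : 0 ≤ N2 N b := N2_nn N b
  rcases Nat.eq_zero_or_pos N with hN | hN
  · subst hN
    have h1 : ∀ t, dp 0 b t = 0 := fun t => by unfold dp; simp
    have h2 : N2 0 b = 0 := by unfold N2; simp
    simp only [h1, h2, norm_zero, mul_zero]
    simp
  -- the restriction of `b`
  obtain ⟨b', hb'⟩ : ∃ b' : ℕ → ℂ, b' = fun n => if 1 ≤ n ∧ n ≤ N then b n else 0 := ⟨_, rfl⟩
  have hb1 : ∀ n, b' n ≠ 0 → 1 ≤ n ∧ n ≤ N := by
    intro n hn
    by_contra hcon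
    apply hn
    rw [hb']
    simp only [hcon, if_false]
  have hb2 : ∀ t, dp N b' t = dp N b t := by
    intro t
    unfold dp
    refine Finset.sum_congr rfl fun n hn => ?_
    rw [Finset.mem_Icc] at hn
    rw [hb']
    simp only [hn, and_self, if_true]
  have hb3 : N2 N b' = N2 N b := by
    unfold N2
    refine Finset.sum_congr rfl fun n hn => ?_
    rw [Finset.mem_Icc] at hn
    rw [hb']
    simp only [hn, and_self, if_true]
  obtain ⟨a1, a2, a3, a4, a5⟩ := hALG N Y α b' hY hPS hb1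
  obtain ⟨c, hc⟩ : ∃ c : ℕ → ℕ → ℂ, c = fun i => cv (pw α i) b' := ⟨_, rfl⟩
  obtain ⟨M, hMd⟩ : ∃ M : ℕ, M = Y ^ m * N := ⟨_, rfl⟩
  have hM1 : 1 ≤ M := by
    rw [hMd]
    exact Nat.mul_pos (pow_pos hY m) hN
  have hYM : ∀ i, i ≤ m → Y ^ i * N ≤ M := by
    intro i hi
    rw [hMd]
    exact Nat.mul_le_mul_right N (Nat.pow_le_pow_right hY hi)
  have hF : ∀ i, i ≤ m → ∀ t, dp M (c i) t = dp Y α t ^ i * dp N b t := by
    intro i hi t
    rw [dp_ext' M (Y ^ i * N) (c i) (hYM i hi) (by rw [hc]; exact a2 i), hc, a1 i t, hb2]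
  have hN2 : ∀ i, i ≤ m → N2 M (c i) = N2 (Y ^ i) (pw α i) * N2 N b := by
    intro i hi
    rw [N2_ext' M (Y ^ i * N) (c i) (hYM i hi) (by rw [hc]; exact a2 i), hc, a4 i, hb3]
  -- the error of the mean value theorem
  have hMT : (M : ℝ) ≤ T ^ (1 / 8 : ℝ) := by
    rw [hMd]
    push_cast
    exact hM
  have hM1r : (1 : ℝ) ≤ M := by exact_mod_cast hM1
  have hErr : C₀ * M * (1 + Real.log M) ≤ C₀ * (T ^ (-(1 / 2) : ℝ) * T) := by
    have h1 : 1 + Real.log M ≤ M := by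
      have := Real.log_le_sub_one_of_pos (by linarith : (0 : ℝ) < M)
      linarith
    have h2 : (M : ℝ) * (1 + Real.log M) ≤ T ^ (-(1 / 2) : ℝ) * T := by
      calc (M : ℝ) * (1 + Real.log M) ≤ M * M := mul_le_mul_of_nonneg_left h1 (by linarith)
        _ ≤ T ^ (1 / 8 : ℝ) * T ^ (1 / 8 : ℝ) := mul_le_mul hMT hMT (by linarith) (by positivity)
        _ = T ^ (1 / 4 : ℝ) := by rw [← Real.rpow_add hT0]; norm_num
        _ ≤ T ^ (1 / 2 : ℝ) := Real.rpow_le_rpow_of_exponent_le hT (by norm_num)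
        _ = T ^ (-(1 / 2) : ℝ) * T := by
          nth_rewrite 3 [← Real.rpow_one T]
          rw [← Real.rpow_add hT0]
          norm_num
    rw [mul_assoc]
    exact mul_le_mul_of_nonneg_left h2 (by linarith)
  have hMV' : ∀ c : ℕ → ℂ, |(∫ t in T..(2 * T), ‖dp M c t‖ ^ 2) - T * N2 M c| ≤
      C₀ * (T ^ (-(1 / 2) : ℝ) * T) * N2 M c := by
    intro c
    have h1 := hMV T (2 * T) (by linarith) M c hM1
    have h2 : 2 * T - T = T := by ring
    rw [h2] at h1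
    exact h1.trans (mul_le_mul_of_nonneg_right hErr (N2_nn M c))
  have hNb : ∀ i, i ≤ m → N2 M (c i) ≤ (m.factorial : ℝ) * (1 + N2 Y α) ^ m * N2 N b := by
    intro i hi
    rw [hN2 i hi]
    refine mul_le_mul_of_nonneg_right ?_ hB0
    refine (a5 i).1.trans ?_
    refine mul_le_mul (hf1 i hi) ?_ (by positivity) (by positivity)
    calc N2 Y α ^ i ≤ (1 + N2 Y α) ^ i := pow_le_pow_left₀ hV0 (by linarith) i
      _ ≤ (1 + N2 Y α) ^ m := pow_le_pow_right₀ (by linarith) hi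
  have hint : ∀ t, dp Y α t ^ i * conj (dp Y α t) ^ l * ((‖dp N b t‖ ^ 2 : ℝ) : ℂ) =
      dp M (c i) t * conj (dp M (c l) t) := by
    intro t
    rw [hF i hi, hF l hl]
    push_cast
    rw [← Complex.mul_conj', map_mul, map_pow]
    ring
  simp_rw [hint]
  have hR0 : 0 ≤ T ^ (-(1 / 2) : ℝ) * T := by positivity
  by_cases hil : i = l
  · subst hil
    rw [if_pos rfl]
    have h1 : ∀ t, dp M (c i) t * conj (dp M (c i) t) = ((‖dp M (c i) t‖ ^ 2 : ℝ) : ℂ) := by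
      intro t
      push_cast
      exact Complex.mul_conj' _
    simp_rw [h1]
    rw [intervalIntegral.integral_ofReal, ← Complex.ofReal_sub, Complex.norm_real, Real.norm_eq_abs]
    have h2 := hMV' (c i)
    have h3 := hNb i hi
    have h4 := hN2 i hi
    have h5 := (a5 i).1
    have h6 := (a5 i).2
    -- the main term
    have h7 : |T * N2 M (c i) - (i.factorial : ℝ) * N2 Y α ^ i * (T * N2 N b)| ≤
        (m.factorial : ℝ) * (m : ℝ) ^ 2 * Q4 Y α * (1 + N2 Y α) ^ m * (T * N2 N b) := by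
      have e : T * N2 M (c i) - (i.factorial : ℝ) * N2 Y α ^ i * (T * N2 N b) =
          -(((i.factorial : ℝ) * N2 Y α ^ i - N2 (Y ^ i) (pw α i)) * (T * N2 N b)) := by
        rw [h4]
        ring
      have hTB : 0 ≤ T * N2 N b := by positivity
      rw [e, abs_neg, abs_of_nonneg (mul_nonneg (by linarith) hTB)]
      refine mul_le_mul_of_nonneg_right ?_ hTB
      have h8 : (i.factorial : ℝ) * N2 Y α ^ i - N2 (Y ^ i) (pw α i) ≤
          (i.factorial : ℝ) * (i : ℝ) ^ 2 * Q4 Y α * (1 + N2 Y α) ^ i := by linarith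
      refine h8.trans ?_
      have hi2 : (i : ℝ) ^ 2 ≤ (m : ℝ) ^ 2 := pow_le_pow_left₀ (by positivity) (by exact_mod_cast hi) 2
      refine mul_le_mul (mul_le_mul_of_nonneg_right (mul_le_mul (hf1 i hi) hi2 (by positivity)
        (by positivity)) hQ0) (pow_le_pow_right₀ (by linarith) hi) (by positivity) (by positivity)
    have h9 : C₀ * (T ^ (-(1 / 2) : ℝ) * T) * N2 M (c i) ≤
        C₀ * (T ^ (-(1 / 2) : ℝ) * T) * ((m.factorial : ℝ) * (1 + N2 Y α) ^ m * N2 N b) :=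
      mul_le_mul_of_nonneg_left h3 (by positivity)
    have h10 := abs_sub_le (∫ t in T..(2 * T), ‖dp M (c i) t‖ ^ 2) (T * N2 M (c i))
      ((i.factorial : ℝ) * N2 Y α ^ i * (T * N2 N b))
    refine h10.trans ((add_le_add (h2.trans h9) h7).trans ?_)
    have hX : 0 ≤ C₀ * (m.factorial : ℝ) * Q4 Y α * (1 + N2 Y α) ^ m * (T * N2 N b) := by positivity
    have hX2 : 0 ≤ (m.factorial : ℝ) * (m : ℝ) ^ 2 * T ^ (-(1 / 2) : ℝ) * (1 + N2 Y α) ^ m *
      (T * N2 N b) := by positivity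
    have hX3 : 0 ≤ C₀ * (m.factorial : ℝ) * T ^ (-(1 / 2) : ℝ) * (1 + N2 Y α) ^ m *
      (T * N2 N b) := by positivity
    nlinarith [hX, hX2, hX3]
  · rw [if_neg hil, sub_zero]
    have h1 := pol (dp M (c i)) (dp M (c l)) (hcont M _) (hcont M _) T (2 * T)
      (T * (N2 M (c i) + N2 M (c l))) (C₀ * (T ^ (-(1 / 2) : ℝ) * T) * (N2 M (c i) + N2 M (c l)))
      (fun z hz => by
        have h2 := hMV' (fun n => c i n + z * c l n)
        rw [N2_disj M (c i) (c l) z hz (by rw [hc]; exact a3 i l hil)] at h2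
        simp_rw [dp_lin] at h2
        exact h2)
    refine h1.trans ?_
    have h3 := add_le_add (hNb i hi) (hNb l hl)
    refine (mul_le_mul_of_nonneg_left h3 (by positivity)).trans ?_
    have hX : 0 ≤ 2 * C₀ * (m.factorial : ℝ) * Q4 Y α * (1 + N2 Y α) ^ m * (T * N2 N b) := by
      positivity
    have hX2 : 0 ≤ (m.factorial : ℝ) * (m : ℝ) ^ 2 * (Q4 Y α + T ^ (-(1 / 2) : ℝ)) *
      (1 + N2 Y α) ^ m * (T * N2 N b) := by positivity
    nlinarith [hX, hX2]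

end Pool.Agent.H4.MZ
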