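import Pool.Agent.H4.MZ.Stm
import Pool.Graph.R_pool_sql_team_seeded_3997aac3.Q38.UM.PWKA
import Pool.Graph.R_pool_sql_team_seeded_3997aac3.Q84.UM.DPM

set_option autoImplicit false

/-! Project MZ (helper4), module ALG (helper61): powers of prime sums. -/

namespace Pool.Agent.H4.MZ

open Filter Topology MeasureTheory Complex
open Pool.Agent.Q97.UM Pool.Agent.Q190.UM Pool.Agent.Q38.UM

noncomputable section

theorem pca_of_PS {N Y : ℕ} {α : ℕ → ℂ} (h : PS N Y α) : pca α Y = α := by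
  funext n
  unfold pca
  split_ifs with h1
  · rfl
  · by_contra hne
    obtain ⟨h2, _, h4⟩ := h n (Ne.symm hne)
    exact h1 ⟨h2, h4⟩

theorem pw_eq {N Y : ℕ} {α : ℕ → ℂ} (h : PS N Y α) (i : ℕ) : pw α i = pka α Y i := by
  induction i with
  | zero => rfl
  | succ k ih =>
    show cv α (pw α k) = cv (pca α Y) (pka α Y k)
    rw [ih, pca_of_PS h]

/-- the support of a power -/
theorem pka_ne {N Y : ℕ} {α : ℕ → ℂ} (h : PS N Y α) {i k : ℕ} (hk : pka α Y i k ≠ 0) :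
    1 ≤ k ∧ k ≤ Y ^ i ∧ k.primeFactorsList.length = i ∧ ∀ p : ℕ, p.Prime → p ∣ k → N < p := by
  rw [pka_eq] at hk
  have h1 : ck Y i k ≠ 0 := fun h0 => hk (by rw [h0]; simp)
  have h2 : Fa α k ≠ 0 := fun h0 => hk (by rw [h0]; simp)
  obtain ⟨i1, i2, i3, _⟩ := ck_supp h1
  refine ⟨i1, i2, i3, fun p hp hd => ?_⟩
  have h3 : α p ≠ 0 := by
    intro h0
    apply h2
    unfold Fa
    rw [List.prod_eq_zero_iff, List.mem_map]
    exact ⟨p, (Nat.mem_primeFactorsList (by omega)).2 ⟨hp, hd⟩, h0⟩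
  exact (h p h3).2.1

theorem cv_ne {a b : ℕ → ℂ} {n : ℕ} (h : cv a b n ≠ 0) : ∃ k m : ℕ, n = k * m ∧ a k ≠ 0 ∧ b m ≠ 0 := by
  unfold cv at h
  obtain ⟨p, hp, hne⟩ := Finset.exists_ne_zero_of_sum_ne_zero h
  exact ⟨p.1, p.2, (Nat.mem_divisorsAntidiagonal.1 hp).1.symm, left_ne_zero_of_mul hne, right_ne_zero_of_mul hne⟩

/-- uniqueness of the decomposition -/
theorem km_unique {N k m k' m' : ℕ} (hk : 1 ≤ k) (hk' : 1 ≤ k') (hm : 1 ≤ m ∧ m ≤ N) (hm' : 1 ≤ m' ∧ m' ≤ N)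
    (h1 : ∀ p : ℕ, p.Prime → p ∣ k → N < p) (h2 : ∀ p : ℕ, p.Prime → p ∣ k' → N < p) (h : k * m = k' * m') :
    k = k' ∧ m = m' := by
  have h3 : ∀ x y : ℕ, (∀ p : ℕ, p.Prime → p ∣ x → N < p) → 1 ≤ y → y ≤ N → Nat.Coprime x y := by
    intro x y hx hy1 hyN
    refine Nat.coprime_of_dvd' fun p hp hpx hpy => ?_
    have := Nat.le_of_dvd hy1 hpy
    have := hx p hp hpx
    omega
  have h4 : k ∣ k' := by
    have : k ∣ k' * m' := ⟨m, h.symm⟩
    exact (h3 k m' h1 hm'.1 hm'.2).dvd_of_dvd_mul_right this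
  have h5 : k' ∣ k := by
    have : k' ∣ k * m := ⟨m', h⟩
    exact (h3 k' m h2 hm.1 hm.2).dvd_of_dvd_mul_right this
  have h6 := Nat.dvd_antisymm h4 h5
  subst h6
  exact ⟨rfl, Nat.eq_of_mul_eq_mul_left hk h⟩

theorem cv_val {N Y : ℕ} {α b : ℕ → ℂ} (h : PS N Y α) (hb : ∀ n, b n ≠ 0 → 1 ≤ n ∧ n ≤ N) {i k m : ℕ}
    (hk : pka α Y i k ≠ 0) (hm : b m ≠ 0) : cv (pka α Y i) b (k * m) = pka α Y i k * b m := by
  obtain ⟨h1, _, _, h4⟩ := pka_ne h hk
  have h5 := hb m hm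
  unfold cv
  rw [Finset.sum_eq_single (k, m)]
  · rintro ⟨k', m'⟩ hp hne
    by_contra h0
    have h6 : pka α Y i k' ≠ 0 := left_ne_zero_of_mul h0
    have h7 : b m' ≠ 0 := right_ne_zero_of_mul h0
    obtain ⟨i1, _, _, i4⟩ := pka_ne h h6
    have h8 := km_unique i1 h1 (hb m' h7) h5 i4 h4 (Nat.mem_divisorsAntidiagonal.1 hp).1
    exact hne (Prod.ext h8.1 h8.2)
  · intro h6
    exfalso
    apply h6
    rw [Nat.mem_divisorsAntidiagonal]
    refine ⟨rfl, ?_⟩
    have := Nat.mul_pos h1 h5.1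
    omega

theorem N2_cv {N Y : ℕ} {α b : ℕ → ℂ} (h : PS N Y α) (hb : ∀ n, b n ≠ 0 → 1 ≤ n ∧ n ≤ N) (i : ℕ) :
    N2 (Y ^ i * N) (cv (pka α Y i) b) = N2 (Y ^ i) (pka α Y i) * N2 N b := by
  classical
  unfold N2
  rw [Finset.sum_mul_sum, ← Finset.sum_product']
  rw [← Finset.sum_filter_of_ne (p := fun q : ℕ × ℕ => pka α Y i q.1 ≠ 0 ∧ b q.2 ≠ 0)]
  · symm
    refine Finset.sum_of_injOn (fun q : ℕ × ℕ => q.1 * q.2) ?_ ?_ ?_ ?_
    · rintro ⟨k, m⟩ hq ⟨k', m'⟩ hq' heq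
      simp only [Finset.coe_filter, Set.mem_ofPred_eq] at hq hq'
      obtain ⟨i1, _, _, i4⟩ := pka_ne h hq.2.1
      obtain ⟨j1, _, _, j4⟩ := pka_ne h hq'.2.1
      have h8 := km_unique i1 j1 (hb m hq.2.2) (hb m' hq'.2.2) i4 j4 heq
      exact Prod.ext h8.1 h8.2
    · rintro ⟨k, m⟩ hq
      simp only [Finset.coe_filter, Set.mem_ofPred_eq] at hq
      obtain ⟨i1, i2, _, i4⟩ := pka_ne h hq.2.1
      have h5 := hb m hq.2.2
      simp only [Finset.coe_Icc, Set.mem_Icc]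
      exact ⟨Nat.mul_pos i1 h5.1, Nat.mul_le_mul i2 h5.2⟩
    · intro n _ hn2
      by_contra h0
      have h1 : cv (pka α Y i) b n ≠ 0 := fun h2 => h0 (by rw [h2]; simp)
      obtain ⟨k, m, h3, h4, h5⟩ := cv_ne h1
      apply hn2
      refine ⟨(k, m), ?_, h3.symm⟩
      obtain ⟨i1, i2, _, i4⟩ := pka_ne h h4
      have h6 := hb m h5
      simp only [Finset.coe_filter, Set.mem_ofPred_eq, Finset.mem_product, Finset.mem_Icc]
      exact ⟨⟨⟨i1, i2⟩, h6⟩, h4, h5⟩
    · rintro ⟨k, m⟩ hq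
      rw [Finset.mem_filter] at hq
      simp only
      rw [cv_val h hb hq.2.1 hq.2.2, norm_mul]
      push_cast
      rw [mul_pow, div_mul_div_comm]
  · rintro ⟨k, m⟩ _ hne
    constructor
    · intro h0
      apply hne
      simp [h0]
    · intro h0
      apply hne
      simp [h0]

/-- `m` is divisible by `q` -/
lemma EEW_dvd {α : ℕ → ℂ} {X k q : ℕ} (hq : q ∈ PX X) :
    EE X k (fun m => if q ∣ m then ‖Fa α m‖ ^ 2 else 0) ≤ k * (‖α q‖ ^ 2 / q) * (1 + SA α X) ^ k := by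
  have hqp : q.Prime := (Finset.mem_filter.1 hq).2
  have hV : 0 ≤ SA α X := Finset.sum_nonneg fun _ _ => by positivity
  induction k with
  | zero =>
    simp only [EE, Nat.dvd_one, hqp.one_lt.ne', if_false]
    simp
  | succ k ih =>
    have h1 : EE X (k + 1) (fun m => if q ∣ m then ‖Fa α m‖ ^ 2 else 0) ≤
        SA α X * EE X k (fun m => if q ∣ m then ‖Fa α m‖ ^ 2 else 0) + ‖α q‖ ^ 2 / q * SA α X ^ k := by
      simp only [EE]
      have h2 : ∀ p ∈ PX X, 1 / (p : ℝ) * EE X k (fun m => if q ∣ p * m then ‖Fa α (p * m)‖ ^ 2 else 0) ≤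
          ‖α p‖ ^ 2 / (p : ℝ) * EE X k (fun m => if q ∣ m then ‖Fa α m‖ ^ 2 else 0) +
            (if p = q then ‖α p‖ ^ 2 / (p : ℝ) * SA α X ^ k else 0) := by
        intro p hp
        have hpp : p.Prime := (Finset.mem_filter.1 hp).2
        have h20 : EE X k (fun m => if q ∣ p * m then ‖Fa α (p * m)‖ ^ 2 else 0) =
            ‖α p‖ ^ 2 * EE X k (fun m => if q ∣ p * m then ‖Fa α m‖ ^ 2 else 0) := by
          rw [← EE_smul]
          refine EE_congr fun n hn => ?_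
          obtain ⟨i1, _⟩ := ck_supp hn
          rw [Fa_mul α hpp (by omega), norm_mul, mul_pow]
          split_ifs <;> simp
        rw [h20]
        split_ifs with h3
        · have h21 : EE X k (fun m => if q ∣ p * m then ‖Fa α m‖ ^ 2 else 0) ≤
              EE X k (fun m => if q ∣ m then ‖Fa α m‖ ^ 2 else 0) + SA α X ^ k := by
            rw [← EE_W α X k, ← EE_add]
            refine EE_mono fun n _ => ?_
            have : (0 : ℝ) ≤ ‖Fa α n‖ ^ 2 := by positivity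
            split_ifs <;> linarith
          calc 1 / (p : ℝ) * (‖α p‖ ^ 2 * EE X k (fun m => if q ∣ p * m then ‖Fa α m‖ ^ 2 else 0))
              = ‖α p‖ ^ 2 / (p : ℝ) * EE X k (fun m => if q ∣ p * m then ‖Fa α m‖ ^ 2 else 0) := by ring
            _ ≤ ‖α p‖ ^ 2 / (p : ℝ) * (EE X k (fun m => if q ∣ m then ‖Fa α m‖ ^ 2 else 0) + SA α X ^ k) :=
                mul_le_mul_of_nonneg_left h21 (by positivity)
            _ = _ := by ring
        · rw [add_zero]
          have h21 : EE X k (fun m => if q ∣ p * m then ‖Fa α m‖ ^ 2 else 0) ≤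
              EE X k (fun m => if q ∣ m then ‖Fa α m‖ ^ 2 else 0) := by
            refine EE_mono fun n _ => ?_
            have h4 : q ∣ p * n ↔ q ∣ n := by
              rw [hqp.dvd_mul]
              constructor
              · rintro (h5 | h5)
                · exact absurd ((Nat.prime_dvd_prime_iff_eq hqp hpp).1 h5).symm h3
                · exact h5
              · exact Or.inr
            simp only [h4, le_refl]
          calc 1 / (p : ℝ) * (‖α p‖ ^ 2 * EE X k (fun m => if q ∣ p * m then ‖Fa α m‖ ^ 2 else 0))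
              = ‖α p‖ ^ 2 / (p : ℝ) * EE X k (fun m => if q ∣ p * m then ‖Fa α m‖ ^ 2 else 0) := by ring
            _ ≤ _ := mul_le_mul_of_nonneg_left h21 (by positivity)
      refine (Finset.sum_le_sum h2).trans ?_
      rw [Finset.sum_add_distrib, ← Finset.sum_mul, Finset.sum_ite_eq' (PX X) q, if_pos hq]
      rfl
    have hw : 0 ≤ ‖α q‖ ^ 2 / (q : ℝ) := by positivity
    have h7 := mul_le_mul_of_nonneg_left ih hV
    have h8 : SA α X ^ k ≤ (1 + SA α X) ^ k := pow_le_pow_left₀ hV (by linarith) k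
    have h9 : (1 + SA α X) ^ k ≤ (1 + SA α X) ^ (k + 1) := pow_le_pow_right₀ (by linarith) (by omega)
    have h10 := mul_le_mul_of_nonneg_left (h8.trans h9) hw
    have h11 : SA α X * (k * (‖α q‖ ^ 2 / q) * (1 + SA α X) ^ k) ≤ k * (‖α q‖ ^ 2 / q) * (1 + SA α X) ^ (k + 1) := by
      rw [pow_succ (1 + SA α X) k]
      have h12 : 0 ≤ k * (‖α q‖ ^ 2 / (q : ℝ)) * (1 + SA α X) ^ k := by positivity
      nlinarith
    push_cast
    linarith

open Classical in
lemma EEW_nsq (α : ℕ → ℂ) (X k : ℕ) :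
    EE X k (fun m => if Squarefree m then 0 else ‖Fa α m‖ ^ 2) ≤
      k ^ 2 * (∑ p ∈ PX X, (‖α p‖ ^ 2 / (p : ℝ)) ^ 2) * (1 + SA α X) ^ k := by
  have hV : 0 ≤ SA α X := Finset.sum_nonneg fun _ _ => by positivity
  have hQ : 0 ≤ ∑ p ∈ PX X, (‖α p‖ ^ 2 / (p : ℝ)) ^ 2 := Finset.sum_nonneg fun _ _ => by positivity
  induction k with
  | zero => simp [EE]
  | succ k ih =>
    have h1 : EE X (k + 1) (fun m => if Squarefree m then 0 else ‖Fa α m‖ ^ 2) ≤
        SA α X * EE X k (fun m => if Squarefree m then 0 else ‖Fa α m‖ ^ 2) +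
          k * (∑ p ∈ PX X, (‖α p‖ ^ 2 / (p : ℝ)) ^ 2) * (1 + SA α X) ^ k := by
      simp only [EE]
      have h2 : ∀ p ∈ PX X, 1 / (p : ℝ) * EE X k (fun m => if Squarefree (p * m) then 0 else ‖Fa α (p * m)‖ ^ 2) ≤
          ‖α p‖ ^ 2 / (p : ℝ) * EE X k (fun m => if Squarefree m then 0 else ‖Fa α m‖ ^ 2) +
            (‖α p‖ ^ 2 / (p : ℝ)) ^ 2 * (k * (1 + SA α X) ^ k) := by
        intro p hp
        have hpp : p.Prime := (Finset.mem_filter.1 hp).2
        have h20 : EE X k (fun m => if Squarefree (p * m) then 0 else ‖Fa α (p * m)‖ ^ 2) =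
            ‖α p‖ ^ 2 * EE X k (fun m => if Squarefree (p * m) then 0 else ‖Fa α m‖ ^ 2) := by
          rw [← EE_smul]
          refine EE_congr fun n hn => ?_
          obtain ⟨i1, _⟩ := ck_supp hn
          rw [Fa_mul α hpp (by omega), norm_mul, mul_pow]
          split_ifs <;> simp
        have h3 : EE X k (fun m => if Squarefree (p * m) then 0 else ‖Fa α m‖ ^ 2) ≤
            EE X k (fun m => if Squarefree m then 0 else ‖Fa α m‖ ^ 2) +
              EE X k (fun m => if p ∣ m then ‖Fa α m‖ ^ 2 else 0) := by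
          rw [← EE_add]
          refine EE_mono fun n _ => ?_
          have hn0 : (0 : ℝ) ≤ ‖Fa α n‖ ^ 2 := by positivity
          by_cases h4 : p ∣ n
          · rw [if_pos h4]
            split_ifs <;> linarith
          · rw [if_neg h4, add_zero]
            have h5 : Squarefree n → Squarefree (p * n) := fun h6 =>
              (Nat.squarefree_mul ((Nat.Prime.coprime_iff_not_dvd hpp).2 h4)).2 ⟨hpp.squarefree, h6⟩
            split_ifs with h7 h8 h8
            · exact le_rfl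
            · exact hn0
            · exact absurd (h5 h8) h7
            · exact le_rfl
        have h9 := EEW_dvd (α := α) (k := k) hp
        have h10 : 0 ≤ ‖α p‖ ^ 2 / (p : ℝ) := by positivity
        rw [h20]
        calc 1 / (p : ℝ) * (‖α p‖ ^ 2 * EE X k (fun m => if Squarefree (p * m) then 0 else ‖Fa α m‖ ^ 2))
            = ‖α p‖ ^ 2 / (p : ℝ) * EE X k (fun m => if Squarefree (p * m) then 0 else ‖Fa α m‖ ^ 2) := by ring
          _ ≤ ‖α p‖ ^ 2 / (p : ℝ) * (EE X k (fun m => if Squarefree m then 0 else ‖Fa α m‖ ^ 2) +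
              k * (‖α p‖ ^ 2 / (p : ℝ)) * (1 + SA α X) ^ k) :=
              mul_le_mul_of_nonneg_left (h3.trans (by linarith)) h10
          _ = _ := by ring
      refine (Finset.sum_le_sum h2).trans (le_of_eq ?_)
      rw [Finset.sum_add_distrib, ← Finset.sum_mul, ← Finset.sum_mul]
      unfold SA
      ring
    have h7 := mul_le_mul_of_nonneg_left ih hV
    set Q := ∑ p ∈ PX X, (‖α p‖ ^ 2 / (p : ℝ)) ^ 2 with hQd
    have h9 : (1 + SA α X) ^ k ≤ (1 + SA α X) ^ (k + 1) := pow_le_pow_right₀ (by linarith) (by omega)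
    have h10 : (k : ℝ) * Q * (1 + SA α X) ^ k ≤ k * Q * (1 + SA α X) ^ (k + 1) :=
      mul_le_mul_of_nonneg_left h9 (by positivity)
    have h11 : SA α X * (k ^ 2 * Q * (1 + SA α X) ^ k) ≤ k ^ 2 * Q * (1 + SA α X) ^ (k + 1) := by
      rw [pow_succ (1 + SA α X) k]
      have h12 : 0 ≤ (k : ℝ) ^ 2 * Q * (1 + SA α X) ^ k := by positivity
      nlinarith
    have h13 : 0 ≤ Q * (1 + SA α X) ^ (k + 1) := by positivity
    have h14 : 0 ≤ (k : ℝ) * (Q * (1 + SA α X) ^ (k + 1)) := by positivity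
    calc _ ≤ _ := h1
      _ ≤ k ^ 2 * Q * (1 + SA α X) ^ (k + 1) + k * Q * (1 + SA α X) ^ (k + 1) := by linarith
      _ ≤ ((k + 1 : ℕ) : ℝ) ^ 2 * Q * (1 + SA α X) ^ (k + 1) := by
          push_cast
          nlinarith

theorem Q4_eq {N Y : ℕ} {α : ℕ → ℂ} (h : PS N Y α) : ∑ p ∈ PX Y, (‖α p‖ ^ 2 / (p : ℝ)) ^ 2 = Q4 Y α := by
  unfold Q4 PX
  rw [Finset.sum_filter]
  refine Finset.sum_congr rfl fun n _ => ?_
  split_ifs with h1
  · rw [div_pow, ← pow_mul]
  · have h2 : α n = 0 := by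
      by_contra h3
      exact h1 (h n h3).1
    rw [h2]
    simp

open Classical in
theorem N2_lo4 {N Y : ℕ} {α : ℕ → ℂ} (h : PS N Y α) (i : ℕ) :
    (i.factorial : ℝ) * SA α Y ^ i - (i.factorial : ℝ) * (i : ℝ) ^ 2 * Q4 Y α * (1 + SA α Y) ^ i ≤
      N2 (Y ^ i) (pka α Y i) := by
  have h1 : SA α Y ^ i = EE Y i (fun m => if Squarefree m then ‖Fa α m‖ ^ 2 else 0) +
      EE Y i (fun m => if Squarefree m then 0 else ‖Fa α m‖ ^ 2) := by
    rw [← EE_W, ← EE_add]
    refine EE_congr fun n _ => ?_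
    split_ifs <;> simp
  have h5 : (i.factorial : ℝ) * EE Y i (fun m => if Squarefree m then ‖Fa α m‖ ^ 2 else 0) ≤
      N2 (Y ^ i) (pka α Y i) := by
    rw [N2_eqA, ← EE_smul]
    refine EE_mono fun n hn => ?_
    obtain ⟨_, _, i3, i4⟩ := ck_supp hn
    split_ifs with h2
    · rw [ck_sqf h2 i3 i4]
    · rw [mul_zero]
      positivity
  have h6 := EEW_nsq α Y i
  rw [Q4_eq h] at h6
  have h7 : (0 : ℝ) ≤ i.factorial := by positivity
  have h8 := mul_le_mul_of_nonneg_left h6 h7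
  rw [h1, mul_add]
  linarith

theorem t_ALG : S_ALG := by
  intro N Y α b hY h hb
  have hD := Pool.Agent.Q84.UM.t_DPM
  have hP := t_PWKA hD
  have hN2 : N2 Y α = SA α Y := by
    rw [← SA_eq, pca_of_PS h]
  refine ⟨fun i t => ?_, fun i n hn => ?_, fun i l hil n => ?_, fun i => ?_, fun i => ?_⟩
  · rw [pw_eq h]
    have h1 := hP.1 α i Y t
    rw [pca_of_PS h] at h1
    rw [← h1]
    refine (hD.1 (Y ^ i) N (pka α Y i) b t ?_ ?_).symm
    · intro n hn
      by_contra h0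
      exact absurd (pka_ne h h0).2.1 (not_le.2 hn)
    · intro n hn
      by_contra h0
      exact absurd (hb n h0).2 (not_le.2 hn)
  · rw [pw_eq h] at hn
    obtain ⟨k, m, h3, h4, h5⟩ := cv_ne hn
    obtain ⟨i1, i2, _, i4⟩ := pka_ne h h4
    have h6 := hb m h5
    rw [h3]
    exact ⟨Nat.mul_pos i1 h6.1, Nat.mul_le_mul i2 h6.2⟩
  · rw [pw_eq h, pw_eq h]
    by_contra hne
    push Not at hne
    obtain ⟨k, m, h3, h4, h5⟩ := cv_ne hne.1
    obtain ⟨k', m', h3', h4', h5'⟩ := cv_ne hne.2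
    obtain ⟨i1, _, i3, i4⟩ := pka_ne h h4
    obtain ⟨j1, _, j3, j4⟩ := pka_ne h h4'
    have h8 := km_unique i1 j1 (hb m h5) (hb m' h5') i4 j4 (h3.symm.trans h3')
    apply hil
    rw [← i3, ← j3, h8.1]
  · rw [pw_eq h]
    exact N2_cv h hb i
  · rw [pw_eq h, hN2]
    exact ⟨N2_upA α Y i, N2_lo4 h i⟩

end

end Pool.Agent.H4.MZ
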