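import Pool.Agent.H4.MZ.Stm
import Pool.Graph.R_pool_sql_team_seeded_1acbe0a2.Y845.GM.CF
import Pool.Graph.R_pool_sql_team_seeded_3997aac3.Q84.UM.DPM

/-!
# Project MZ (helper4), module CHR (helper97): the characteristic function from the moments
-/

set_option autoImplicit false

namespace Pool.Agent.H4.MZ

open Filter Topology MeasureTheory Complex
open scoped ComplexConjugate
open Pool.Agent.Q97.UM

/-- the combination of moments which gives the integral of `x ^ j` -/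
noncomputable def chS (z : ℂ) (M : ℕ → ℕ → ℂ) (j : ℕ) : ℂ :=
  ∑ i ∈ Finset.range (j + 1), ((j.choose i : ℂ) * conj z ^ i * z ^ (j - i)) * M i (j - i) / 2 ^ j

/-- the ideal moments -/
noncomputable def chD (V A : ℝ) (i l : ℕ) : ℂ :=
  if i = l then (((i.factorial : ℝ) * V ^ i * A : ℝ) : ℂ) else 0

lemma chS_odd (z : ℂ) (V A : ℝ) (k : ℕ) : chS z (chD V A) (2 * k + 1) = 0 := by
  refine Finset.sum_eq_zero fun i hi => ?_
  have : ¬ (i = 2 * k + 1 - i) := by
    have := Finset.mem_range.1 hi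
    omega
  unfold chD
  rw [if_neg this, mul_zero, zero_div]

lemma chS_even (z : ℂ) (V A : ℝ) (k : ℕ) :
    chS z (chD V A) (2 * k) =
      ((((2 * k).factorial : ℝ) / (k.factorial : ℝ) * (‖z‖ ^ 2 * V / 4) ^ k * A : ℝ) : ℂ) := by
  unfold chS
  rw [Finset.sum_eq_single k]
  · unfold chD
    have e1 : 2 * k - k = k := by omega
    rw [e1, if_pos rfl]
    have e2 : conj z ^ k * z ^ k = (((‖z‖ ^ 2) ^ k : ℝ) : ℂ) := by
      rw [← mul_pow, mul_comm (conj z) z, Complex.mul_conj, Complex.normSq_eq_norm_sq]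
      push_cast
      rfl
    have e3 : ((2 * k).choose k : ℝ) = ((2 * k).factorial : ℝ) / ((k.factorial : ℝ) * (k.factorial : ℝ)) := by
      have h := Nat.choose_mul_factorial_mul_factorial (n := 2 * k) (k := k) (by omega)
      rw [e1] at h
      have h0 : (k.factorial : ℝ) ≠ 0 := by positivity
      rw [eq_div_iff (by positivity)]
      have h' : (((2 * k).choose k * k.factorial * k.factorial : ℕ) : ℝ) = ((2 * k).factorial : ℝ) := by
        exact_mod_cast h
      push_cast at h'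
      linarith
    have e4 : ((2 * k).choose k : ℂ) = (((2 * k).choose k : ℝ) : ℂ) := by push_cast; rfl
    rw [mul_assoc ((2 * k).choose k : ℂ), e2, e4, e3]
    have e5 : (2 : ℂ) ^ (2 * k) = (((4 : ℝ) ^ k : ℝ) : ℂ) := by
      rw [pow_mul]
      push_cast
      norm_num
    rw [e5, ← Complex.ofReal_mul, ← Complex.ofReal_mul, ← Complex.ofReal_div, Complex.ofReal_inj]
    have h0 : (k.factorial : ℝ) ≠ 0 := by positivity
    have h4 : (4 : ℝ) ^ k ≠ 0 := by positivity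
    rw [div_pow, mul_pow]
    field_simp
  · intro i hi hne
    have : ¬ (i = 2 * k - i) := by
      have := Finset.mem_range.1 hi
      omega
    unfold chD
    rw [if_neg this, mul_zero, zero_div]
  · intro h
    exact absurd (Finset.mem_range.2 (by omega)) h

lemma chS_sum (z : ℂ) (V A : ℝ) (k : ℕ) :
    ∑ j ∈ Finset.range (2 * k), I ^ j / (j.factorial : ℂ) * chS z (chD V A) j =
      (((∑ r ∈ Finset.range k, (-(‖z‖ ^ 2 * V / 4)) ^ r / (r.factorial : ℝ)) * A : ℝ) : ℂ) := by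
  induction k with
  | zero => simp
  | succ k ih =>
    have e : 2 * (k + 1) = 2 * k + 1 + 1 := by ring
    rw [e, Finset.sum_range_succ, Finset.sum_range_succ, ih, chS_odd, mul_zero, add_zero, chS_even,
      Finset.sum_range_succ]
    have e1 : I ^ (2 * k) = (((-1 : ℝ) ^ k : ℝ) : ℂ) := by
      rw [pow_mul, I_sq]
      push_cast
      rfl
    rw [e1]
    have e2 : (((2 * k).factorial : ℕ) : ℂ) = ((((2 * k).factorial : ℕ) : ℝ) : ℂ) := by push_cast; rfl
    rw [e2, ← Complex.ofReal_div, ← Complex.ofReal_mul, ← Complex.ofReal_add, Complex.ofReal_inj]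
    have h0 : (((2 * k).factorial : ℕ) : ℝ) ≠ 0 := by positivity
    have h1 : (k.factorial : ℝ) ≠ 0 := by positivity
    have e3 : (-(‖z‖ ^ 2 * V / 4)) ^ k = (-1 : ℝ) ^ k * (‖z‖ ^ 2 * V / 4) ^ k := by
      rw [← mul_pow]
      congr 1
      ring
    rw [add_mul, e3]
    field_simp

lemma chS_close (z : ℂ) (M D : ℕ → ℕ → ℂ) (j : ℕ) {e : ℝ}
    (h : ∀ i l, i ≤ j → l ≤ j → ‖M i l - D i l‖ ≤ e) : ‖chS z M j - chS z D j‖ ≤ ‖z‖ ^ j * e := by
  unfold chS
  rw [← Finset.sum_sub_distrib]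
  refine (norm_sum_le _ _).trans ?_
  have h1 : ∀ i ∈ Finset.range (j + 1), ‖((j.choose i : ℂ) * conj z ^ i * z ^ (j - i)) * M i (j - i) / 2 ^ j -
      ((j.choose i : ℂ) * conj z ^ i * z ^ (j - i)) * D i (j - i) / 2 ^ j‖ ≤
      (j.choose i : ℝ) * (‖z‖ ^ j * e / 2 ^ j) := by
    intro i hi
    have hi' : i ≤ j := by
      have := Finset.mem_range.1 hi
      omega
    rw [← sub_div, ← mul_sub, norm_div, norm_mul, norm_mul, norm_mul, norm_pow, norm_pow, norm_pow,
      Complex.norm_conj, Complex.norm_natCast, Complex.norm_ofNat]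
    have e1 : ‖z‖ ^ i * ‖z‖ ^ (j - i) = ‖z‖ ^ j := by
      rw [← pow_add]
      congr 1
      omega
    calc (j.choose i : ℝ) * ‖z‖ ^ i * ‖z‖ ^ (j - i) * ‖M i (j - i) - D i (j - i)‖ / 2 ^ j =
        (j.choose i : ℝ) * (‖z‖ ^ i * ‖z‖ ^ (j - i)) * ‖M i (j - i) - D i (j - i)‖ / 2 ^ j := by ring
      _ = (j.choose i : ℝ) * ‖z‖ ^ j * ‖M i (j - i) - D i (j - i)‖ / 2 ^ j := by rw [e1]
      _ ≤ (j.choose i : ℝ) * ‖z‖ ^ j * e / 2 ^ j := by
        have := h i (j - i) hi' (by omega)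
        gcongr
      _ = _ := by ring
  refine (Finset.sum_le_sum h1).trans (le_of_eq ?_)
  rw [← Finset.sum_mul]
  have e2 : ∑ i ∈ Finset.range (j + 1), (j.choose i : ℝ) = 2 ^ j := by
    have := Nat.sum_range_choose j
    exact_mod_cast this
  rw [e2]
  field_simp

lemma re_pow (z p : ℂ) (j : ℕ) : (((conj z * p).re : ℝ) : ℂ) ^ j =
    ∑ i ∈ Finset.range (j + 1), ((j.choose i : ℂ) * conj z ^ i * z ^ (j - i)) * (p ^ i * conj p ^ (j - i)) / 2 ^ j := by
  have e : (((conj z * p).re : ℝ) : ℂ) = (conj z * p + z * conj p) / 2 := by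
    rw [Complex.re_eq_add_conj, map_mul, Complex.conj_conj]
  rw [e, div_pow, add_pow, Finset.sum_div]
  refine Finset.sum_congr rfl fun i _ => ?_
  rw [mul_pow, mul_pow]
  ring

/-- tails of the exponential series -/
noncomputable def tl (v : ℝ) (k : ℕ) : ℝ := Real.exp v - ∑ r ∈ Finset.range k, v ^ r / (r.factorial : ℝ)

lemma tl_eq (v : ℝ) (k : ℕ) : tl v k = ∑' r : ℕ, v ^ (r + k) / ((r + k).factorial : ℝ) := by
  have hs := Real.summable_pow_div_factorial v
  have h := hs.sum_add_tsum_nat_add k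
  have e : Real.exp v = ∑' r : ℕ, v ^ r / (r.factorial : ℝ) := by
    rw [Real.exp_eq_exp_ℝ, NormedSpace.exp_eq_tsum_div]
  unfold tl
  rw [e, ← h]
  ring

lemma tl_mono {v v₀ : ℝ} (hv : 0 ≤ v) (h : v ≤ v₀) (k : ℕ) : tl v k ≤ tl v₀ k := by
  rw [tl_eq, tl_eq]
  refine Summable.tsum_le_tsum (fun r => ?_) ?_ ?_
  · exact div_le_div_of_nonneg_right (pow_le_pow_left₀ hv h _) (by positivity)
  · exact (summable_nat_add_iff k).2 (Real.summable_pow_div_factorial v)
  · exact (summable_nat_add_iff k).2 (Real.summable_pow_div_factorial v₀)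

lemma first_le_tl {v : ℝ} (hv : 0 ≤ v) (k : ℕ) : v ^ k / (k.factorial : ℝ) ≤ tl v k := by
  have h := Real.sum_le_exp_of_nonneg hv (k + 1)
  rw [Finset.sum_range_succ] at h
  unfold tl
  linarith

lemma tl_tendsto (v : ℝ) : Tendsto (tl v) atTop (𝓝 0) := by
  have hs := (Real.summable_pow_div_factorial v).hasSum.tendsto_sum_nat
  have e : Real.exp v = ∑' r : ℕ, v ^ r / (r.factorial : ℝ) := by
    rw [Real.exp_eq_exp_ℝ, NormedSpace.exp_eq_tsum_div]
  rw [← e] at hs
  have := hs.const_sub (Real.exp v)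
  rw [sub_self] at this
  exact this

lemma chr_core {a b : ℝ} (hab : a ≤ b) (P : ℝ → ℂ) (hP : Continuous P) (w : ℝ → ℝ) (hw : Continuous w)
    (hw0 : ∀ t, 0 ≤ w t) {A V η : ℝ} (hA : 0 ≤ A) (hV : 0 ≤ V) (hη : 0 ≤ η) (k : ℕ)
    (hM : ∀ i l, i ≤ 2 * k → l ≤ 2 * k →
      ‖(∫ t in a..b, P t ^ i * conj (P t) ^ l * ((w t : ℝ) : ℂ)) - chD V A i l‖ ≤ η * A) (z : ℂ) :
    ‖(∫ t in a..b, cexp (I * (((conj z * P t).re : ℝ) : ℂ)) * ((w t : ℝ) : ℂ)) -
      ((Real.exp (-(‖z‖ ^ 2 * V / 4)) * A : ℝ) : ℂ)‖ ≤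
      (2 * tl (‖z‖ ^ 2 * V / 4) k + Real.exp ‖z‖ * η) * A := by
  obtain ⟨v, hv⟩ : ∃ v, v = ‖z‖ ^ 2 * V / 4 := ⟨_, rfl⟩
  have hv0 : 0 ≤ v := by rw [hv]; positivity
  obtain ⟨M, hMdef⟩ : ∃ M : ℕ → ℕ → ℂ, M = fun i l => ∫ t in a..b, P t ^ i * conj (P t) ^ l * ((w t : ℝ) : ℂ) :=
    ⟨_, rfl⟩
  have hM' : ∀ i l, i ≤ 2 * k → l ≤ 2 * k → ‖M i l - chD V A i l‖ ≤ η * A := by
    rw [hMdef]
    exact hM
  have hcx : Continuous fun t => (conj z * P t).re := Complex.continuous_re.comp (continuous_const.mul hP)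
  have hcw : Continuous fun t => ((w t : ℝ) : ℂ) := Complex.continuous_ofReal.comp hw
  have hcX : Continuous fun t => (((conj z * P t).re : ℝ) : ℂ) := Complex.continuous_ofReal.comp hcx
  -- the moments of `x`
  have hmom : ∀ j, ∫ t in a..b, (((conj z * P t).re : ℝ) : ℂ) ^ j * ((w t : ℝ) : ℂ) = chS z M j := by
    intro j
    unfold chS
    rw [hMdef]
    have e1 : ∀ t, (((conj z * P t).re : ℝ) : ℂ) ^ j * ((w t : ℝ) : ℂ) =
        ∑ i ∈ Finset.range (j + 1), ((j.choose i : ℂ) * conj z ^ i * z ^ (j - i) / 2 ^ j) *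
          (P t ^ i * conj (P t) ^ (j - i) * ((w t : ℝ) : ℂ)) := by
      intro t
      rw [re_pow, Finset.sum_mul]
      refine Finset.sum_congr rfl fun i _ => ?_
      ring
    simp_rw [e1]
    rw [intervalIntegral.integral_finsetSum]
    · refine Finset.sum_congr rfl fun i _ => ?_
      rw [intervalIntegral.integral_const_mul]
      ring
    · intro i _
      refine Continuous.intervalIntegrable ?_ a b
      exact continuous_const.mul (((hP.pow i).mul ((Complex.continuous_conj.comp hP).pow _)).mul hcw)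
  have hclose : ∀ j, j ≤ 2 * k → ‖chS z M j - chS z (chD V A) j‖ ≤ ‖z‖ ^ j * (η * A) := fun j hj =>
    chS_close z M _ j fun i l hi hl => hM' i l (hi.trans hj) (hl.trans hj)
  -- the Taylor polynomial
  obtain ⟨E, hE⟩ : ∃ E : ℝ → ℂ, E = fun t => cexp (I * (((conj z * P t).re : ℝ) : ℂ)) -
      ∑ j ∈ Finset.range (2 * k), I ^ j / (j.factorial : ℂ) * (((conj z * P t).re : ℝ) : ℂ) ^ j := ⟨_, rfl⟩
  have hEc : Continuous E := by
    rw [hE]
    refine Continuous.sub (Complex.continuous_exp.comp (continuous_const.mul hcX)) ?_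
    exact continuous_finsetSum _ fun j _ => continuous_const.mul (hcX.pow j)
  have hEb : ∀ t, ‖E t‖ ≤ (conj z * P t).re ^ (2 * k) / ((2 * k).factorial : ℝ) := by
    intro t
    have h := Pool.Agent.Y845.GM.taylor (2 * k) (conj z * P t).re
    have e : E t = cexp ((((conj z * P t).re : ℝ) : ℂ) * I) -
        ∑ j ∈ Finset.range (2 * k), ((((conj z * P t).re : ℝ) : ℂ) * I) ^ j / (j.factorial : ℂ) := by
      rw [hE]
      simp only
      rw [mul_comm I]
      congr 1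
      refine Finset.sum_congr rfl fun j _ => ?_
      rw [mul_pow]
      ring
    rw [e]
    refine h.trans (le_of_eq ?_)
    congr 1
    rw [pow_mul, pow_mul, sq_abs]
  have hsplit : ∫ t in a..b, cexp (I * (((conj z * P t).re : ℝ) : ℂ)) * ((w t : ℝ) : ℂ) =
      (∫ t in a..b, E t * ((w t : ℝ) : ℂ)) +
        ∑ j ∈ Finset.range (2 * k), I ^ j / (j.factorial : ℂ) * chS z M j := by
    have e1 : ∀ t, cexp (I * (((conj z * P t).re : ℝ) : ℂ)) * ((w t : ℝ) : ℂ) =
        E t * ((w t : ℝ) : ℂ) + ∑ j ∈ Finset.range (2 * k), I ^ j / (j.factorial : ℂ) *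
          ((((conj z * P t).re : ℝ) : ℂ) ^ j * ((w t : ℝ) : ℂ)) := by
      intro t
      rw [hE]
      simp only
      rw [sub_mul, Finset.sum_mul]
      simp only [mul_assoc]
      ring
    simp_rw [e1]
    rw [intervalIntegral.integral_add]
    · congr 1
      rw [intervalIntegral.integral_finsetSum]
      · refine Finset.sum_congr rfl fun j _ => ?_
        rw [intervalIntegral.integral_const_mul, hmom j]
      · intro j _
        exact (continuous_const.mul ((hcX.pow j).mul hcw)).intervalIntegrable a b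
    · exact (hEc.mul hcw).intervalIntegrable a b
    · refine Continuous.intervalIntegrable ?_ a b
      exact continuous_finsetSum _ fun j _ => continuous_const.mul ((hcX.pow j).mul hcw)
  -- the remainder
  have hrem : ‖∫ t in a..b, E t * ((w t : ℝ) : ℂ)‖ ≤
      v ^ k / (k.factorial : ℝ) * A + ‖z‖ ^ (2 * k) / ((2 * k).factorial : ℝ) * (η * A) := by
    have hF : (0 : ℝ) < ((2 * k).factorial : ℝ) := by positivity
    have h1 : ‖∫ t in a..b, E t * ((w t : ℝ) : ℂ)‖ ≤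
        ∫ t in a..b, (conj z * P t).re ^ (2 * k) / ((2 * k).factorial : ℝ) * w t := by
      refine (intervalIntegral.norm_integral_le_integral_norm hab).trans ?_
      refine intervalIntegral.integral_mono_on hab ?_ ?_ fun t _ => ?_
      · exact ((hEc.mul hcw).norm).intervalIntegrable a b
      · exact (((hcx.pow _).div_const _).mul hw).intervalIntegrable a b
      · rw [norm_mul, Complex.norm_real, Real.norm_eq_abs, abs_of_nonneg (hw0 t)]
        exact mul_le_mul_of_nonneg_right (hEb t) (hw0 t)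
    have h2 : ((∫ t in a..b, (conj z * P t).re ^ (2 * k) / ((2 * k).factorial : ℝ) * w t : ℝ) : ℂ) =
        chS z M (2 * k) / ((2 * k).factorial : ℂ) := by
      rw [← hmom, ← intervalIntegral.integral_ofReal, ← intervalIntegral.integral_div]
      refine intervalIntegral.integral_congr fun t _ => ?_
      push_cast
      ring
    have h3 : ∫ t in a..b, (conj z * P t).re ^ (2 * k) / ((2 * k).factorial : ℝ) * w t ≤
        ‖chS z M (2 * k)‖ / ((2 * k).factorial : ℝ) := by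
      have h4 := congrArg norm h2
      rw [Complex.norm_real, norm_div, Complex.norm_natCast] at h4
      rw [← h4]
      exact le_abs_self _
    have h5 : ‖chS z M (2 * k)‖ ≤ ((2 * k).factorial : ℝ) / (k.factorial : ℝ) * v ^ k * A + ‖z‖ ^ (2 * k) * (η * A) := by
      have h6 := hclose (2 * k) le_rfl
      rw [chS_even, ← hv] at h6
      have h7 := norm_sub_norm_le (chS z M (2 * k))
        ((((2 * k).factorial : ℝ) / (k.factorial : ℝ) * v ^ k * A : ℝ) : ℂ)
      have h8 : ‖((((2 * k).factorial : ℝ) / (k.factorial : ℝ) * v ^ k * A : ℝ) : ℂ)‖ =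
          ((2 * k).factorial : ℝ) / (k.factorial : ℝ) * v ^ k * A := by
        rw [Complex.norm_real, Real.norm_eq_abs, abs_of_nonneg (by positivity)]
      rw [h8] at h7
      linarith
    refine h1.trans (h3.trans ?_)
    rw [div_le_iff₀ hF]
    refine h5.trans (le_of_eq ?_)
    have h0 : (k.factorial : ℝ) ≠ 0 := by positivity
    field_simp
  -- the polynomial part
  have hpol : ‖∑ j ∈ Finset.range (2 * k), I ^ j / (j.factorial : ℂ) * chS z M j -
      (((∑ r ∈ Finset.range k, (-v) ^ r / (r.factorial : ℝ)) * A : ℝ) : ℂ)‖ ≤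
      (∑ j ∈ Finset.range (2 * k), ‖z‖ ^ j / (j.factorial : ℝ)) * (η * A) := by
    rw [hv, ← chS_sum z V A k, ← Finset.sum_sub_distrib, Finset.sum_mul]
    refine (norm_sum_le _ _).trans (Finset.sum_le_sum fun j hj => ?_)
    rw [← mul_sub, norm_mul, norm_div, norm_pow, Complex.norm_I, one_pow, Complex.norm_natCast]
    have := hclose j (Finset.mem_range.1 hj).le
    calc 1 / (j.factorial : ℝ) * ‖chS z M j - chS z (chD V A) j‖ ≤ 1 / (j.factorial : ℝ) * (‖z‖ ^ j * (η * A)) :=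
        mul_le_mul_of_nonneg_left this (by positivity)
      _ = _ := by ring
  have hexp : |(∑ r ∈ Finset.range k, (-v) ^ r / (r.factorial : ℝ)) - Real.exp (-v)| ≤ tl v k := by
    have h := Complex.norm_exp_sub_sum_le_exp_norm_sub_sum ((-v : ℝ) : ℂ) k
    rw [Complex.norm_real, Real.norm_eq_abs, abs_neg, abs_of_nonneg hv0] at h
    have e : cexp ((-v : ℝ) : ℂ) - ∑ m ∈ Finset.range k, ((-v : ℝ) : ℂ) ^ m / (m.factorial : ℂ) =
        ((Real.exp (-v) - ∑ m ∈ Finset.range k, (-v) ^ m / (m.factorial : ℝ) : ℝ) : ℂ) := by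
      push_cast
      rfl
    rw [e, Complex.norm_real, Real.norm_eq_abs, abs_sub_comm] at h
    exact h
  have hlast : ‖(((∑ r ∈ Finset.range k, (-v) ^ r / (r.factorial : ℝ)) * A : ℝ) : ℂ) -
      ((Real.exp (-v) * A : ℝ) : ℂ)‖ ≤ tl v k * A := by
    rw [← Complex.ofReal_sub, Complex.norm_real, Real.norm_eq_abs, ← sub_mul, abs_mul, abs_of_nonneg hA]
    exact mul_le_mul_of_nonneg_right hexp hA
  have hz : (∑ j ∈ Finset.range (2 * k), ‖z‖ ^ j / (j.factorial : ℝ)) + ‖z‖ ^ (2 * k) / ((2 * k).factorial : ℝ) ≤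
      Real.exp ‖z‖ := by
    rw [← Finset.sum_range_succ (fun j => ‖z‖ ^ j / (j.factorial : ℝ))]
    exact Real.sum_le_exp_of_nonneg (norm_nonneg z) _
  have hz' := mul_le_mul_of_nonneg_right hz (mul_nonneg hη hA)
  have hfirst := mul_le_mul_of_nonneg_right (first_le_tl hv0 k) hA
  rw [← hv, hsplit]
  obtain ⟨R, hR⟩ : ∃ R, R = ∫ t in a..b, E t * ((w t : ℝ) : ℂ) := ⟨_, rfl⟩
  obtain ⟨Q, hQ⟩ : ∃ Q, Q = ∑ j ∈ Finset.range (2 * k), I ^ j / (j.factorial : ℂ) * chS z M j := ⟨_, rfl⟩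
  obtain ⟨D, hD⟩ : ∃ D : ℂ, D = (((∑ r ∈ Finset.range k, (-v) ^ r / (r.factorial : ℝ)) * A : ℝ) : ℂ) := ⟨_, rfl⟩
  rw [← hR] at hrem
  rw [← hQ, ← hD] at hpol
  rw [← hD] at hlast
  rw [← hR, ← hQ]
  have e9 : R + Q - ((Real.exp (-v) * A : ℝ) : ℂ) = R + (Q - D) + (D - ((Real.exp (-v) * A : ℝ) : ℂ)) := by ring
  rw [e9]
  have t1 := norm_add_le (R + (Q - D)) (D - ((Real.exp (-v) * A : ℝ) : ℂ))
  have t2 := norm_add_le R (Q - D)
  have e10 : (2 * tl v k + Real.exp ‖z‖ * η) * A = tl v k * A + tl v k * A + Real.exp ‖z‖ * (η * A) := by ring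
  rw [e10]
  rw [add_mul] at hz'
  linarith

theorem t_CHR (hMOM : S_MOM) : S_CHR := by
  intro V₀ Xi τ hV₀ hXi hτ
  obtain ⟨k, hk⟩ := ((tl_tendsto (Xi ^ 2 * V₀ / 4)).eventually_le_const (show (0 : ℝ) < τ / 4 by positivity)).exists_forall_of_atTop
  have hk1 := hk (k + 1) (by omega)
  obtain ⟨C, hC, hMo⟩ := hMOM (2 * (k + 1))
  obtain ⟨B, hB⟩ : ∃ B, B = Real.exp Xi * (C + 1) * (1 + V₀) ^ (2 * (k + 1)) := ⟨_, rfl⟩
  have hB0 : 0 < B := by rw [hB]; positivity
  refine ⟨2 * (k + 1), τ / (4 * B), by omega, by positivity, ?_⟩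
  have hT1 : ∀ᶠ T : ℝ in atTop, T ^ (-(1 / 2) : ℝ) ≤ τ / (4 * B) :=
    (tendsto_rpow_neg_atTop (show (0 : ℝ) < 1 / 2 by norm_num)).eventually_le_const (by positivity)
  filter_upwards [hMo, hT1, eventually_ge_atTop (1 : ℝ)] with T hMo hT1 hT N Y α b hY hYN hPS hN2 hQ4 z hz
  have hN2Y : 0 ≤ N2 Y α := Finset.sum_nonneg fun _ _ => by positivity
  have hN2N : 0 ≤ N2 N b := Finset.sum_nonneg fun _ _ => by positivity
  have hQ40 : 0 ≤ Q4 Y α := Finset.sum_nonneg fun _ _ => by positivity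
  have hTr : 0 ≤ T ^ (-(1 / 2) : ℝ) := Real.rpow_nonneg (by linarith) _
  have hA : 0 ≤ T * N2 N b := mul_nonneg (by linarith) hN2N
  obtain ⟨η, hη⟩ : ∃ η, η = C * (Q4 Y α + T ^ (-(1 / 2) : ℝ)) * (1 + N2 Y α) ^ (2 * (k + 1)) := ⟨_, rfl⟩
  have hη0 : 0 ≤ η := by rw [hη]; positivity
  have hcore := chr_core (show T ≤ 2 * T by linarith) (dp Y α) (Pool.Agent.Q84.UM.dp_cont Y α)
    (fun t => ‖dp N b t‖ ^ 2) ((Pool.Agent.Q84.UM.dp_cont N b).norm.pow 2) (fun t => by positivity) hA hN2Y hη0 (k + 1)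
    (fun i l hi hl => by
      have := hMo N Y α b hY hYN hPS i l hi hl
      rw [← hη] at this
      exact this) z
  refine hcore.trans ?_
  refine mul_le_mul_of_nonneg_right ?_ hA
  have hv : ‖z‖ ^ 2 * N2 Y α / 4 ≤ Xi ^ 2 * V₀ / 4 := by
    have h1 : ‖z‖ ^ 2 ≤ Xi ^ 2 := pow_le_pow_left₀ (norm_nonneg z) hz 2
    have h2 : ‖z‖ ^ 2 * N2 Y α ≤ Xi ^ 2 * V₀ := mul_le_mul h1 hN2 hN2Y (by positivity)
    linarith
  have h1 := tl_mono (by positivity) hv (k + 1)
  have h2 : Real.exp ‖z‖ * η ≤ τ / 2 := by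
    have h3 : η ≤ (C + 1) * (τ / (4 * B) + τ / (4 * B)) * (1 + V₀) ^ (2 * (k + 1)) := by
      rw [hη]
      gcongr
      linarith
    have h4 : Real.exp ‖z‖ * η ≤ Real.exp Xi * ((C + 1) * (τ / (4 * B) + τ / (4 * B)) * (1 + V₀) ^ (2 * (k + 1))) := by
      gcongr
    have h5 : Real.exp Xi * ((C + 1) * (τ / (4 * B) + τ / (4 * B)) * (1 + V₀) ^ (2 * (k + 1))) = B * (τ / (2 * B)) := by
      rw [hB]
      field_simp
      ring
    have h6 : B * (τ / (2 * B)) = τ / 2 := by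
      field_simp
    linarith
  linarith

end Pool.Agent.H4.MZ
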