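import Pool.Agent.H4.MZ.Stm
import Pool.Agent.H4.LG.Up
import Pool.Graph.R_pool_sql_team_seeded_3997aac3.Q97.UM.Wa

set_option autoImplicit false

/-! Module CNT: the zeros in the window and the local sums. -/

namespace Pool.Agent.H4.MZ

open Filter Topology MeasureTheory Complex
open scoped ComplexConjugate
open Pool.Agent.Q97.UM
open Pool.Agent.H4.LG (Yt ZT_ZD)

noncomputable section

/-- the exponential function near zero -/
lemma exp_sub_one_le {z : ℂ} (hz : -(1 / 8) ≤ z.re) : ‖cexp (-z) - 1‖ ≤ 3 * ‖z‖ := by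
  rcases le_or_gt ‖z‖ 1 with h | h
  · have h1 := Complex.norm_exp_sub_one_le (x := -z) (by rwa [norm_neg])
    rw [norm_neg] at h1
    linarith [norm_nonneg z]
  · have h1 : ‖cexp (-z) - 1‖ ≤ ‖cexp (-z)‖ + 1 := by
      simpa using norm_sub_le (cexp (-z)) 1
    rw [Complex.norm_exp, Complex.neg_re] at h1
    have h2 : Real.exp (-z.re) ≤ 2 := by
      have h3 : Real.exp (-z.re) ≤ Real.exp (1 / 8) := Real.exp_le_exp.2 (by linarith)
      have h4 := Real.exp_bound_div_one_sub_of_interval (x := 1 / 8) (by norm_num) (by norm_num)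
      have h5 : (1 : ℝ) / (1 - 1 / 8) ≤ 2 := by norm_num
      linarith
    linarith

lemma om_bd {δ H C : ℝ} {K : ℕ} {w : ℝ → ℝ} (hδ : 0 < δ) (hH : 1 ≤ H) (hC : 1 ≤ C) (hK : 2 ≤ K) (hw : OmW δ H C K w)
    (z : ℂ) : ‖om w z‖ ^ 2 * (1 + |z.re|) ^ 4 ≤ 4 * C ^ 2 * (1 + H) ^ 4 * Real.exp (2 * δ * |z.im|) := by
  obtain ⟨E, hE⟩ : ∃ E, E = Real.exp (δ * |z.im|) := ⟨_, rfl⟩
  have hE1 : 1 ≤ E := by
    rw [hE]
    exact Real.one_le_exp (mul_nonneg hδ.le (abs_nonneg _))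
  have hE2 : Real.exp (2 * δ * |z.im|) = E ^ 2 := by
    rw [hE, ← Real.exp_nat_mul]
    congr 1
    push_cast
    ring
  have hr0 := abs_nonneg z.re
  have key : ‖om w z‖ * (1 + |z.re|) ^ 2 ≤ 2 * C * (1 + H) ^ 2 * E := by
    rcases le_total |z.re| H with h | h
    · have h1 := hw.near z h
      rw [← hE] at h1
      have h2 : (1 : ℝ) ≤ (1 + (H - |z.re|)) ^ K := one_le_pow₀ (by linarith)
      have h3 : C * E / (1 + (H - |z.re|)) ^ K ≤ C * E := div_le_self (by positivity) h2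
      have h4 : ‖om w z‖ ≤ ‖om w z - 1‖ + 1 := by
        have := norm_add_le (om w z - 1) 1
        simpa using this
      have h5 : 1 ≤ C * E := one_le_mul_of_one_le_of_one_le hC hE1
      have h6 : ‖om w z‖ ≤ 2 * (C * E) := by linarith
      have h7 : (1 + |z.re|) ^ 2 ≤ (1 + H) ^ 2 := pow_le_pow_left₀ (by linarith) (by linarith) 2
      calc ‖om w z‖ * (1 + |z.re|) ^ 2 ≤ 2 * (C * E) * (1 + H) ^ 2 :=
            mul_le_mul h6 h7 (by positivity) (by positivity)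
        _ = _ := by ring
    · have h1 := hw.far z h
      rw [← hE] at h1
      have ha : (1 : ℝ) ≤ 1 + (|z.re| - H) := by linarith
      have h2 : (1 + (|z.re| - H)) ^ 2 ≤ (1 + (|z.re| - H)) ^ K := pow_le_pow_right₀ ha hK
      have h3 : ‖om w z‖ * (1 + (|z.re| - H)) ^ 2 ≤ C * E := by
        rw [le_div_iff₀ (by positivity)] at h1
        exact (mul_le_mul_of_nonneg_left h2 (norm_nonneg _)).trans h1
      have h4 : 1 + |z.re| ≤ (1 + H) * (1 + (|z.re| - H)) := by nlinarith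
      have h5 : (1 + |z.re|) ^ 2 ≤ ((1 + H) * (1 + (|z.re| - H))) ^ 2 :=
        pow_le_pow_left₀ (by linarith) h4 2
      calc ‖om w z‖ * (1 + |z.re|) ^ 2 ≤ ‖om w z‖ * ((1 + H) * (1 + (|z.re| - H))) ^ 2 :=
            mul_le_mul_of_nonneg_left h5 (norm_nonneg _)
        _ = (1 + H) ^ 2 * (‖om w z‖ * (1 + (|z.re| - H)) ^ 2) := by ring
        _ ≤ (1 + H) ^ 2 * (C * E) := mul_le_mul_of_nonneg_left h3 (by positivity)
        _ ≤ 2 * ((1 + H) ^ 2 * (C * E)) := by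
            have : 0 ≤ (1 + H) ^ 2 * (C * E) := by positivity
            linarith
        _ = _ := by ring
  rw [hE2]
  calc ‖om w z‖ ^ 2 * (1 + |z.re|) ^ 4 = (‖om w z‖ * (1 + |z.re|) ^ 2) ^ 2 := by ring
    _ ≤ (2 * C * (1 + H) ^ 2 * E) ^ 2 := pow_le_pow_left₀ (by positivity) key 2
    _ = _ := by ring

lemma gs_bd {δ H C : ℝ} {K : ℕ} {w : ℝ → ℝ} (hδ : 0 < δ) (hH : 1 ≤ H) (hC : 1 ≤ C) (hK : 2 ≤ K) (hw : OmW δ H C K w)
    {L : ℝ} (hL : 1 ≤ L) (v : ℂ) (hv : |v.im| ≤ L / 2) :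
    ‖om w v ^ 2 * (cexp (-(v ^ 2 / (2 * L ^ 2))) - 1)‖ ≤
      6 * C ^ 2 * (1 + H) ^ 4 * (1 + 1 / δ ^ 2) / L ^ 2 * (Real.exp (4 * δ * |v.im|) / (1 + |v.re|) ^ 2) := by
  have hL0 : 0 < L := by linarith
  have h0 : v ^ 2 / (2 * (L : ℂ) ^ 2) = ((1 / (2 * L ^ 2) : ℝ) : ℂ) * v ^ 2 := by
    push_cast
    ring
  have h1 : ‖v ^ 2 / (2 * (L : ℂ) ^ 2)‖ = ‖v‖ ^ 2 / (2 * L ^ 2) := by
    rw [h0, norm_mul, Complex.norm_real, Real.norm_eq_abs, abs_of_pos (by positivity), norm_pow]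
    ring
  have h2 : -(1 / 8) ≤ (v ^ 2 / (2 * (L : ℂ) ^ 2)).re := by
    rw [h0, Complex.re_ofReal_mul]
    have h3 : (v ^ 2).re = v.re ^ 2 - v.im ^ 2 := by
      rw [sq, Complex.mul_re]
      ring
    have h4 : v.im ^ 2 ≤ (L / 2) ^ 2 := by
      rw [← sq_abs v.im]
      exact pow_le_pow_left₀ (abs_nonneg _) hv 2
    have h5 : -(L ^ 2 / 4) ≤ (v ^ 2).re := by
      rw [h3]
      nlinarith [sq_nonneg v.re]
    calc -(1 / 8) = 1 / (2 * L ^ 2) * (-(L ^ 2 / 4)) := by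
          field_simp
          norm_num
      _ ≤ _ := mul_le_mul_of_nonneg_left h5 (by positivity)
  have h3 := exp_sub_one_le h2
  rw [h1] at h3
  have h4 := om_bd hδ hH hC hK hw v
  have h5 : ‖v‖ ^ 2 ≤ (1 + |v.re|) ^ 2 * (1 + v.im ^ 2) := by
    rw [Complex.sq_norm, Complex.normSq_apply]
    have e1 : v.re * v.re ≤ (1 + |v.re|) ^ 2 := by
      rw [← sq, ← sq_abs]
      exact pow_le_pow_left₀ (abs_nonneg _) (by linarith) 2
    have e2 : 1 ≤ (1 + |v.re|) ^ 2 := one_le_pow₀ (by linarith [abs_nonneg v.re])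
    nlinarith [sq_nonneg v.im, mul_nonneg (sub_nonneg.2 e2) (sq_nonneg v.im)]
  obtain ⟨F, hF⟩ : ∃ F, F = Real.exp (2 * δ * |v.im|) := ⟨_, rfl⟩
  have hF2 : Real.exp (4 * δ * |v.im|) = F ^ 2 := by
    rw [hF, ← Real.exp_nat_mul]
    congr 1
    push_cast
    ring
  have hF0 : 0 < F := by
    rw [hF]
    exact Real.exp_pos _
  have h6 : 1 + v.im ^ 2 ≤ (1 + 1 / δ ^ 2) * F := by
    have e1 := Real.quadratic_le_exp_of_nonneg (x := 2 * δ * |v.im|) (by positivity)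
    rw [← hF] at e1
    have e2 : (2 * δ * |v.im|) ^ 2 / 2 = 2 * δ ^ 2 * v.im ^ 2 := by
      rw [mul_pow, mul_pow, sq_abs]
      ring
    rw [e2] at e1
    have e3 : 0 ≤ 2 * δ * |v.im| := by positivity
    have e4 : 1 + 2 * δ ^ 2 * v.im ^ 2 ≤ F := by linarith
    calc 1 + v.im ^ 2 ≤ (1 + 1 / δ ^ 2) * (1 + 2 * δ ^ 2 * v.im ^ 2) := by
          have e5 : 1 / δ ^ 2 * δ ^ 2 = 1 := by field_simp
          have e6 : 0 ≤ 1 / δ ^ 2 := by positivity
          have e7 : 0 ≤ δ ^ 2 * v.im ^ 2 := by positivity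
          have e8 : 1 / δ ^ 2 * (2 * δ ^ 2 * v.im ^ 2) = 2 * v.im ^ 2 := by
            calc 1 / δ ^ 2 * (2 * δ ^ 2 * v.im ^ 2) = 2 * (1 / δ ^ 2 * δ ^ 2) * v.im ^ 2 := by ring
              _ = _ := by rw [e5]; ring
          nlinarith [sq_nonneg v.im]
      _ ≤ _ := mul_le_mul_of_nonneg_left e4 (by positivity)
  rw [norm_mul, norm_pow, hF2]
  have hA : 0 < (1 + |v.re|) := by linarith [abs_nonneg v.re]
  calc ‖om w v‖ ^ 2 * ‖cexp (-(v ^ 2 / (2 * L ^ 2))) - 1‖ ≤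
        ‖om w v‖ ^ 2 * (3 * (((1 + |v.re|) ^ 2 * (1 + v.im ^ 2)) / (2 * L ^ 2))) := by
          refine mul_le_mul_of_nonneg_left (h3.trans ?_) (sq_nonneg _)
          exact mul_le_mul_of_nonneg_left (div_le_div_of_nonneg_right h5 (by positivity)) (by norm_num)
    _ = 3 / (2 * L ^ 2) * ((‖om w v‖ ^ 2 * (1 + |v.re|) ^ 4) * (1 + v.im ^ 2)) / (1 + |v.re|) ^ 2 := by
          field_simp
    _ ≤ 3 / (2 * L ^ 2) * ((4 * C ^ 2 * (1 + H) ^ 4 * F) * ((1 + 1 / δ ^ 2) * F)) / (1 + |v.re|) ^ 2 := by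
          refine div_le_div_of_nonneg_right ?_ (by positivity)
          refine mul_le_mul_of_nonneg_left ?_ (by positivity)
          rw [← hF] at h4
          exact mul_le_mul h4 h6 (by positivity) (by positivity)
    _ = _ := by
          field_simp
          ring

/-- the variable of the smoothing kernel -/
def vr (L t : ℝ) (r : ℂ) (s : ℝ) : ℂ := ((L * (r.im - t) - s : ℝ) : ℂ) + ((-(L * (r.re - 1 / 2)) : ℝ) : ℂ) * I

lemma vr_eq {L : ℝ} (hL : L ≠ 0) (t : ℝ) (r : ℂ) (s : ℝ) :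
    (L : ℂ) * (H370.zz r - ((t + s / L : ℝ) : ℂ)) = vr L t r s := by
  unfold vr
  apply Complex.ext
  · rw [Complex.re_ofReal_mul, Complex.sub_re, H370.zz_re, Complex.ofReal_re, Complex.add_re,
      Complex.ofReal_re, Complex.re_ofReal_mul, Complex.I_re]
    field_simp
    ring
  · rw [Complex.im_ofReal_mul, Complex.sub_im, H370.zz_im, Complex.ofReal_im, Complex.add_im,
      Complex.ofReal_im, Complex.im_ofReal_mul, Complex.I_im]
    ring

lemma vr_re (L t : ℝ) (r : ℂ) (s : ℝ) : (vr L t r s).re = L * (r.im - t) - s := by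
  unfold vr
  rw [Complex.add_re, Complex.ofReal_re, Complex.re_ofReal_mul, Complex.I_re, mul_zero, add_zero]

lemma vr_im (L t : ℝ) (r : ℂ) (s : ℝ) : (vr L t r s).im = -(L * (r.re - 1 / 2)) := by
  unfold vr
  rw [Complex.add_im, Complex.ofReal_im, Complex.im_ofReal_mul, Complex.I_im, mul_one, zero_add]

lemma vr_cont (L t : ℝ) (r : ℂ) : Continuous (vr L t r) := by
  unfold vr
  fun_prop

/-- the terms of `Zt` -/
lemma Zt_term {T : ℝ} (hL : Real.log T ≠ 0) (w : ℝ → ℝ) (t s : ℝ) :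
    Zt w T 0 (t + s / Real.log T) = ∑ r ∈ ZT T, (mz r : ℂ) *
      (om w (vr (Real.log T) t r s) ^ 2 * cexp (-(vr (Real.log T) t r s ^ 2 / (2 * (Real.log T : ℂ) ^ 2)))) := by
  unfold Zt
  refine Finset.sum_congr rfl fun r _ => ?_
  have h1 := vr_eq hL t r s
  have hLc : (Real.log T : ℂ) ≠ 0 := Complex.ofReal_ne_zero.2 hL
  have h2 : -(H370.zz r - ((t + s / Real.log T : ℝ) : ℂ)) ^ 2 / 2 =
      -(vr (Real.log T) t r s ^ 2 / (2 * (Real.log T : ℂ) ^ 2)) := by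
    rw [← h1]
    field_simp
  rw [h2, h1, Complex.ofReal_zero, mul_zero, zero_mul, Complex.exp_zero, one_mul]

theorem t_CNT : S_KER → S_CNT := by
  intro hKER δ H C K w hδ hδ1 hH hC hK hw
  obtain ⟨C₁, hC₁, hker⟩ := hKER δ H C K w hδ (by linarith) hH hC hK hw
  obtain ⟨C₃, hC₃⟩ : ∃ C₃, C₃ = 6 * C ^ 2 * (1 + H) ^ 4 * (1 + 1 / δ ^ 2) := ⟨_, rfl⟩
  have hC₃0 : 0 ≤ C₃ := by rw [hC₃]; positivity
  have hom := hw.om_cont hδ
  refine ⟨C₁ + C₃, by positivity, fun lam hlam => ?_⟩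
  filter_upwards [eventually_ge_atTop (16 : ℝ)] with T hT t ht1 ht2
  obtain ⟨L, hLd⟩ : ∃ L, L = Real.log T := ⟨_, rfl⟩
  have hL1 : 1 ≤ L := by
    rw [hLd, Real.le_log_iff_exp_le (by linarith)]
    have := Real.exp_one_lt_d9
    linarith
  have hL0 : 0 < L := by linarith
  obtain ⟨a, ha⟩ : ∃ a, a = 2 * Real.pi * lam := ⟨_, rfl⟩
  have ha0 : 0 ≤ a := by rw [ha]; have := Real.pi_pos; positivity
  have hsh : L * sh lam T = a := by
    unfold sh
    rw [ha, ← hLd]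
    field_simp
  rw [← hLd, ← ha]
  obtain ⟨E, hE⟩ : ∃ E : ℂ → ℝ, ∀ r, E r = Real.exp (2 * (2 * δ) * (L * |r.re - 1 / 2|)) := ⟨_, fun _ => rfl⟩
  have hE0 : ∀ r, 0 < E r := fun r => by rw [hE]; exact Real.exp_pos _
  -- the local sums
  have hSS : ∀ t' : ℝ, SS (2 * δ) T t' = ∑ r ∈ ZD T, (mz r : ℝ) * (E r / (1 + L * |r.im - t'|) ^ 2) := by
    intro t'
    unfold SS
    rw [← hLd]
    exact Finset.sum_congr rfl fun r _ => by rw [hE]
  have hSScont : Continuous (fun s : ℝ => SS (2 * δ) T (t + s / L)) := by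
    simp only [hSS]
    refine continuous_finsetSum _ fun r _ => continuous_const.mul (continuous_const.div ?_ fun s => ?_)
    · fun_prop
    · have : 0 < 1 + L * |r.im - (t + s / L)| := by positivity
      positivity
  -- the terms
  obtain ⟨G, hG⟩ : ∃ G : ℂ → ℝ → ℂ, ∀ r s, G r s = om w (vr L t r s) ^ 2 := ⟨_, fun _ _ => rfl⟩
  obtain ⟨R, hR⟩ : ∃ R : ℂ → ℝ → ℂ, ∀ r s, R r s = om w (vr L t r s) ^ 2 *
    (cexp (-(vr L t r s ^ 2 / (2 * (L : ℂ) ^ 2))) - 1) := ⟨_, fun _ _ => rfl⟩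
  have hGc : ∀ r, Continuous (G r) := by
    intro r
    have : G r = fun s => om w (vr L t r s) ^ 2 := funext (hG r)
    rw [this]
    exact (hom.comp (vr_cont L t r)).pow 2
  have hRc : ∀ r, Continuous (R r) := by
    intro r
    have : R r = fun s => om w (vr L t r s) ^ 2 *
      (cexp (-(vr L t r s ^ 2 / (2 * (L : ℂ) ^ 2))) - 1) := funext (hR r)
    rw [this]
    have h1 := vr_cont L t r
    exact ((hom.comp h1).pow 2).mul (by fun_prop)
  have hZ : ∀ s : ℝ, Zt w T 0 (t + s / L) = ∑ r ∈ ZT T, (mz r : ℂ) * (G r s + R r s) := by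
    intro s
    rw [hLd, Zt_term (by rw [← hLd]; exact hL0.ne'), ← hLd]
    refine Finset.sum_congr rfl fun r _ => ?_
    rw [hG, hR]
    ring
  have hint : ∫ s in (0 : ℝ)..a, Zt w T 0 (t + s / L) =
      ∑ r ∈ ZT T, (mz r : ℂ) * ((∫ s in (0 : ℝ)..a, G r s) + ∫ s in (0 : ℝ)..a, R r s) := by
    have hi : ∀ r ∈ ZT T, IntervalIntegrable (fun s : ℝ => (mz r : ℂ) * (G r s + R r s))
        MeasureTheory.volume 0 a := by
      intro r _
      have h1 := hGc r
      have h2 := hRc r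
      exact Continuous.intervalIntegrable (by fun_prop) _ _
    simp only [hZ]
    rw [intervalIntegral.integral_finsetSum hi]
    refine Finset.sum_congr rfl fun r _ => ?_
    rw [intervalIntegral.integral_const_mul, intervalIntegral.integral_add
      ((hGc r).intervalIntegrable _ _) ((hRc r).intervalIntegrable _ _)]
  -- the main terms
  obtain ⟨M, hM⟩ : ∃ M : ℂ → ℂ, ∀ r, M r = if 0 < L * (r.im - t) ∧ L * (r.im - t) ≤ a then
    ((2 * Real.pi * qh w 0 : ℝ) : ℂ) else 0 := ⟨_, fun _ => rfl⟩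
  have hY : ((2 * Real.pi * qh w 0 * Yt (wd a) T t : ℝ) : ℂ) = ∑ r ∈ ZT T, (mz r : ℂ) * M r := by
    unfold Yt
    rw [Finset.mul_sum, Complex.ofReal_sum]
    refine Finset.sum_congr rfl fun r _ => ?_
    rw [hM, ← hLd]
    unfold wd
    by_cases h : 0 < L * (r.im - t) ∧ L * (r.im - t) ≤ a
    · rw [if_pos h, Set.indicator_of_mem (Set.mem_Ioc.2 h)]
      push_cast
      ring
    · rw [if_neg h, Set.indicator_of_notMem (fun h' => h (Set.mem_Ioc.1 h'))]
      simp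
  -- the bounds for one zero
  have hre : ∀ r ∈ ZT T, |r.re - 1 / 2| ≤ 1 / 2 := by
    intro r hr
    unfold ZT at hr
    rw [H370.mem_Zf H370.good_zeta (by linarith : (1 : ℝ) ≤ T + 1)] at hr
    obtain ⟨h1, h2, -⟩ := hr
    rw [abs_le]
    constructor <;> linarith
  have hyabs : ∀ r : ℂ, |(-(L * (r.re - 1 / 2)))| = L * |r.re - 1 / 2| := by
    intro r
    rw [abs_neg, abs_mul, abs_of_pos hL0]
  have hEr : ∀ r : ℂ, Real.exp (4 * δ * |(-(L * (r.re - 1 / 2)))|) = E r := by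
    intro r
    rw [hE, hyabs]
    congr 1
    ring
  have hxabs : ∀ (r : ℂ) (t' : ℝ), |L * (r.im - t')| = L * |r.im - t'| := by
    intro r t'
    rw [abs_mul, abs_of_pos hL0]
  have hb1 : ∀ r : ℂ, ‖(∫ s in (0 : ℝ)..a, G r s) - M r‖ ≤
      C₁ * (E r / (1 + L * |r.im - t|) ^ 2 + E r / (1 + L * |r.im - (t + sh lam T)|) ^ 2) := by
    intro r
    have h1 := hker a ha0 (L * (r.im - t)) (-(L * (r.re - 1 / 2)))
    have h2 : ∫ s in (0 : ℝ)..a, G r s = ∫ s in (0 : ℝ)..a,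
        om w (((L * (r.im - t) - s : ℝ) : ℂ) + ((-(L * (r.re - 1 / 2)) : ℝ) : ℂ) * I) ^ 2 := by
      simp only [hG]
      rfl
    rw [hEr, hxabs] at h1
    have h3 : |L * (r.im - t) - a| = L * |r.im - (t + sh lam T)| := by
      rw [← hxabs]
      congr 1
      rw [← hsh]
      ring
    rw [h3] at h1
    rw [h2, hM]
    refine h1.trans (le_of_eq ?_)
    ring
  have hb2 : ∀ r ∈ ZT T, ‖∫ s in (0 : ℝ)..a, R r s‖ ≤
      C₃ / L ^ 2 * ∫ s in (0 : ℝ)..a, E r / (1 + L * |r.im - (t + s / L)|) ^ 2 := by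
    intro r hr
    rw [← intervalIntegral.integral_const_mul]
    refine intervalIntegral.norm_integral_le_of_norm_le ha0 ?_ ?_
    · refine Eventually.of_forall fun s _ => ?_
      have h1 := gs_bd hδ hH hC hK hw hL1 (vr L t r s) (by
        rw [vr_im, hyabs]
        have := mul_le_mul_of_nonneg_left (hre r hr) hL0.le
        linarith)
      rw [← hR, ← hC₃, vr_im, hEr, vr_re] at h1
      have h2 : |L * (r.im - t) - s| = L * |r.im - (t + s / L)| := by
        rw [← hxabs]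
        congr 1
        field_simp
        ring
      rw [h2] at h1
      exact h1
    · refine Continuous.intervalIntegrable ?_ _ _
      refine continuous_const.mul (continuous_const.div ?_ fun s => ?_)
      · fun_prop
      · have : 0 < 1 + L * |r.im - (t + s / L)| := by positivity
        positivity
  -- the sum
  have hmain : ‖((2 * Real.pi * qh w 0 * Yt (wd a) T t : ℝ) : ℂ) - ∫ s in (0 : ℝ)..a, Zt w T 0 (t + s / L)‖ ≤
      C₁ * (SS (2 * δ) T t + SS (2 * δ) T (t + sh lam T)) +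
        C₃ / L ^ 2 * ∫ s in (0 : ℝ)..a, SS (2 * δ) T (t + s / L) := by
    rw [hY, hint, ← Finset.sum_sub_distrib]
    have hcI : ∀ r : ℂ, IntervalIntegrable (fun s : ℝ => E r / (1 + L * |r.im - (t + s / L)|) ^ 2) volume 0 a := by
      intro r
      refine Continuous.intervalIntegrable (continuous_const.div ?_ fun s => ?_) _ _
      · fun_prop
      · have : 0 < 1 + L * |r.im - (t + s / L)| := by positivity
        positivity
    have hSI : ∫ s in (0 : ℝ)..a, SS (2 * δ) T (t + s / L) =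
        ∑ r ∈ ZD T, (mz r : ℝ) * ∫ s in (0 : ℝ)..a, E r / (1 + L * |r.im - (t + s / L)|) ^ 2 := by
      simp only [hSS]
      rw [intervalIntegral.integral_finsetSum fun r _ => (hcI r).const_mul _]
      exact Finset.sum_congr rfl fun r _ => intervalIntegral.integral_const_mul _ _
    have hI0 : ∀ r : ℂ, 0 ≤ ∫ s in (0 : ℝ)..a, E r / (1 + L * |r.im - (t + s / L)|) ^ 2 := fun r =>
      intervalIntegral.integral_nonneg ha0 fun s _ => div_nonneg (hE0 r).le (sq_nonneg _)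
    have h1 : ∀ r ∈ ZT T, ‖(mz r : ℂ) * M r - (mz r : ℂ) * ((∫ s in (0 : ℝ)..a, G r s) + ∫ s in (0 : ℝ)..a, R r s)‖ ≤
        (mz r : ℝ) * (C₁ * (E r / (1 + L * |r.im - t|) ^ 2 + E r / (1 + L * |r.im - (t + sh lam T)|) ^ 2) +
          C₃ / L ^ 2 * ∫ s in (0 : ℝ)..a, E r / (1 + L * |r.im - (t + s / L)|) ^ 2) := by
      intro r hr
      have e1 : (mz r : ℂ) * M r - (mz r : ℂ) * ((∫ s in (0 : ℝ)..a, G r s) + ∫ s in (0 : ℝ)..a, R r s) =
          -((mz r : ℂ) * (((∫ s in (0 : ℝ)..a, G r s) - M r) + ∫ s in (0 : ℝ)..a, R r s)) := by ring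
      rw [e1, norm_neg, norm_mul, Complex.norm_natCast]
      exact mul_le_mul_of_nonneg_left ((norm_add_le _ _).trans (add_le_add (hb1 r) (hb2 r hr))) (Nat.cast_nonneg _)
    refine (norm_sum_le _ _).trans ((Finset.sum_le_sum h1).trans ?_)
    refine (Finset.sum_le_sum_of_subset_of_nonneg (fun r hr => ZT_ZD hT hr) fun r _ _ => ?_).trans (le_of_eq ?_)
    · have := hI0 r
      have := (hE0 r).le
      positivity
    · rw [hSS t, hSS (t + sh lam T), hSI, ← Finset.sum_add_distrib, Finset.mul_sum, Finset.mul_sum,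
        ← Finset.sum_add_distrib]
      exact Finset.sum_congr rfl fun r _ => by ring
  have hSI0 : 0 ≤ ∫ s in (0 : ℝ)..a, SS (2 * δ) T (t + s / L) := by
    refine intervalIntegral.integral_nonneg ha0 fun s _ => ?_
    rw [hSS]
    exact Finset.sum_nonneg fun r _ => mul_nonneg (Nat.cast_nonneg _) (div_nonneg (hE0 r).le (sq_nonneg _))
  have hSS0 : ∀ t' : ℝ, 0 ≤ SS (2 * δ) T t' := by
    intro t'
    rw [hSS]
    exact Finset.sum_nonneg fun r _ => mul_nonneg (Nat.cast_nonneg _) (div_nonneg (hE0 r).le (sq_nonneg _))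
  have hre2 : |2 * Real.pi * qh w 0 * Yt (wd a) T t - (∫ s in (0 : ℝ)..a, Zt w T 0 (t + s / L)).re| ≤
      ‖((2 * Real.pi * qh w 0 * Yt (wd a) T t : ℝ) : ℂ) - ∫ s in (0 : ℝ)..a, Zt w T 0 (t + s / L)‖ := by
    have := Complex.abs_re_le_norm (((2 * Real.pi * qh w 0 * Yt (wd a) T t : ℝ) : ℂ) -
      ∫ s in (0 : ℝ)..a, Zt w T 0 (t + s / L))
    rwa [Complex.sub_re, Complex.ofReal_re] at this
  refine hre2.trans (hmain.trans (add_le_add ?_ ?_))
  · exact mul_le_mul_of_nonneg_right (by linarith) (add_nonneg (hSS0 _) (hSS0 _))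
  · refine mul_le_mul_of_nonneg_right ?_ hSI0
    rw [div_le_div_iff₀ (by positivity) hL0]
    have e1 : L ≤ L ^ 2 := by nlinarith
    have e2 : C₃ * L ≤ (C₁ + C₃) * L := mul_le_mul_of_nonneg_right (by linarith) hL0.le
    have e3 : (C₁ + C₃) * L ≤ (C₁ + C₃) * L ^ 2 := mul_le_mul_of_nonneg_left e1 (by positivity)
    linarith

end

end Pool.Agent.H4.MZ
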