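import Pool.Agent.H4.MZ.Stm
import Pool.Graph.R_pool_sql_team_seeded_3997aac3.Q149.UM.EUL

set_option autoImplicit false

/-!
Project MZ (helper4), module EU: the Euler product and the Dirichlet polynomial `∑ Λ(n)/log n n^{-s}` (helper11).
-/

namespace Pool.Agent.H4.MZ

open Complex
open Pool.Agent.Q97.UM
open Pool.Agent.Q149.UM (zp norm_zp norm_zp_sq norm_zp_le Z3 Z3_nonneg sum_le_Z3 PD mem_PD EP_approx PP_split)

noncomputable section

/-- the smoothed sum with the constant weight -/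
theorem PP_one (D t : ℝ) (hD : 0 ≤ D) : PP (fun _ => 1) D t = (dp ⌊Real.exp D⌋₊ lamL t).re := by
  unfold PP dp lamL
  congr 1
  have h1 : 1 ≤ ⌊Real.exp D⌋₊ := by
    rw [Nat.one_le_floor_iff]
    exact Real.one_le_exp hD
  have e1 : Finset.Icc 1 ⌊Real.exp D⌋₊ = insert 1 (Finset.Icc 2 ⌊Real.exp D⌋₊) := by
    ext k
    simp only [Finset.mem_Icc, Finset.mem_insert]
    omega
  rw [e1, Finset.sum_insert (by simp)]
  simp

theorem eu_large : ∃ C : ℝ, 0 ≤ C ∧ ∀ D t : ℝ, 2 ≤ D →
    |EP ⌊Real.exp D⌋₊ t - (dp ⌊Real.exp D⌋₊ lamL t).re| ≤ C := by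
  obtain ⟨B, hB1, hB⟩ := Pool.Agent.Q178.UM.PR.sum_upto
  refine ⟨4 / 3 * Z3 + 4 * Z3 + B, by have := Z3_nonneg; positivity, ?_⟩
  intro D t hD
  have hDpos : 0 < D := by linarith
  have h1 := EP_approx D t
  have h2 := PP_split (fun _ => 1) D t hD (by simp)
  rw [PP_one D t hDpos.le] at h2
  simp only [one_mul] at h2
  have hmert : ∑ p ∈ PD D, Real.log p / p ≤ B * D := by
    have := hB 1 D (PD D) one_pos hDpos (fun p hp => (mem_PD.1 hp).1)
    have e : (PD D).filter (fun p : ℕ => 1 * Real.log p ≤ D) = PD D := by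
      rw [Finset.filter_eq_self]
      intro p hp
      rw [one_mul]
      exact (mem_PD.1 hp).2
    rw [e] at this
    simpa only [one_mul] using this
  have hsub : PD (D / 2) ⊆ PD D := by
    intro p hp
    rw [mem_PD] at hp ⊢
    exact ⟨hp.1, by linarith [hp.2]⟩
  have hre : ∀ p ∈ PD D, |(zp p t ^ 2).re| ≤ 1 / p := by
    intro p hp
    have e1 := Complex.abs_re_le_norm (zp p t ^ 2)
    rw [norm_pow, norm_zp_sq p t (mem_PD.1 hp).1.pos] at e1
    exact e1
  have hlog0 : ∀ p ∈ PD D, 0 ≤ Real.log p / p := fun p _ =>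
    div_nonneg (Real.log_natCast_nonneg p) (Nat.cast_nonneg p)
  have h4 : |∑ p ∈ PD D \ PD (D / 2), (zp p t ^ 2).re / 2| ≤ B := by
    have e1 : ∀ p ∈ PD D \ PD (D / 2), |(zp p t ^ 2).re / 2| ≤ 1 / D * (Real.log p / p) := by
      intro p hp
      rw [Finset.mem_sdiff] at hp
      have q1 := hre p hp.1
      have q2 : D / 2 < Real.log p := by
        by_contra hle
        exact hp.2 (mem_PD.2 ⟨(mem_PD.1 hp.1).1, not_lt.1 hle⟩)
      rw [abs_div, abs_of_pos (by norm_num : (0 : ℝ) < 2)]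
      have q3 : (1 : ℝ) / 2 ≤ Real.log p / D := by
        rw [div_le_div_iff₀ (by norm_num) hDpos]
        linarith
      have hp0 : (0 : ℝ) < p := by exact_mod_cast (mem_PD.1 hp.1).1.pos
      calc |(zp p t ^ 2).re| / 2 ≤ (1 / p) / 2 := by linarith
        _ = (1 / 2) * (1 / p) := by ring
        _ ≤ (Real.log p / D) * (1 / p) := mul_le_mul_of_nonneg_right q3 (by positivity)
        _ = 1 / D * (Real.log p / p) := by ring
    refine (Finset.abs_sum_le_sum_abs _ _).trans ((Finset.sum_le_sum e1).trans ?_)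
    rw [← Finset.mul_sum]
    have e2 : ∑ p ∈ PD D \ PD (D / 2), Real.log p / p ≤ B * D :=
      (Finset.sum_le_sum_of_subset_of_nonneg Finset.sdiff_subset
        (fun p hp _ => hlog0 p hp)).trans hmert
    calc 1 / D * ∑ p ∈ PD D \ PD (D / 2), Real.log p / p ≤ 1 / D * (B * D) :=
          mul_le_mul_of_nonneg_left e2 (by positivity)
      _ = B := by field_simp
  have hs1 : ∑ p ∈ PD D, ((zp p t).re + (zp p t ^ 2).re / 2) =
      ∑ p ∈ PD D, (zp p t).re +
        (∑ p ∈ PD D \ PD (D / 2), (zp p t ^ 2).re / 2 +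
          ∑ p ∈ PD (D / 2), (zp p t ^ 2).re / 2) := by
    rw [Finset.sum_sdiff hsub, Finset.sum_add_distrib]
  rw [hs1] at h1
  rw [abs_le] at h1 h2 h4 ⊢
  constructor <;> linarith [h1.1, h1.2, h2.1, h2.2, h4.1, h4.2]

theorem norm_nz (n : ℕ) (t : ℝ) (hn : 1 ≤ n) : ‖(n : ℂ) ^ (-(1 / 2 + t * I))‖ ≤ 1 := by
  have h := norm_zp n t hn
  unfold zp at h
  rw [h]
  exact Real.rpow_le_one_of_one_le_of_nonpos (by exact_mod_cast hn) (by norm_num)

theorem norm_lamL (n : ℕ) : ‖lamL n‖ ≤ 1 := by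
  unfold lamL
  rw [Complex.norm_real, Real.norm_eq_abs, abs_of_nonneg (div_nonneg ArithmeticFunction.vonMangoldt_nonneg
    (Real.log_natCast_nonneg n))]
  exact div_le_one_of_le₀ ArithmeticFunction.vonMangoldt_le_log (Real.log_natCast_nonneg n)

theorem dp_small (X : ℕ) (t : ℝ) : |(dp X lamL t).re| ≤ X := by
  refine (Complex.abs_re_le_norm _).trans ?_
  unfold dp
  refine (norm_sum_le _ _).trans ?_
  have : ∀ n ∈ Finset.Icc 1 X, ‖lamL n * (n : ℂ) ^ (-(1 / 2 + t * I))‖ ≤ 1 := by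
    intro n hn
    rw [norm_mul]
    exact mul_le_one₀ (norm_lamL n) (norm_nonneg _) (norm_nz n t (Finset.mem_Icc.1 hn).1)
  refine (Finset.sum_le_sum this).trans ?_
  simp

theorem EP_small (X : ℕ) (t : ℝ) : |EP X t| ≤ X * Real.log 4 := by
  unfold EP
  rw [abs_neg]
  refine (Finset.abs_sum_le_sum_abs _ _).trans ?_
  have : ∀ p ∈ (Finset.Icc 1 X).filter Nat.Prime,
      |Real.log ‖1 - (p : ℂ) ^ (-(1 / 2 + t * I))‖| ≤ Real.log 4 := by
    intro p hp
    have hp' := (Finset.mem_filter.1 hp).2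
    have h1 := norm_zp_le p t hp'.two_le
    unfold zp at h1
    set z := (p : ℂ) ^ (-(1 / 2 + t * I)) with hz
    have h2 : 1 / 4 ≤ ‖1 - z‖ := by
      have := norm_sub_norm_le (1 : ℂ) z
      rw [norm_one] at this
      linarith
    have h3 : ‖1 - z‖ ≤ 4 := by
      have := norm_sub_le (1 : ℂ) z
      rw [norm_one] at this
      linarith
    rw [abs_le]
    constructor
    · rw [← Real.log_inv]
      exact Real.log_le_log (by norm_num) (by linarith)
    · exact Real.log_le_log (by linarith) h3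
  refine (Finset.sum_le_sum this).trans ?_
  rw [Finset.sum_const, nsmul_eq_mul]
  refine mul_le_mul_of_nonneg_right ?_ (Real.log_nonneg (by norm_num))
  have : ((Finset.Icc 1 X).filter Nat.Prime).card ≤ X :=
    (Finset.card_filter_le _ _).trans (by simp)
  exact_mod_cast this

theorem eu : S_EU := by
  obtain ⟨C, hC0, hC⟩ := eu_large
  refine ⟨C + (7 * Real.log 4 + 7), by have := Real.log_nonneg (show (1 : ℝ) ≤ 4 by norm_num); positivity, ?_⟩
  intro X t
  have hl : 0 ≤ Real.log 4 := Real.log_nonneg (by norm_num)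
  rcases le_or_gt X 7 with hX | hX
  · have h1 := EP_small X t
    have h2 := dp_small X t
    have h3 : (X : ℝ) ≤ 7 := by exact_mod_cast hX
    have h4 : (X : ℝ) * Real.log 4 ≤ 7 * Real.log 4 := mul_le_mul_of_nonneg_right h3 hl
    rw [abs_le] at h1 h2 ⊢
    constructor <;> linarith [h1.1, h1.2, h2.1, h2.2]
  · have hX' : (8 : ℝ) ≤ X := by exact_mod_cast hX
    have h0 : (0 : ℝ) < X := by linarith
    have hfl : ⌊Real.exp (Real.log X)⌋₊ = X := by
      rw [Real.exp_log h0, Nat.floor_natCast]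
    have hD : 2 ≤ Real.log X := by
      rw [Real.le_log_iff_exp_le h0]
      have h1 : Real.exp 1 < 2.7182818286 := Real.exp_one_lt_d9
      have h2 : Real.exp 2 = Real.exp 1 * Real.exp 1 := by
        rw [← Real.exp_add]; norm_num
      have h3 : 0 < Real.exp 1 := Real.exp_pos 1
      rw [h2]
      nlinarith
    have h1 := hC (Real.log X) t hD
    rw [hfl] at h1
    linarith

theorem t_EU : S_PSM → S_EU := fun _ => eu

end

end Pool.Agent.H4.MZ
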