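import Pool.Agent.H4.MZ.Stm
import Pool.Graph.R_pool_sql_team_seeded_3997aac3.Q97.UM.Base3

/-!
# Project MZ (helper4), module EXP (helper97): the explicit formula, integrated over the window
-/

set_option autoImplicit false

namespace Pool.Agent.H4.MZ

open Filter Topology MeasureTheory Complex
open scoped ComplexConjugate
open Pool.Agent.Q97.UM

/-- the tail of the prime sum -/
lemma ex_tail {w : ℝ → ℝ} {δ D L : ℝ} (hQ : Pool.Agent.Q150.UM.QB w δ D L) (hD : 1 ≤ D) (hδ : 0 < δ) (hL : 1 ≤ L)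
    (hX : 2 * δ * L ≤ L) (hDL : D * Real.exp 1 * Pool.Agent.Q150.UM.c1 ≤ L)
    (M : ℕ) (hM : Real.exp (2 * δ * L + 3 * Real.sqrt L) ≤ (M : ℝ) + 1) (t : ℝ) :
    ‖PL w L 0 t - dp M (Pool.Agent.Q150.UM.al' w L 0 M) t‖ ≤ 1 / L := by
  have hL0 : 0 < L := by linarith
  set q : ℕ → ℝ := fun n => QL w L (Real.log n - 0) / L with hq
  have hqc := Pool.Agent.Q150.UM.QL_coef hQ (by linarith) (by positivity) hL0 0
  have hq1 : ∀ n : ℕ, 1 ≤ n → |if n ≤ M then q n else 0| ≤ (D * Real.exp (0 + 2 * δ * L + 1 / 2) / L) / n := by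
    intro n hn
    split_ifs
    · exact hqc n hn
    · rw [abs_zero]
      positivity
  have hq2' : ∀ n : ℕ, 1 ≤ n → |if n ≤ M then 0 else q n| ≤ (D * Real.exp (0 + 2 * δ * L + 1 / 2) / L) / n := by
    intro n hn
    split_ifs
    · rw [abs_zero]
      positivity
    · exact hqc n hn
  have hsplit : PL w L 0 t = Pool.Agent.Q150.UM.Fq (fun n => if n ≤ M then q n else 0) t +
      Pool.Agent.Q150.UM.Fq (fun n => if n ≤ M then 0 else q n) t := by
    rw [Pool.Agent.Q150.UM.PL_eq]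
    unfold Pool.Agent.Q150.UM.Fq
    rw [← (Pool.Agent.Q150.UM.Fq_summable _ _ hq1 t).tsum_add (Pool.Agent.Q150.UM.Fq_summable _ _ hq2' t)]
    refine tsum_congr fun n => ?_
    by_cases h : n ≤ M
    · simp [h, hq]
    · simp [h, hq]
  have hdp : Pool.Agent.Q150.UM.Fq (fun n => if n ≤ M then q n else 0) t = dp M (Pool.Agent.Q150.UM.al' w L 0 M) t :=
    Pool.Agent.Q150.UM.Fq_trunc q M t
  rw [hsplit, hdp, add_sub_cancel_left]
  have hb : ∀ n : ℕ, 1 ≤ n → |if n ≤ M then 0 else q n| ≤ (D * Real.exp (1 - 5 * L / 4) / L) / n := by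
    intro n hn
    have hn' : (0 : ℝ) < n := by exact_mod_cast hn
    split_ifs with h
    · rw [abs_zero]
      positivity
    · push Not at h
      have h1 : Real.exp (2 * δ * L + 3 * Real.sqrt L) ≤ n := by
        have h3 : (M : ℝ) + 1 ≤ n := by exact_mod_cast h
        linarith
      have h2 : 2 * δ * L + 3 * Real.sqrt L ≤ Real.log n := (Real.le_log_iff_exp_le hn').2 h1
      set X := 2 * δ * L with hX'
      set s := Real.log n - X with hs
      have hsq : 0 ≤ Real.sqrt L := Real.sqrt_nonneg L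
      have hss : Real.sqrt L * Real.sqrt L = L := Real.mul_self_sqrt hL0.le
      have hs3 : 3 * Real.sqrt L ≤ s := by rw [hs]; linarith
      have hX0 : 0 ≤ X := by positivity
      have hs0 : 0 ≤ s := by linarith
      have habs : |Real.log n - 0| = Real.log n - 0 := abs_of_nonneg (by linarith)
      have h3 := hQ.tail (Real.log n - 0) (by rw [habs]; linarith)
      rw [habs] at h3
      have h4 : -(Real.log n - 0 - 2 * δ * L) ^ 2 / 2 ≤ 1 - 5 * L / 4 - Real.log n := by
        have h5 : Real.log n - 0 - 2 * δ * L = s := by rw [hs, hX']; ring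
        rw [h5]
        have h6 : 9 * L ≤ s ^ 2 := by nlinarith
        have h7 : s - 1 ≤ s ^ 2 / 4 := by nlinarith [sq_nonneg (s - 2)]
        have h8 : Real.log n = s + X := by rw [hs]; ring
        linarith
      have h5 : |QL w L (Real.log n - 0)| ≤ D * (Real.exp (1 - 5 * L / 4) / n) := by
        refine h3.trans (mul_le_mul_of_nonneg_left ((Real.exp_le_exp.2 h4).trans (le_of_eq ?_)) (by linarith))
        rw [Real.exp_sub, Real.exp_log hn']
      rw [hq]
      simp only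
      rw [abs_div, abs_of_pos hL0, div_div, div_le_div_iff₀ hL0 (mul_pos hL0 hn')]
      have h6 : D * (Real.exp (1 - 5 * L / 4) / n) * (L * n) = D * Real.exp (1 - 5 * L / 4) * L := by field_simp
      rw [← h6]
      exact mul_le_mul_of_nonneg_right h5 (by positivity)
  refine (Pool.Agent.Q150.UM.Fq_norm _ _ hb t).trans ?_
  have hc1 := Pool.Agent.Q150.UM.c1_nonneg
  rw [div_mul_eq_mul_div]
  refine div_le_div_of_nonneg_right ?_ hL0.le
  have h1 : Real.exp (1 - 5 * L / 4) = Real.exp 1 * Real.exp (-(5 * L / 4)) := by rw [← Real.exp_add]; rfl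
  rw [h1]
  have h2 : L ≤ Real.exp (5 * L / 4) := by
    have := Real.add_one_le_exp (5 * L / 4)
    linarith
  calc D * (Real.exp 1 * Real.exp (-(5 * L / 4))) * Pool.Agent.Q150.UM.c1
      = (D * Real.exp 1 * Pool.Agent.Q150.UM.c1) * Real.exp (-(5 * L / 4)) := by ring
    _ ≤ Real.exp (5 * L / 4) * Real.exp (-(5 * L / 4)) := mul_le_mul_of_nonneg_right (hDL.trans h2) (Real.exp_pos _).le
    _ = 1 := by rw [← Real.exp_add]; simp

/-- one term, integrated -/
lemma ex_term {w : ℝ → ℝ} {L a : ℝ} (hL : 0 < L) (hq : qh w 0 ≠ 0) (M n : ℕ) (hn1 : 1 ≤ n) (hn : n ≤ M) (t : ℝ) :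
    ∫ s in (0 : ℝ)..a, Pool.Agent.Q150.UM.al' w L 0 M n * (n : ℂ) ^ (-(1 / 2 + ((t + s / L : ℝ) : ℂ) * I)) =
      I * ((qh w 0 : ℝ) : ℂ) * (be w L (a / L) n * (n : ℂ) ^ (-(1 / 2 + (t : ℂ) * I))) := by
  unfold Pool.Agent.Q150.UM.al' be lamL
  rw [if_pos hn, sub_zero]
  rcases Nat.lt_or_ge n 2 with h | h
  · have h1 : n = 1 := by omega
    subst h1
    simp
  have hn0 : (n : ℂ) ≠ 0 := by exact_mod_cast (by omega : n ≠ 0)
  have hlog : 0 < Real.log n := Real.log_pos (by exact_mod_cast (by omega : 1 < n))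
  have hlogC : ((Real.log n : ℝ) : ℂ) ≠ 0 := by exact_mod_cast hlog.ne'
  have hLC : (L : ℂ) ≠ 0 := by exact_mod_cast hL.ne'
  have hqC : ((qh w 0 : ℝ) : ℂ) ≠ 0 := by exact_mod_cast hq
  have hc0 : -(((Real.log n / L : ℝ) : ℂ) * I) ≠ 0 := by
    rw [neg_ne_zero]
    refine mul_ne_zero ?_ I_ne_zero
    exact_mod_cast (div_pos hlog hL).ne'
  have hpow : ∀ s : ℝ, (n : ℂ) ^ (-(1 / 2 + ((t + s / L : ℝ) : ℂ) * I)) =
      (n : ℂ) ^ (-(1 / 2 + (t : ℂ) * I)) * cexp (-(((Real.log n / L : ℝ) : ℂ) * I) * s) := by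
    intro s
    rw [Complex.cpow_def_of_ne_zero hn0, Complex.cpow_def_of_ne_zero hn0, ← Complex.exp_add]
    congr 1
    rw [← Complex.natCast_log]
    push_cast
    field_simp
    ring
  have hh : (n : ℂ) ^ (-(((a / L : ℝ) : ℂ) * I)) = cexp (-(((Real.log n / L : ℝ) : ℂ) * I) * a) := by
    rw [Complex.cpow_def_of_ne_zero hn0]
    congr 1
    rw [← Complex.natCast_log]
    push_cast
    field_simp
  simp only [hpow]
  rw [intervalIntegral.integral_const_mul, intervalIntegral.integral_const_mul, integral_exp_mul_complex hc0, hh]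
  simp only [Complex.ofReal_zero, mul_zero, Complex.exp_zero]
  generalize cexp (-(((Real.log n / L : ℝ) : ℂ) * I) * a) = E
  generalize (n : ℂ) ^ (-(1 / 2 + (t : ℂ) * I)) = P
  push_cast
  generalize hl : ((Real.log n : ℝ) : ℂ) = l at *
  generalize hv : ((ArithmeticFunction.vonMangoldt n : ℝ) : ℂ) = v at *
  field_simp
  ring_nf
  simp only [I_sq]
  ring

/-- the prime sum, integrated over the window -/
lemma ex_int {w : ℝ → ℝ} {L a : ℝ} (hL : 0 < L) (hq : qh w 0 ≠ 0) (M : ℕ) (t : ℝ) :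
    ∫ s in (0 : ℝ)..a, dp M (Pool.Agent.Q150.UM.al' w L 0 M) (t + s / L) =
      I * ((qh w 0 : ℝ) : ℂ) * dp M (be w L (a / L)) t := by
  unfold dp
  rw [intervalIntegral.integral_finsetSum, Finset.mul_sum]
  · refine Finset.sum_congr rfl fun n hn => ?_
    rw [Finset.mem_Icc] at hn
    exact ex_term hL hq M n hn.1 hn.2 t
  · intro n hn
    rw [Finset.mem_Icc] at hn
    apply Continuous.intervalIntegrable
    refine continuous_const.mul (Continuous.const_cpow (by fun_prop) (Or.inl ?_))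
    exact_mod_cast (by omega : n ≠ 0)

theorem t_EXP : S_EXP := by
  intro δ H C K w hδ hδ1 hH hC hK hw hq lam hlam
  obtain ⟨D₁, hD₁, hE⟩ := b_EFL δ H C K w hδ (by linarith) hH hC hK hw
  obtain ⟨D, hD, hQ⟩ := Pool.Agent.Q150.UM.qb_of Pool.Agent.Q176.UM.t_QH Pool.Agent.Q247.UM.t_QLF hδ (by linarith) hH hC hK hw
  have hc1 := Pool.Agent.Q150.UM.c1_nonneg
  set a : ℝ := 2 * Real.pi * lam with ha
  have ha0 : 0 < a := by positivity
  have hlogT := Real.tendsto_log_atTop
  filter_upwards [hE, hlogT.eventually_ge_atTop 9216, hlogT.eventually_ge_atTop (D * Real.exp 1 * Pool.Agent.Q150.UM.c1),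
    hlogT.eventually_ge_atTop (a * (D₁ + 2 + D)), hlogT.eventually_ge_atTop a, eventually_gt_atTop 0] with T hE hL1 hL2 hL3 hL4 hT0
  intro t ht1 ht2
  set L := Real.log T with hLdef
  have hL0 : 0 < L := by linarith
  set M : ℕ := ⌊T ^ (1 / 16 : ℝ)⌋₊ with hMdef
  have hsh : sh lam T = a / L := rfl
  rw [hsh]
  have hsq : Real.sqrt L ≤ L / 96 := by
    rw [Real.sqrt_le_left (by positivity)]
    nlinarith
  have hM : Real.exp (2 * δ * L + 3 * Real.sqrt L) ≤ (M : ℝ) + 1 := by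
    refine le_trans ?_ (Nat.lt_floor_add_one (T ^ (1 / 16 : ℝ))).le
    rw [Real.rpow_def_of_pos hT0, Real.exp_le_exp]
    nlinarith
  have hb : ∀ s ∈ Set.uIoc (0 : ℝ) a,
      ‖(Zt w T 0 (t + s / L)).re - QL w L 0 + 2 * (dp M (Pool.Agent.Q150.UM.al' w L 0 M) (t + s / L)).re‖ ≤ (D₁ + 2) / L := by
    intro s hs
    rw [Set.uIoc_of_le ha0.le, Set.mem_Ioc] at hs
    have hsL : 0 ≤ s / L := div_nonneg hs.1.le hL0.le
    have hsL1 : s / L ≤ 1 := by
      rw [div_le_one hL0]
      linarith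
    have h1 := hE 0 (t + s / L) le_rfl (by nlinarith) (by linarith) (by linarith)
    have h2 := ex_tail (hQ L (by linarith)) hD hδ (by linarith) (by nlinarith) hL2 M hM (t + s / L)
    have h3 := (Complex.abs_re_le_norm _).trans h1
    have h4 := (Complex.abs_re_le_norm _).trans h2
    simp only [Complex.ofReal_zero, mul_zero, zero_mul, neg_zero, Complex.exp_zero, one_mul, Complex.sub_re, Complex.conj_re,
      Complex.ofReal_re] at h3
    rw [Complex.sub_re] at h4
    rw [Real.norm_eq_abs]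
    rw [abs_le] at h3 h4 ⊢
    have h5 : (D₁ + 2) / L = D₁ / L + 2 * (1 / L) := by ring
    rw [h5]
    constructor
    · linarith [h3.1, h4.1, h3.2, h4.2]
    · linarith [h3.1, h4.1, h3.2, h4.2]
  have hZc : Continuous fun s : ℝ => Zt w T 0 (t + s / L) := (Pool.Agent.Q150.UM.Zt_cont hw T 0).comp (by fun_prop)
  have hPc : Continuous fun s : ℝ => dp M (Pool.Agent.Q150.UM.al' w L 0 M) (t + s / L) :=
    (Pool.Agent.Q150.UM.dp_cont M _).comp (by fun_prop)
  have hI := intervalIntegral.norm_integral_le_of_norm_le_const hb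
  have hre1 : ∫ s in (0 : ℝ)..a, (Zt w T 0 (t + s / L)).re = (∫ s in (0 : ℝ)..a, Zt w T 0 (t + s / L)).re :=
    Complex.reCLM.intervalIntegral_comp_comm (hZc.intervalIntegrable 0 a)
  have hre2 : ∫ s in (0 : ℝ)..a, (dp M (Pool.Agent.Q150.UM.al' w L 0 M) (t + s / L)).re =
      (∫ s in (0 : ℝ)..a, dp M (Pool.Agent.Q150.UM.al' w L 0 M) (t + s / L)).re :=
    Complex.reCLM.intervalIntegral_comp_comm (hPc.intervalIntegrable 0 a)
  have hZr : Continuous fun s : ℝ => (Zt w T 0 (t + s / L)).re := Complex.continuous_re.comp hZc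
  have hPr : Continuous fun s : ℝ => (dp M (Pool.Agent.Q150.UM.al' w L 0 M) (t + s / L)).re := Complex.continuous_re.comp hPc
  have hint : ∫ s in (0 : ℝ)..a, ((Zt w T 0 (t + s / L)).re - QL w L 0 +
      2 * (dp M (Pool.Agent.Q150.UM.al' w L 0 M) (t + s / L)).re) =
      (∫ s in (0 : ℝ)..a, Zt w T 0 (t + s / L)).re - (a - 0) * QL w L 0 +
        2 * (I * ((qh w 0 : ℝ) : ℂ) * dp M (be w L (a / L)) t).re := by
    have e1 := intervalIntegral.integral_add (μ := volume) (a := 0) (b := a)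
      (f := fun s : ℝ => (Zt w T 0 (t + s / L)).re - QL w L 0)
      (g := fun s : ℝ => 2 * (dp M (Pool.Agent.Q150.UM.al' w L 0 M) (t + s / L)).re)
      ((hZr.sub continuous_const).intervalIntegrable 0 a) ((hPr.const_mul 2).intervalIntegrable 0 a)
    have e2 := intervalIntegral.integral_sub (μ := volume) (a := 0) (b := a)
      (f := fun s : ℝ => (Zt w T 0 (t + s / L)).re) (g := fun _ : ℝ => QL w L 0)
      (hZr.intervalIntegrable 0 a) (continuous_const.intervalIntegrable 0 a)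
    have e3 : ∫ s in (0 : ℝ)..a, 2 * (dp M (Pool.Agent.Q150.UM.al' w L 0 M) (t + s / L)).re =
        2 * ∫ s in (0 : ℝ)..a, (dp M (Pool.Agent.Q150.UM.al' w L 0 M) (t + s / L)).re :=
      intervalIntegral.integral_const_mul _ _
    rw [e1, e2, e3, intervalIntegral.integral_const, hre1, hre2, ex_int hL0 hq M t, smul_eq_mul]
  rw [hint] at hI
  have hIm : (I * ((qh w 0 : ℝ) : ℂ) * dp M (be w L (a / L)) t).re = -(qh w 0 * (dp M (be w L (a / L)) t).im) := by
    simp [mul_assoc]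
  rw [hIm, sub_zero, abs_of_pos ha0, Real.norm_eq_abs] at hI
  have hz := (hQ L (by linarith)).zero
  have hz2 : |a * (QL w L 0 - qh w 0)| ≤ a * (D / L) := by
    rw [abs_mul, abs_of_pos ha0]
    exact mul_le_mul_of_nonneg_left hz ha0.le
  have hfin : (D₁ + 2) / L * a + a * (D / L) ≤ 1 := by
    have : (D₁ + 2) / L * a + a * (D / L) = a * (D₁ + 2 + D) / L := by ring
    rw [this, div_le_one hL0]
    exact hL3
  have hpi : 2 * qh w 0 * (Real.pi * lam + (dp M (be w L (a / L)) t).im) =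
      a * qh w 0 + 2 * qh w 0 * (dp M (be w L (a / L)) t).im := by
    rw [ha]
    ring
  rw [hpi]
  rw [abs_le] at hI hz2 ⊢
  constructor
  · linarith [hI.1, hI.2, hz2.1, hz2.2]
  · linarith [hI.1, hI.2, hz2.1, hz2.2]

end Pool.Agent.H4.MZ
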