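import Pool.Agent.H4.MZ.Stm
import Pool.Graph.R_pool_sql_team_seeded_3997aac3.Q84.UM.DPM

set_option autoImplicit false

/-! Project MZ, IMAG, first part (helper94): the coefficients. -/

namespace Pool.Agent.H4.MZ.IMAG

open Filter Topology MeasureTheory Complex
open Pool.Agent.Q97.UM
open Pool.Agent.H4.MZ

noncomputable section

theorem cp_eq {n : ℕ} (hn : 1 ≤ n) (h : ℝ) :
    (n : ℂ) ^ (-(h * I)) = cexp (I * ((-(h * Real.log n) : ℝ) : ℂ)) := by
  have hn0 : (n : ℂ) ≠ 0 := by exact_mod_cast (by omega : n ≠ 0)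
  rw [Complex.cpow_def_of_ne_zero hn0]
  congr 1
  rw [← Complex.natCast_log]
  push_cast
  ring

theorem cp_norm {n : ℕ} (hn : 1 ≤ n) (h : ℝ) : ‖(n : ℂ) ^ (-(h * I))‖ = 1 := by
  rw [cp_eq hn, mul_comm, Complex.norm_exp_ofReal_mul_I]

theorem cp_le {n : ℕ} (hn : 1 ≤ n) {h : ℝ} (hh : 0 ≤ h) :
    ‖(n : ℂ) ^ (-(h * I)) - 1‖ ≤ h * Real.log n := by
  rw [cp_eq hn]
  refine (Real.norm_exp_I_mul_ofReal_sub_one_le).trans (le_of_eq ?_)
  rw [Real.norm_eq_abs, abs_neg, abs_of_nonneg (mul_nonneg hh (Real.log_natCast_nonneg n))]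

theorem cp_two {n : ℕ} (hn : 1 ≤ n) (h : ℝ) : ‖(n : ℂ) ^ (-(h * I)) - 1‖ ≤ 2 := by
  refine (norm_sub_le _ _).trans ?_
  rw [cp_norm hn, norm_one]
  norm_num

/-- the difference of the coefficients -/
def al (w : ℝ → ℝ) (L h : ℝ) (N Y n : ℕ) : ℂ := be w L h n - ah h N Y n

theorem be_bound (w : ℝ → ℝ) {L h D q : ℝ} (hh : 0 ≤ h) (hq : 0 < q) (hD : ∀ x, |QL w L x| ≤ D)
    (hq0 : qh w 0 = q) (n : ℕ) :
    ‖be w L h n‖ ≤ ArithmeticFunction.vonMangoldt n * (D / q * h) := by
  have hD0 : 0 ≤ D := (abs_nonneg _).trans (hD 0)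
  by_cases hn : 2 ≤ n
  · have hn' : (1 : ℝ) < n := by exact_mod_cast hn
    have hl : 0 < Real.log n := Real.log_pos hn'
    have hL : 0 ≤ ArithmeticFunction.vonMangoldt n := ArithmeticFunction.vonMangoldt_nonneg
    unfold be lamL
    rw [norm_mul, norm_mul, Complex.norm_real, Complex.norm_real, Real.norm_eq_abs,
      Real.norm_eq_abs, abs_of_nonneg (div_nonneg hL hl.le), hq0, abs_div, abs_of_pos hq]
    have h1 := cp_le (n := n) (by omega) hh
    calc ArithmeticFunction.vonMangoldt n / Real.log n * (|QL w L (Real.log n)| / q) *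
          ‖(n : ℂ) ^ (-(h * I)) - 1‖ ≤
        ArithmeticFunction.vonMangoldt n / Real.log n * (D / q) * (h * Real.log n) := by
          gcongr
          exact hD _
      _ = _ := by field_simp
  · have h0 : ArithmeticFunction.vonMangoldt n = 0 := by
      interval_cases n <;> simp
    unfold be lamL
    rw [h0]
    simp

open Classical in
theorem ah_bound {h : ℝ} (hh : 0 ≤ h) (N Y n : ℕ) :
    ‖ah h N Y n‖ ≤ ArithmeticFunction.vonMangoldt n * h := by
  unfold ah
  split_ifs with h1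
  · rw [ArithmeticFunction.vonMangoldt_apply_prime h1.1, mul_comm (Real.log n) h]
    exact cp_le h1.1.one_le hh
  · rw [norm_zero]
    exact mul_nonneg ArithmeticFunction.vonMangoldt_nonneg hh

theorem al_bound (w : ℝ → ℝ) {L h D q : ℝ} (hh : 0 ≤ h) (hq : 0 < q) (hD : ∀ x, |QL w L x| ≤ D)
    (hq0 : qh w 0 = q) (N Y n : ℕ) :
    ‖al w L h N Y n‖ ≤ ArithmeticFunction.vonMangoldt n * ((D / q + 1) * h) := by
  unfold al
  refine (norm_sub_le _ _).trans ?_
  have h1 := be_bound w hh hq hD hq0 n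
  have h2 := ah_bound hh N Y n
  have e : ArithmeticFunction.vonMangoldt n * ((D / q + 1) * h) =
      ArithmeticFunction.vonMangoldt n * (D / q * h) + ArithmeticFunction.vonMangoldt n * h := by ring
  rw [e]
  exact add_le_add h1 h2

theorem lamL_prime {p : ℕ} (hp : p.Prime) : lamL p = 1 := by
  unfold lamL
  rw [ArithmeticFunction.vonMangoldt_apply_prime hp]
  have : Real.log p ≠ 0 := (Real.log_pos (by exact_mod_cast hp.one_lt)).ne'
  rw [div_self this]
  simp

/-- the primes in `(N, Y]` -/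
theorem al_mid (w : ℝ → ℝ) {L h D q : ℝ} (hL : 0 < L) (hq : 0 < q)
    (hq0 : qh w 0 = q) (hlip : ∀ x y, |QL w L x - QL w L y| ≤ D / L * |x - y|)
    (h0 : |QL w L 0 - q| ≤ D / L) (hD0 : 0 ≤ D) {N Y p : ℕ} (hp : p.Prime) (hN : N < p) (hY : p ≤ Y) :
    ‖al w L h N Y p‖ ≤ 6 * D / (q * L) * Real.log p := by
  have hl2 : 1 / 2 ≤ Real.log p := by
    have h1 : Real.log 2 ≤ Real.log p := Real.log_le_log (by norm_num) (by exact_mod_cast hp.two_le)
    have := Real.log_two_gt_d9
    linarith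
  unfold al be ah
  rw [if_pos ⟨hp, hN, hY⟩, lamL_prime hp, one_mul, hq0]
  have e : (((QL w L (Real.log p) / q : ℝ) : ℂ) * ((p : ℂ) ^ (-(h * I)) - 1) - ((p : ℂ) ^ (-(h * I)) - 1)) =
      (((QL w L (Real.log p) - q) / q : ℝ) : ℂ) * ((p : ℂ) ^ (-(h * I)) - 1) := by
    have hqc : (q : ℂ) ≠ 0 := by exact_mod_cast hq.ne'
    push_cast
    field_simp
  rw [e, norm_mul, Complex.norm_real, Real.norm_eq_abs, abs_div, abs_of_pos hq]
  have h2 := cp_two (n := p) hp.one_le h
  have h3 : |QL w L (Real.log p) - q| ≤ D / L * (3 * Real.log p) := by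
    have e2 : QL w L (Real.log p) - q = (QL w L (Real.log p) - QL w L 0) + (QL w L 0 - q) := by ring
    rw [e2]
    refine (abs_add_le _ _).trans ?_
    have h4 := hlip (Real.log p) 0
    rw [sub_zero, abs_of_nonneg (by linarith : 0 ≤ Real.log p)] at h4
    have h5 : 0 ≤ D / L := by positivity
    nlinarith
  calc |QL w L (Real.log p) - q| / q * ‖(p : ℂ) ^ (-(h * I)) - 1‖ ≤
        D / L * (3 * Real.log p) / q * 2 := by gcongr
    _ = _ := by field_simp; ring

/-- the primes `> Y` -/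
theorem al_big (w : ℝ → ℝ) {L h D q : ℝ} (hq : 0 < q) (hD : ∀ x, |QL w L x| ≤ D)
    (hq0 : qh w 0 = q) {N Y p : ℕ} (hp : p.Prime) (hY : Y < p) :
    ‖al w L h N Y p‖ ≤ 2 * D / q := by
  unfold al be ah
  rw [if_neg (fun h1 => by omega), lamL_prime hp, one_mul, hq0, sub_zero, norm_mul, Complex.norm_real,
    Real.norm_eq_abs, abs_div, abs_of_pos hq]
  have hD0 : 0 ≤ D := (abs_nonneg _).trans (hD 0)
  have h2 := cp_two (n := p) hp.one_le h
  calc |QL w L (Real.log p)| / q * ‖(p : ℂ) ^ (-(h * I)) - 1‖ ≤ D / q * 2 := by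
        gcongr
        exact hD _
    _ = _ := by ring

/-- the difference of the Dirichlet polynomials -/
theorem dp_al (w : ℝ → ℝ) (L h : ℝ) (N : ℕ) {Y M : ℕ} (hYM : Y ≤ M) (t : ℝ) :
    dp M (be w L h) t - dp Y (ah h N Y) t = dp M (al w L h N Y) t := by
  have h1 : dp M (ah h N Y) t = dp Y (ah h N Y) t := by
    unfold dp
    symm
    apply Finset.sum_subset (Finset.Icc_subset_Icc_right hYM)
    intro n hn hn2
    rw [Finset.mem_Icc] at hn hn2
    have : ah h N Y n = 0 := by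
      unfold ah
      rw [if_neg]
      rintro ⟨_, _, h3⟩
      exact hn2 ⟨hn.1, h3⟩
    rw [this, zero_mul]
  rw [← h1]
  unfold dp al
  rw [← Finset.sum_sub_distrib]
  apply Finset.sum_congr rfl
  intro n _
  ring

/-- the parenthesis of SQ -/
theorem paren (psm : S_PSM) (w : ℝ → ℝ) (D q : ℝ) (hq : 0 < q) (hD1 : 1 ≤ D) (hq0 : qh w 0 = q)
    (ε : ℝ) (hε : 0 < ε) (hε2 : ε ≤ 1 / 32) :
    ∃ CA : ℝ, 0 ≤ CA ∧ ∀ lam : ℝ, 1 ≤ lam → ∀ᶠ T : ℝ in atTop,
      (∀ x, |QL w (Real.log T) x| ≤ D) →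
      (∀ x y, |QL w (Real.log T) x - QL w (Real.log T) y| ≤ D / Real.log T * |x - y|) →
      |QL w (Real.log T) 0 - q| ≤ D / Real.log T →
      ∀ N : ℕ, 1 ≤ N → (N : ℝ) ≤ T ^ (1 / 32 / lam) →
      (∑ p ∈ bigP N ⌊T ^ (1 / 16 : ℝ)⌋₊, ‖al w (Real.log T) (sh lam T) N ⌊T ^ ε⌋₊ p‖ ^ 2 / p) +
        Real.log (2 * N) * (∑ p ∈ smallP N ⌊T ^ (1 / 16 : ℝ)⌋₊, Real.log p *
          ((D / q + 1) * sh lam T) ^ 2 / p) +
        Real.log (2 * N * ⌊T ^ (1 / 16 : ℝ)⌋₊) * ((D / q + 1) * sh lam T) ^ 2 ≤ CA := by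
  obtain ⟨C, hC, psm⟩ := psm
  have hlogε : 0 ≤ Real.log (1 / 16 / ε) := Real.log_nonneg (by
    rw [le_div_iff₀ hε]; linarith)
  refine ⟨(36 * D ^ 2 / q ^ 2 * C + 4 * D ^ 2 / q ^ 2 * (Real.log (1 / 16 / ε) + C)) +
    2 * C * (D / q + 1) ^ 2 + (D / q + 1) ^ 2, by positivity, ?_⟩
  intro lam hlam
  have hlam0 : 0 < lam := by linarith
  have hpi := Real.pi_pos
  have v1 : ∀ᶠ T : ℝ in atTop, 2 ≤ T ^ ε := (tendsto_rpow_atTop hε).eventually_ge_atTop 2
  have v2 : ∀ᶠ T : ℝ in atTop, (2 * Real.pi * lam) ^ 2 ≤ Real.log T :=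
    Real.tendsto_log_atTop.eventually_ge_atTop _
  filter_upwards [v1, v2, eventually_ge_atTop (16 : ℝ)] with T hTε hTL hT
  intro hD hlip h0 N hN hNT
  set L : ℝ := Real.log T with hL
  set h : ℝ := sh lam T with hh
  have hhd : h = 2 * Real.pi * lam / L := rfl
  have hT0 : 0 < T := by linarith
  have hL1 : 1 ≤ L := by
    have : (1 : ℝ) ≤ (2 * Real.pi * lam) ^ 2 := by
      have h3 : 3 < Real.pi := Real.pi_gt_three
      have h4 : 1 ≤ 2 * Real.pi * lam := by nlinarith
      nlinarith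
    linarith
  have hL0 : 0 < L := by linarith
  have hh0 : 0 < h := by rw [hhd]; positivity
  set M : ℕ := ⌊T ^ (1 / 16 : ℝ)⌋₊ with hM
  set Y : ℕ := ⌊T ^ ε⌋₊ with hY
  set κ : ℝ := D / q + 1 with hκ
  have hκ0 : 0 < κ := by positivity
  have hN0 : (0 : ℝ) < N := by exact_mod_cast hN
  have hlogN : Real.log N ≤ L / (32 * lam) := by
    have h1 := Real.log_le_log hN0 hNT
    rw [Real.log_rpow hT0] at h1
    refine h1.trans (le_of_eq ?_)
    rw [hL]
    field_simp
  have hlogN0 : 0 ≤ Real.log N := Real.log_natCast_nonneg N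
  -- (c)
  have hc : ∑ p ∈ bigP N M, ‖al w L h N Y p‖ ^ 2 / (p : ℝ) ≤
      36 * D ^ 2 / q ^ 2 * C + 4 * D ^ 2 / q ^ 2 * (Real.log (1 / 16 / ε) + C) := by
    rw [← Finset.sum_filter_add_sum_filter_not (bigP N M) (fun p => p ≤ Y)]
    apply add_le_add
    · have h1 : ∀ p ∈ (bigP N M).filter (fun p => p ≤ Y), ‖al w L h N Y p‖ ^ 2 / (p : ℝ) ≤
          36 * D ^ 2 / (q ^ 2 * L ^ 2) * (Real.log p ^ 2 / p) := by
        intro p hp
        rw [Finset.mem_filter] at hp
        have hp1 := Finset.mem_filter.1 hp.1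
        have h2 := al_mid w (h := h) hL0 hq hq0 hlip h0 (by linarith) hp1.2.1 hp1.2.2 hp.2
        have h3 : ‖al w L h N Y p‖ ^ 2 ≤ (6 * D / (q * L) * Real.log p) ^ 2 :=
          pow_le_pow_left₀ (norm_nonneg _) h2 2
        calc ‖al w L h N Y p‖ ^ 2 / (p : ℝ) ≤ (6 * D / (q * L) * Real.log p) ^ 2 / p :=
              div_le_div_of_nonneg_right h3 (Nat.cast_nonneg p)
          _ = _ := by field_simp; ring
      refine (Finset.sum_le_sum h1).trans ?_
      rw [← Finset.mul_sum]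
      have h2 : ∑ p ∈ (bigP N M).filter (fun p => p ≤ Y), Real.log p ^ 2 / (p : ℝ) ≤ C * L ^ 2 := by
        refine le_trans ?_ (psm T (by linarith)).2.1
        apply Finset.sum_le_sum_of_subset_of_nonneg
        · intro p hp
          rw [Finset.mem_filter] at hp ⊢
          have hp1 := Finset.mem_filter.1 hp.1
          have hp2 := Finset.mem_Icc.1 hp1.1
          refine ⟨Finset.mem_Icc.2 ⟨hp2.1, ?_⟩, hp1.2.1⟩
          refine hp2.2.trans (Nat.floor_le_floor ?_)
          calc T ^ (1 / 16 : ℝ) ≤ T ^ (1 : ℝ) :=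
                Real.rpow_le_rpow_of_exponent_le (by linarith) (by norm_num)
            _ = T := Real.rpow_one T
        · intro p _ _
          positivity
      calc 36 * D ^ 2 / (q ^ 2 * L ^ 2) * ∑ p ∈ (bigP N M).filter (fun p => p ≤ Y),
            Real.log p ^ 2 / (p : ℝ) ≤ 36 * D ^ 2 / (q ^ 2 * L ^ 2) * (C * L ^ 2) :=
            mul_le_mul_of_nonneg_left h2 (by positivity)
        _ = _ := by field_simp
    · have h1 : ∀ p ∈ (bigP N M).filter (fun p => ¬ p ≤ Y), ‖al w L h N Y p‖ ^ 2 / (p : ℝ) ≤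
          4 * D ^ 2 / q ^ 2 * (1 / p) := by
        intro p hp
        rw [Finset.mem_filter] at hp
        have hp1 := Finset.mem_filter.1 hp.1
        have h2 := al_big w (h := h) (N := N) hq hD hq0 hp1.2.1 (not_le.1 hp.2)
        have h3 : ‖al w L h N Y p‖ ^ 2 ≤ (2 * D / q) ^ 2 :=
          pow_le_pow_left₀ (norm_nonneg _) h2 2
        calc ‖al w L h N Y p‖ ^ 2 / (p : ℝ) ≤ (2 * D / q) ^ 2 / p :=
              div_le_div_of_nonneg_right h3 (Nat.cast_nonneg p)
          _ = _ := by ring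
      refine (Finset.sum_le_sum h1).trans ?_
      rw [← Finset.mul_sum]
      apply mul_le_mul_of_nonneg_left _ (by positivity)
      have h2 := (psm (T ^ (1 / 16 : ℝ)) (hTε.trans
        (Real.rpow_le_rpow_of_exponent_le (by linarith) (by linarith)))).2.2 (T ^ ε) hTε
        (Real.rpow_le_rpow_of_exponent_le (by linarith) (by linarith))
      rw [Real.log_rpow hT0, Real.log_rpow hT0, ← hL] at h2
      have e : 1 / 16 * L / (ε * L) = 1 / 16 / ε := by
        field_simp
      rw [e] at h2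
      refine le_trans ?_ h2
      apply Finset.sum_le_sum_of_subset_of_nonneg
      · intro p hp
        rw [Finset.mem_filter] at hp ⊢
        have hp1 := Finset.mem_filter.1 hp.1
        exact ⟨hp1.1, hp1.2.1, not_le.1 hp.2⟩
      · intro p _ _
        positivity
  -- (b)
  have hb : Real.log (2 * N) * (∑ p ∈ smallP N M, Real.log p * (κ * h) ^ 2 / (p : ℝ)) ≤
      2 * C * κ ^ 2 := by
    by_cases hN2 : 2 ≤ N
    · have hN2' : (2 : ℝ) ≤ N := by exact_mod_cast hN2
      have h1 : ∑ p ∈ smallP N M, Real.log p * (κ * h) ^ 2 / (p : ℝ) ≤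
          (κ * h) ^ 2 * (C * Real.log N) := by
        have e : ∑ p ∈ smallP N M, Real.log p * (κ * h) ^ 2 / (p : ℝ) =
            (κ * h) ^ 2 * ∑ p ∈ smallP N M, Real.log p / (p : ℝ) := by
          rw [Finset.mul_sum]
          apply Finset.sum_congr rfl
          intro p _
          ring
        rw [e]
        apply mul_le_mul_of_nonneg_left _ (by positivity)
        refine le_trans ?_ (psm N hN2').1
        apply Finset.sum_le_sum_of_subset_of_nonneg
        · intro p hp
          have hp1 := Finset.mem_filter.1 hp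
          have hp2 := Finset.mem_Icc.1 hp1.1
          rw [Finset.mem_filter, Finset.mem_Icc, Nat.floor_natCast]
          exact ⟨⟨hp2.1, hp1.2.2⟩, hp1.2.1⟩
        · intro p _ _
          exact div_nonneg (Real.log_natCast_nonneg p) (Nat.cast_nonneg p)
      have h2 : Real.log (2 * N) ≤ 2 * Real.log N := by
        rw [Real.log_mul (by norm_num) hN0.ne']
        have := Real.log_le_log (by norm_num) hN2'
        linarith
      have h3 : h * Real.log N ≤ 1 := by
        have h4 : h * Real.log N ≤ h * (L / (32 * lam)) := mul_le_mul_of_nonneg_left hlogN hh0.le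
        have h5 : h * (L / (32 * lam)) = Real.pi / 16 := by
          rw [hhd]
          field_simp
          norm_num
        have := Real.pi_lt_four
        linarith
      calc Real.log (2 * N) * (∑ p ∈ smallP N M, Real.log p * (κ * h) ^ 2 / (p : ℝ)) ≤
            2 * Real.log N * ((κ * h) ^ 2 * (C * Real.log N)) := by
            apply mul_le_mul h2 h1 _ (by positivity)
            apply Finset.sum_nonneg
            intro p _
            exact div_nonneg (mul_nonneg (Real.log_natCast_nonneg p) (sq_nonneg _)) (Nat.cast_nonneg p)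
        _ = 2 * C * κ ^ 2 * (h * Real.log N) ^ 2 := by ring
        _ ≤ 2 * C * κ ^ 2 * 1 := by
            apply mul_le_mul_of_nonneg_left _ (by positivity)
            have : 0 ≤ h * Real.log N := by positivity
            nlinarith
        _ = _ := mul_one _
    · have h1 : smallP N M = ∅ := by
        apply Finset.filter_eq_empty_iff.2
        rintro p _ ⟨hp, hpN⟩
        have := hp.two_le
        omega
      rw [h1]
      simp only [Finset.sum_empty, mul_zero]
      positivity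
  -- (a)
  have ha : Real.log (2 * N * M) * (κ * h) ^ 2 ≤ κ ^ 2 := by
    have hM1 : (M : ℝ) ≤ T ^ (1 / 16 : ℝ) := Nat.floor_le (by positivity)
    have hM0 : (1 : ℝ) ≤ M := by
      have : 1 ≤ M := by
        rw [hM]
        apply Nat.le_floor
        rw [Nat.cast_one]
        exact Real.one_le_rpow (by linarith) (by norm_num)
      exact_mod_cast this
    have h1 : Real.log (2 * N * M) ≤ L := by
      apply Real.log_le_log (by positivity)
      have h2 : (N : ℝ) ≤ T ^ (1 / 16 : ℝ) := by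
        refine hNT.trans (Real.rpow_le_rpow_of_exponent_le (by linarith) ?_)
        rw [div_le_iff₀ hlam0]
        linarith
      have h3 : (2 : ℝ) ≤ T ^ (7 / 8 : ℝ) := by
        have h4 : (16 : ℝ) ^ (7 / 8 : ℝ) ≤ T ^ (7 / 8 : ℝ) :=
          Real.rpow_le_rpow (by norm_num) hT (by norm_num)
        have h5 : (2 : ℝ) ≤ (16 : ℝ) ^ (7 / 8 : ℝ) := by
          calc (2 : ℝ) = 2 ^ (1 : ℝ) := (Real.rpow_one 2).symm
            _ ≤ 2 ^ (7 / 2 : ℝ) := Real.rpow_le_rpow_of_exponent_le (by norm_num) (by norm_num)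
            _ = (16 : ℝ) ^ (7 / 8 : ℝ) := by
                rw [show (16 : ℝ) = 2 ^ (4 : ℝ) by norm_num, ← Real.rpow_mul (by norm_num)]
                norm_num
        linarith
      calc 2 * (N : ℝ) * M ≤ T ^ (7 / 8 : ℝ) * T ^ (1 / 16 : ℝ) * T ^ (1 / 16 : ℝ) := by gcongr
        _ = T ^ (1 : ℝ) := by
            rw [← Real.rpow_add hT0, ← Real.rpow_add hT0]
            norm_num
        _ = T := Real.rpow_one T
    calc Real.log (2 * N * M) * (κ * h) ^ 2 ≤ L * (κ * h) ^ 2 :=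
          mul_le_mul_of_nonneg_right h1 (sq_nonneg _)
      _ = κ ^ 2 * ((2 * Real.pi * lam) ^ 2 / L) := by
          rw [hhd]
          field_simp
      _ ≤ κ ^ 2 * 1 := by
          apply mul_le_mul_of_nonneg_left _ (sq_nonneg _)
          rw [div_le_one hL0]
          exact hTL
      _ = _ := mul_one _
  linarith

end

end Pool.Agent.H4.MZ.IMAG
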