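import Pool.Agent.H4.MZ.Stm
import Pool.Graph.R_pool_sql_team_seeded_3997aac3.Q84.UM.DPM

set_option autoImplicit false

/-! Project MZ, IMAG, second part (helper94): mean squares of `SS`. -/

namespace Pool.Agent.H4.MZ.IMAG

open Filter Topology MeasureTheory Complex
open Pool.Agent.Q97.UM
open Pool.Agent.Q176.UM (SS_cont SS_nonneg)

noncomputable section

/-- Cauchy-Schwarz -/
theorem cs_int (f : ℝ → ℝ) (hf : Continuous f) (a : ℝ) (ha : 0 ≤ a) :
    (∫ s in (0 : ℝ)..a, f s) ^ 2 ≤ a * ∫ s in (0 : ℝ)..a, f s ^ 2 := by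
  rcases ha.eq_or_lt with rfl | ha
  · simp
  · set J : ℝ := ∫ s in (0 : ℝ)..a, f s with hJ
    have h1 : 0 ≤ ∫ s in (0 : ℝ)..a, (f s - J / a) ^ 2 :=
      intervalIntegral.integral_nonneg ha.le fun s _ => sq_nonneg _
    have h2 : ∫ s in (0 : ℝ)..a, (f s - J / a) ^ 2 =
        (∫ s in (0 : ℝ)..a, f s ^ 2) - 2 * (J / a) * J + (J / a) ^ 2 * a := by
      have e : ∀ s, (f s - J / a) ^ 2 = (f s ^ 2 - 2 * (J / a) * f s) + (J / a) ^ 2 := by
        intro s; ring
      simp only [e]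
      rw [intervalIntegral.integral_add, intervalIntegral.integral_sub,
        intervalIntegral.integral_const_mul, intervalIntegral.integral_const, smul_eq_mul, ← hJ]
      · ring
      · exact (hf.pow 2).intervalIntegrable _ _
      · exact (continuous_const.mul hf).intervalIntegrable _ _
      · exact ((hf.pow 2).sub (continuous_const.mul hf)).intervalIntegrable _ _
      · exact continuous_const.intervalIntegrable _ _
    rw [h2] at h1
    have h3 : (∫ s in (0 : ℝ)..a, f s ^ 2) - 2 * (J / a) * J + (J / a) ^ 2 * a =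
        (∫ s in (0 : ℝ)..a, f s ^ 2) - J ^ 2 / a := by
      field_simp
      ring
    rw [h3] at h1
    have h4 : J ^ 2 / a ≤ ∫ s in (0 : ℝ)..a, f s ^ 2 := by linarith
    rw [div_le_iff₀ ha] at h4
    linarith

/-- the mean square at a shifted point -/
theorem shiftK {δ C' T A B : ℝ} (hT : 1 ≤ T) (hAB : A ≤ B) (N : ℕ) (b : ℕ → ℂ)
    (hst : ∀ b : ℕ → ℂ, ∫ t in (T / 4)..(8 * T), SS δ T t ^ 2 * ‖dp N b t‖ ^ 2 ≤ C' * T * N2 N b)
    (y : ℝ) (h1 : T / 4 ≤ A + y) (h2 : B + y ≤ 8 * T) :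
    ∫ t in A..B, SS δ T (t + y) ^ 2 * ‖dp N b t‖ ^ 2 ≤ C' * T * N2 N b := by
  set b' : ℕ → ℂ := fun n => b n * (n : ℂ) ^ (y * I) with hb'
  have e1 : ∀ t, SS δ T (t + y) ^ 2 * ‖dp N b t‖ ^ 2 =
      (fun u => SS δ T u ^ 2 * ‖dp N b' u‖ ^ 2) (t + y) := by
    intro t
    have h3 := (Q84.UM.t_DPM.2.1 N b (t + y) y).1
    rw [add_sub_cancel_right] at h3
    simp only [h3, hb']
  simp only [e1]
  rw [intervalIntegral.integral_comp_add_right (fun u => SS δ T u ^ 2 * ‖dp N b' u‖ ^ 2) y]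
  have hc : Continuous fun u => SS δ T u ^ 2 * ‖dp N b' u‖ ^ 2 :=
    ((SS_cont δ hT).pow 2).mul ((Q84.UM.dp_cont N b').norm.pow 2)
  have h4 : ∫ u in (A + y)..(B + y), SS δ T u ^ 2 * ‖dp N b' u‖ ^ 2 ≤
      ∫ u in (T / 4)..(8 * T), SS δ T u ^ 2 * ‖dp N b' u‖ ^ 2 := by
    apply intervalIntegral.integral_mono_interval h1 (by linarith) h2 _ (hc.intervalIntegrable _ _)
    exact Eventually.of_forall fun u => by positivity
  refine h4.trans ((hst b').trans (le_of_eq ?_))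
  rw [hb', (Q84.UM.t_DPM.2.1 N b 0 y).2]

/-- Fubini for the averages, in abstract form -/
theorem fubA (S W : ℝ → ℝ) (hS : Continuous S) (hW : Continuous W) {A B L a K : ℝ} (hAB : A ≤ B)
    (ha : 0 ≤ a) (hL : 0 < L)
    (hK : ∀ y : ℝ, 0 ≤ y → y ≤ a / L → ∫ t in A..B, S (t + y) ^ 2 * W t ≤ K) :
    Continuous (fun t => (∫ s in (0 : ℝ)..a, S (t + s / L) ^ 2) * W t) ∧
    ∫ t in A..B, (∫ s in (0 : ℝ)..a, S (t + s / L) ^ 2) * W t ≤ a * K := by
  have hF : Continuous (Function.uncurry fun t s => S (t + s / L) ^ 2) := by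
    have h : Continuous fun z : ℝ × ℝ => S (z.1 + z.2 / L) ^ 2 := by fun_prop
    exact h
  have hG : Continuous (Function.uncurry fun t s => S (t + s / L) ^ 2 * W t) := by
    have h : Continuous fun z : ℝ × ℝ => S (z.1 + z.2 / L) ^ 2 * W z.1 := by fun_prop
    exact h
  have hG' : Continuous (Function.uncurry fun s t => S (t + s / L) ^ 2 * W t) := by
    have h : Continuous fun z : ℝ × ℝ => S (z.2 + z.1 / L) ^ 2 * W z.2 := by fun_prop
    exact h
  refine ⟨?_, ?_⟩
  · apply Continuous.mul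
    · exact intervalIntegral.continuous_parametric_intervalIntegral_of_continuous' hF 0 a
    · exact hW
  · have e1 : ∀ t, (∫ s in (0 : ℝ)..a, S (t + s / L) ^ 2) * W t =
        ∫ s in (0 : ℝ)..a, S (t + s / L) ^ 2 * W t := fun t => by
      rw [intervalIntegral.integral_mul_const]
    simp only [e1]
    have h3 : IntegrableOn (Function.uncurry fun t s => S (t + s / L) ^ 2 * W t)
          (Set.uIoc A B ×ˢ Set.uIoc 0 a) := by
      have h3 : IntegrableOn (Function.uncurry fun t s => S (t + s / L) ^ 2 * W t)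
          (Set.Icc A B ×ˢ Set.Icc 0 a) :=
        hG.continuousOn.integrableOn_compact (isCompact_Icc.prod isCompact_Icc)
      apply h3.mono_set
      apply Set.prod_mono
      · rw [Set.uIoc_of_le hAB]; exact Set.Ioc_subset_Icc_self
      · rw [Set.uIoc_of_le ha]; exact Set.Ioc_subset_Icc_self
    have h5 : ∫ t in A..B, (∫ s in (0 : ℝ)..a, S (t + s / L) ^ 2 * W t) =
        ∫ s in (0 : ℝ)..a, (∫ t in A..B, S (t + s / L) ^ 2 * W t) :=
      intervalIntegral_intervalIntegral_swap (F := fun t s => S (t + s / L) ^ 2 * W t) h3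
    rw [h5]
    have h6 : Continuous fun s => ∫ t in A..B, S (t + s / L) ^ 2 * W t :=
      intervalIntegral.continuous_parametric_intervalIntegral_of_continuous'
        (f := fun s t => S (t + s / L) ^ 2 * W t) hG' A B
    have h4 : ∫ s in (0 : ℝ)..a, (∫ t in A..B, S (t + s / L) ^ 2 * W t) ≤
        ∫ s in (0 : ℝ)..a, K := by
      apply intervalIntegral.integral_mono_on ha (h6.intervalIntegrable _ _)
        (continuous_const.intervalIntegrable _ _)
      intro s hs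
      exact hK (s / L) (div_nonneg hs.1 hL.le) (div_le_div_of_nonneg_right hs.2 hL.le)
    rw [intervalIntegral.integral_const, smul_eq_mul, sub_zero] at h4
    exact h4

/-- the mean square of the averages over `s` -/
theorem fub {δ C' T A B L a : ℝ} (hT : 1 ≤ T) (hAB : A ≤ B) (ha : 0 ≤ a) (hL : 0 < L) (N : ℕ)
    (b : ℕ → ℂ)
    (hst : ∀ b : ℕ → ℂ, ∫ t in (T / 4)..(8 * T), SS δ T t ^ 2 * ‖dp N b t‖ ^ 2 ≤ C' * T * N2 N b)
    (h1 : T / 4 ≤ A) (h2 : B + a / L ≤ 8 * T) :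
    Continuous (fun t => (∫ s in (0 : ℝ)..a, SS δ T (t + s / L) ^ 2) * ‖dp N b t‖ ^ 2) ∧
    ∫ t in A..B, (∫ s in (0 : ℝ)..a, SS δ T (t + s / L) ^ 2) * ‖dp N b t‖ ^ 2 ≤
      a * (C' * T * N2 N b) := by
  refine fubA (SS δ T) (fun t => ‖dp N b t‖ ^ 2) (SS_cont δ hT)
    ((Q84.UM.dp_cont N b).norm.pow 2) hAB ha hL ?_
  intro y hy hy'
  exact shiftK hT hAB N b hst y (by linarith) (by linarith)

end

end Pool.Agent.H4.MZ.IMAG
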