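import Pool.Agent.H4.MZ.Stm
import Pool.Agent.H4.MZ.Imag1
import Pool.Agent.H4.MZ.Imag2

set_option autoImplicit false

/-! Project MZ, IMAG (helper94). -/

namespace Pool.Agent.H4.MZ

open Filter Topology MeasureTheory Complex
open Pool.Agent.Q97.UM
open Pool.Agent.H4.LG (Yt)
open Pool.Agent.Q176.UM (SS_cont SS_nonneg)

noncomputable section

namespace IMAG

/-- the sum of five squares -/
theorem five (a b c d e : ℝ) : (a + b + c + d + e) ^ 2 ≤ 5 * (a ^ 2 + b ^ 2 + c ^ 2 + d ^ 2 + e ^ 2) := by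
  nlinarith [sq_nonneg (a - b), sq_nonneg (a - c), sq_nonneg (a - d), sq_nonneg (a - e),
    sq_nonneg (b - c), sq_nonneg (b - d), sq_nonneg (b - e), sq_nonneg (c - d), sq_nonneg (c - e),
    sq_nonneg (d - e)]

/-- the pointwise bound, squared -/
theorem ptw {q C₂ L lam Y Z s1 s2 J g g' m : ℝ} (hq : 0 < q) (hC₂ : 0 ≤ C₂) (hL : 0 < L)
    (hs1 : 0 ≤ s1) (hs2 : 0 ≤ s2) (hJ : 0 ≤ J)
    (h1 : |2 * Real.pi * q * Y - Z| ≤ C₂ * (s1 + s2) + C₂ / L * J)
    (h2 : |Z - 2 * q * (Real.pi * lam + g)| ≤ 1) (h3 : |g - g'| ≤ m) :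
    (Real.pi * (Y - lam) - g') ^ 2 ≤
      5 * ((C₂ / (2 * q)) ^ 2 * s1 ^ 2 + (C₂ / (2 * q)) ^ 2 * s2 ^ 2 + (C₂ / (2 * q)) ^ 2 / L ^ 2 * J ^ 2 +
        (1 / (2 * q)) ^ 2 + m ^ 2) := by
  have hm : 0 ≤ m := (abs_nonneg _).trans h3
  have e1 : 2 * q * (Real.pi * (Y - lam) - g) =
      (2 * Real.pi * q * Y - Z) + (Z - 2 * q * (Real.pi * lam + g)) := by ring
  have h4 : |2 * q * (Real.pi * (Y - lam) - g)| ≤ (C₂ * (s1 + s2) + C₂ / L * J) + 1 := by
    rw [e1]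
    exact (abs_add_le _ _).trans (add_le_add h1 h2)
  rw [abs_mul, abs_of_pos (by positivity : 0 < 2 * q)] at h4
  have h5 : |Real.pi * (Y - lam) - g| ≤ ((C₂ * (s1 + s2) + C₂ / L * J) + 1) / (2 * q) := by
    rw [le_div_iff₀ (by positivity)]
    linarith
  have h6 : |Real.pi * (Y - lam) - g'| ≤ C₂ / (2 * q) * s1 + C₂ / (2 * q) * s2 +
      C₂ / (2 * q) / L * J + 1 / (2 * q) + m := by
    have e2 : Real.pi * (Y - lam) - g' = (Real.pi * (Y - lam) - g) + (g - g') := by ring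
    rw [e2]
    refine (abs_add_le _ _).trans ?_
    refine (add_le_add h5 h3).trans (le_of_eq ?_)
    field_simp
  have h7 : (Real.pi * (Y - lam) - g') ^ 2 ≤ (C₂ / (2 * q) * s1 + C₂ / (2 * q) * s2 +
      C₂ / (2 * q) / L * J + 1 / (2 * q) + m) ^ 2 := by
    rw [← sq_abs (Real.pi * (Y - lam) - g')]
    exact pow_le_pow_left₀ (abs_nonneg _) h6 2
  refine h7.trans ((five _ _ _ _ _).trans (le_of_eq ?_))
  ring

/-- linearity -/
theorem int5 (G1 G2 G3 G4 G5 : ℝ → ℝ) (c1 : Continuous G1) (c2 : Continuous G2) (c3 : Continuous G3)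
    (c4 : Continuous G4) (c5 : Continuous G5) (k1 k2 k3 k4 A B : ℝ) :
    ∫ t in A..B, 5 * (k1 * G1 t + k2 * G2 t + k3 * G3 t + k4 * G4 t + G5 t) =
      5 * (k1 * (∫ t in A..B, G1 t) + k2 * (∫ t in A..B, G2 t) + k3 * (∫ t in A..B, G3 t) +
        k4 * (∫ t in A..B, G4 t) + ∫ t in A..B, G5 t) := by
  have e1 : IntervalIntegrable (fun t => k1 * G1 t) volume A B :=
    Continuous.intervalIntegrable (by fun_prop) _ _
  have e2 : IntervalIntegrable (fun t => k2 * G2 t) volume A B :=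
    Continuous.intervalIntegrable (by fun_prop) _ _
  have e3 : IntervalIntegrable (fun t => k3 * G3 t) volume A B :=
    Continuous.intervalIntegrable (by fun_prop) _ _
  have e4 : IntervalIntegrable (fun t => k4 * G4 t) volume A B :=
    Continuous.intervalIntegrable (by fun_prop) _ _
  have e5 : IntervalIntegrable (fun t => G5 t) volume A B := c5.intervalIntegrable _ _
  have e12 : IntervalIntegrable (fun t => k1 * G1 t + k2 * G2 t) volume A B :=
    Continuous.intervalIntegrable (by fun_prop) _ _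
  have e123 : IntervalIntegrable (fun t => k1 * G1 t + k2 * G2 t + k3 * G3 t) volume A B :=
    Continuous.intervalIntegrable (by fun_prop) _ _
  have e1234 : IntervalIntegrable (fun t => k1 * G1 t + k2 * G2 t + k3 * G3 t + k4 * G4 t)
      volume A B :=
    Continuous.intervalIntegrable (by fun_prop) _ _
  rw [intervalIntegral.integral_const_mul, intervalIntegral.integral_add e1234 e5,
    intervalIntegral.integral_add e123 e4, intervalIntegral.integral_add e12 e3,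
    intervalIntegral.integral_add e1 e2,
    intervalIntegral.integral_const_mul, intervalIntegral.integral_const_mul,
    intervalIntegral.integral_const_mul, intervalIntegral.integral_const_mul]

end IMAG

open IMAG in
theorem t_IMAG : S_SQ → S_PSM → S_CNT → S_EXP → S_IMAG := by
  intro sq psm cnt exp
  obtain ⟨θ₁, c, C₁, hθ, hθ4, hc, hC₁, tail⟩ := b_TAIL
  obtain ⟨δ, hδ, hδ64, hδc⟩ : ∃ δ : ℝ, 0 < δ ∧ δ ≤ 1 / 64 ∧ 96 * δ ≤ c := by
    refine ⟨min (c / 96) (1 / 64), lt_min (by positivity) (by norm_num), min_le_right _ _, ?_⟩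
    have := min_le_left (c / 96) (1 / 64)
    linarith
  obtain ⟨C', hC', stm⟩ := b_STM θ₁ c C₁ hθ hθ4 hc hC₁ tail 2 (2 * δ) (by linarith)
    (by push_cast; linarith)
  obtain ⟨Cw, hCw, omex⟩ := Pool.Agent.Q247.UM.t_OMEX 2 δ hδ (by linarith)
  have hH : 1 ≤ 8 * Cw ^ 2 := by nlinarith
  obtain ⟨w, hw⟩ := omex (8 * Cw ^ 2) hH
  obtain ⟨hlip, heven, hsupp, -, hq0, -⟩ :=
    Pool.Agent.Q176.UM.t_QH δ (8 * Cw ^ 2) Cw 2 w hδ (by linarith) hH hCw le_rfl hw
  have hpi := Real.pi_pos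
  have hq : 0 < qh w 0 := by
    have h1 := (abs_le.1 hq0).1
    have h2 : 0 < Real.pi * qh w 0 := by nlinarith
    exact (mul_pos_iff_of_pos_left hpi).1 h2
  obtain ⟨D, hD1, qlf⟩ := Pool.Agent.Q247.UM.t_QLF δ w hδ (by linarith) hlip heven hsupp
  obtain ⟨C₂, hC₂, cnt⟩ := cnt δ (8 * Cw ^ 2) Cw 2 w hδ hδ64 hH hCw le_rfl hw
  have exp := exp δ (8 * Cw ^ 2) Cw 2 w hδ hδ64 hH hCw le_rfl hw hq.ne'
  obtain ⟨C₀, hC₀, sq⟩ := sq
  set q : ℝ := qh w 0 with hqd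
  refine ⟨min (θ₁ / 2) (1 / 32), lt_min (by positivity) (by norm_num), min_le_right _ _, ?_⟩
  intro ε hε hεθ
  have hε32 : ε ≤ 1 / 32 := hεθ.trans (min_le_right _ _)
  obtain ⟨CA, hCA, par⟩ := paren psm w D q hq hD1 rfl ε hε hε32
  refine ⟨5 * (3 * (C₂ / (2 * q)) ^ 2 * C' + 2 * (1 / (2 * q)) ^ 2 + C₀ * CA), by positivity, ?_⟩
  intro lam hlam
  have hlam0 : 0 < lam := by linarith
  have w1 : ∀ᶠ T : ℝ in atTop, 2 * Real.pi * lam + 1 ≤ Real.log T :=
    Real.tendsto_log_atTop.eventually_ge_atTop _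
  have w2 : ∀ᶠ T : ℝ in atTop, 6 * Real.log T ≤ T := by
    have h1 := Real.isLittleO_log_id_atTop.bound (c := 1 / 6) (by norm_num)
    filter_upwards [h1, eventually_ge_atTop (1 : ℝ)] with T h1 hT
    rw [Real.norm_of_nonneg (Real.log_nonneg hT), id, Real.norm_of_nonneg (by linarith)] at h1
    linarith
  filter_upwards [par lam hlam, cnt lam hlam, exp lam hlam, stm, sq, w1, w2,
    eventually_ge_atTop (16 : ℝ)] with T par cnt exp stm sq w1 w2 hT N hN hNT b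
  clear hlip heven hsupp hq0 hw omex
  have hT0 : 0 < T := by linarith
  set L : ℝ := Real.log T with hL
  set a : ℝ := 2 * Real.pi * lam with ha
  have ha0 : 0 < a := by positivity
  have hL0 : 0 < L := by linarith
  have hL1 : 1 ≤ L := by linarith
  set h : ℝ := sh lam T with hh
  have hhd : h = a / L := rfl
  have hh0 : 0 < h := by rw [hhd]; positivity
  have hh1 : h ≤ 1 := by rw [hhd, div_le_one hL0]; linarith
  set M : ℕ := ⌊T ^ (1 / 16 : ℝ)⌋₊ with hM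
  set Y : ℕ := ⌊T ^ ε⌋₊ with hY
  have hYM : Y ≤ M := Nat.floor_le_floor (Real.rpow_le_rpow_of_exponent_le (by linarith) (by linarith))
  have hM1 : 1 ≤ M := by
    apply Nat.le_floor
    rw [Nat.cast_one]
    exact Real.one_le_rpow (by linarith) (by norm_num)
  have hMT : (M : ℝ) ≤ T ^ (1 / 16 : ℝ) := Nat.floor_le (by positivity)
  have hexp1 : min (θ₁ / 2) (1 / 32) / lam ≤ 1 / 32 / lam :=
    div_le_div_of_nonneg_right (min_le_right _ _) hlam0.le
  have hexp0 : 0 ≤ min (θ₁ / 2) (1 / 32) := le_min (by positivity) (by norm_num)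
  have hexp2 : min (θ₁ / 2) (1 / 32) / lam ≤ min (θ₁ / 2) (1 / 32) := div_le_self hexp0 hlam
  have hN1 : (N : ℝ) ≤ T ^ (1 / 32 / lam) :=
    hNT.trans (Real.rpow_le_rpow_of_exponent_le (by linarith) hexp1)
  have hN2 : (N : ℝ) ≤ T ^ (θ₁ / 2) :=
    hNT.trans (Real.rpow_le_rpow_of_exponent_le (by linarith) (hexp2.trans (min_le_left _ _)))
  have hN3 : (N : ℝ) ≤ T ^ (1 / 32 : ℝ) :=
    hNT.trans (Real.rpow_le_rpow_of_exponent_le (by linarith) (hexp2.trans (min_le_right _ _)))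
  have hN4 : (N : ℝ) ≤ T ^ (1 / 4 : ℝ) :=
    hN3.trans (Real.rpow_le_rpow_of_exponent_le (by linarith) (by norm_num))
  have hNM : (N : ℝ) * M ≤ T ^ (1 / 8 : ℝ) := by
    calc (N : ℝ) * M ≤ T ^ (1 / 32 : ℝ) * T ^ (1 / 16 : ℝ) := by gcongr
      _ = T ^ (1 / 32 + 1 / 16 : ℝ) := (Real.rpow_add hT0 _ _).symm
      _ ≤ T ^ (1 / 8 : ℝ) := Real.rpow_le_rpow_of_exponent_le (by linarith) (by norm_num)
  have hN20 : 0 ≤ N2 N b := Q84.UM.N2_nonneg N b
  have hTN : 0 ≤ T * N2 N b := mul_nonneg hT0.le hN20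
  obtain ⟨-, -, hDb, hlipD, -, -, -, h0D⟩ := qlf L hL1
  have hpar := par hDb hlipD h0D N hN hN1
  have hAB : T + 3 * L ≤ 2 * T - 3 * L := by linarith
  set κ : ℝ := C₂ / (2 * q) with hκ
  -- the fifth term
  have hsq := sq N M (al w L h N Y) b (fun _ => (D / q + 1) * h) ((D / q + 1) * h) hN hM1 hNM
    (fun n => ⟨by positivity, le_rfl⟩) (fun n => al_bound w hh0.le hq hDb rfl N Y n)
  have hsq2 : ∫ t in (T / 2)..(4 * T), ‖dp M (al w L h N Y) t‖ ^ 2 * ‖dp N b t‖ ^ 2 ≤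
      C₀ * CA * (T * N2 N b) := by
    refine hsq.trans ?_
    apply mul_le_mul_of_nonneg_right _ hTN
    exact mul_le_mul_of_nonneg_left hpar (by linarith)
  -- continuity
  have hS := SS_cont (2 * δ) (T := T) (by linarith)
  have hWc : Continuous fun t => ‖dp N b t‖ ^ 2 := (Q84.UM.dp_cont N b).norm.pow 2
  have hAc : Continuous fun t => ‖dp M (al w L h N Y) t‖ ^ 2 * ‖dp N b t‖ ^ 2 :=
    ((Q84.UM.dp_cont M (al w L h N Y)).norm.pow 2).mul hWc
  have stm' : ∀ b : ℕ → ℂ, ∫ t in (T / 4)..(8 * T), SS (2 * δ) T t ^ 2 * ‖dp N b t‖ ^ 2 ≤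
      C' * T * N2 N b := stm N hN2
  -- the five integrals
  set A : ℝ := T + 3 * L with hA
  set B : ℝ := 2 * T - 3 * L with hB
  have i1 : ∫ t in A..B, SS (2 * δ) T t ^ 2 * ‖dp N b t‖ ^ 2 ≤ C' * T * N2 N b := by
    have := shiftK (by linarith) hAB N b stm' 0 (by linarith) (by linarith)
    simpa only [add_zero] using this
  have i2 : ∫ t in A..B, SS (2 * δ) T (t + h) ^ 2 * ‖dp N b t‖ ^ 2 ≤ C' * T * N2 N b :=
    shiftK (by linarith) hAB N b stm' h (by linarith) (by linarith)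
  obtain ⟨i3c, i3⟩ := fub (δ := 2 * δ) (by linarith : (1 : ℝ) ≤ T) hAB ha0.le hL0 N b stm' (by linarith)
    (by rw [← hhd]; linarith)
  have i4 : ∫ t in A..B, ‖dp N b t‖ ^ 2 ≤ 2 * T * N2 N b := by
    refine le_trans ?_ (Q84.UM.t_MVL T hT N hN4 b).2
    apply intervalIntegral.integral_mono_interval (by linarith) hAB (by linarith) _
      (hWc.intervalIntegrable _ _)
    exact Eventually.of_forall fun t => by positivity
  have i5 : ∫ t in A..B, ‖dp M (al w L h N Y) t‖ ^ 2 * ‖dp N b t‖ ^ 2 ≤ C₀ * CA * (T * N2 N b) := by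
    refine le_trans ?_ hsq2
    apply intervalIntegral.integral_mono_interval (by linarith) hAB (by linarith) _
      (hAc.intervalIntegrable _ _)
    exact Eventually.of_forall fun t => by positivity
  -- the majorant
  set G1 : ℝ → ℝ := fun t => SS (2 * δ) T t ^ 2 * ‖dp N b t‖ ^ 2 with hG1
  set G2 : ℝ → ℝ := fun t => SS (2 * δ) T (t + h) ^ 2 * ‖dp N b t‖ ^ 2 with hG2
  set G3 : ℝ → ℝ := fun t => (∫ s in (0 : ℝ)..a, SS (2 * δ) T (t + s / L) ^ 2) * ‖dp N b t‖ ^ 2 with hG3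
  set G4 : ℝ → ℝ := fun t => ‖dp N b t‖ ^ 2 with hG4
  set G5 : ℝ → ℝ := fun t => ‖dp M (al w L h N Y) t‖ ^ 2 * ‖dp N b t‖ ^ 2 with hG5
  have c1 : Continuous G1 := (hS.pow 2).mul hWc
  have c2 : Continuous G2 := ((hS.comp (continuous_id.add continuous_const)).pow 2).mul hWc
  have hmaj : ∀ t ∈ Set.Icc A B, (Real.pi * (Yt (wd a) T t - lam) - (dp Y (ah h N Y) t).im) ^ 2 *
      ‖dp N b t‖ ^ 2 ≤ 5 * (κ ^ 2 * G1 t + κ ^ 2 * G2 t + κ ^ 2 * a / L ^ 2 * G3 t +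
        (1 / (2 * q)) ^ 2 * G4 t + G5 t) := by
    intro t ht
    have h1 := cnt t ht.1 ht.2
    have h2 := exp t ht.1 ht.2
    have h3 : |(dp M (be w L h) t).im - (dp Y (ah h N Y) t).im| ≤ ‖dp M (al w L h N Y) t‖ := by
      rw [← Complex.sub_im, dp_al w L h N hYM t]
      exact Complex.abs_im_le_norm _
    have hJ : 0 ≤ ∫ s in (0 : ℝ)..a, SS (2 * δ) T (t + s / L) :=
      intervalIntegral.integral_nonneg ha0.le fun s _ => SS_nonneg _ _ _
    have h4 := ptw hq hC₂ hL0 (SS_nonneg (2 * δ) T t) (SS_nonneg (2 * δ) T (t + h)) hJ h1 h2 h3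
    have hcs := cs_int (fun s => SS (2 * δ) T (t + s / L)) (hS.comp (by fun_prop)) a ha0.le
    have h5 : κ ^ 2 / L ^ 2 * (∫ s in (0 : ℝ)..a, SS (2 * δ) T (t + s / L)) ^ 2 ≤
        κ ^ 2 * a / L ^ 2 * ∫ s in (0 : ℝ)..a, SS (2 * δ) T (t + s / L) ^ 2 := by
      calc κ ^ 2 / L ^ 2 * (∫ s in (0 : ℝ)..a, SS (2 * δ) T (t + s / L)) ^ 2 ≤
            κ ^ 2 / L ^ 2 * (a * ∫ s in (0 : ℝ)..a, SS (2 * δ) T (t + s / L) ^ 2) :=
            mul_le_mul_of_nonneg_left hcs (by positivity)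
        _ = _ := by ring
    have h6 := h4.trans (mul_le_mul_of_nonneg_left (add_le_add_left (add_le_add_left
      (add_le_add_right h5 _) _) _) (by norm_num : (0 : ℝ) ≤ 5))
    have h7 := mul_le_mul_of_nonneg_right h6 (by positivity : 0 ≤ ‖dp N b t‖ ^ 2)
    refine h7.trans (le_of_eq ?_)
    simp only [hG1, hG2, hG3, hG4, hG5]
    ring
  have cG : Continuous fun t => 5 * (κ ^ 2 * G1 t + κ ^ 2 * G2 t + κ ^ 2 * a / L ^ 2 * G3 t +
        (1 / (2 * q)) ^ 2 * G4 t + G5 t) :=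
    continuous_const.mul (((((continuous_const.mul c1).add (continuous_const.mul c2)).add
      (continuous_const.mul i3c)).add (continuous_const.mul hWc)).add hAc)
  have hI : ∫ t in A..B, 5 * (κ ^ 2 * G1 t + κ ^ 2 * G2 t + κ ^ 2 * a / L ^ 2 * G3 t +
        (1 / (2 * q)) ^ 2 * G4 t + G5 t) =
      5 * (κ ^ 2 * (∫ t in A..B, G1 t) + κ ^ 2 * (∫ t in A..B, G2 t) +
        κ ^ 2 * a / L ^ 2 * (∫ t in A..B, G3 t) + (1 / (2 * q)) ^ 2 * (∫ t in A..B, G4 t) +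
        ∫ t in A..B, G5 t) :=
    int5 G1 G2 G3 G4 G5 c1 c2 i3c hWc hAc _ _ _ _ A B
  have hfin : 5 * (κ ^ 2 * (∫ t in A..B, G1 t) + κ ^ 2 * (∫ t in A..B, G2 t) +
        κ ^ 2 * a / L ^ 2 * (∫ t in A..B, G3 t) + (1 / (2 * q)) ^ 2 * (∫ t in A..B, G4 t) +
        ∫ t in A..B, G5 t) ≤
      5 * (3 * κ ^ 2 * C' + 2 * (1 / (2 * q)) ^ 2 + C₀ * CA) * (T * N2 N b) := by
    have j1 : κ ^ 2 * (∫ t in A..B, G1 t) ≤ κ ^ 2 * (C' * T * N2 N b) :=
      mul_le_mul_of_nonneg_left i1 (by positivity)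
    have j2 : κ ^ 2 * (∫ t in A..B, G2 t) ≤ κ ^ 2 * (C' * T * N2 N b) :=
      mul_le_mul_of_nonneg_left i2 (by positivity)
    have j3 : κ ^ 2 * a / L ^ 2 * (∫ t in A..B, G3 t) ≤ κ ^ 2 * (C' * T * N2 N b) := by
      calc κ ^ 2 * a / L ^ 2 * (∫ t in A..B, G3 t) ≤ κ ^ 2 * a / L ^ 2 * (a * (C' * T * N2 N b)) :=
            mul_le_mul_of_nonneg_left i3 (by positivity)
        _ = (a / L) ^ 2 * (κ ^ 2 * (C' * T * N2 N b)) := by ring
        _ ≤ 1 * (κ ^ 2 * (C' * T * N2 N b)) := by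
            apply mul_le_mul_of_nonneg_right _ (by positivity)
            rw [← hhd]
            nlinarith
        _ = _ := one_mul _
    have j4 : (1 / (2 * q)) ^ 2 * (∫ t in A..B, G4 t) ≤ (1 / (2 * q)) ^ 2 * (2 * T * N2 N b) :=
      mul_le_mul_of_nonneg_left i4 (by positivity)
    have e : 5 * (3 * κ ^ 2 * C' + 2 * (1 / (2 * q)) ^ 2 + C₀ * CA) * (T * N2 N b) =
        5 * (κ ^ 2 * (C' * T * N2 N b) + κ ^ 2 * (C' * T * N2 N b) + κ ^ 2 * (C' * T * N2 N b) +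
          (1 / (2 * q)) ^ 2 * (2 * T * N2 N b) + C₀ * CA * (T * N2 N b)) := by ring
    rw [e]
    linarith
  by_cases hint : IntervalIntegrable (fun t => (Real.pi * (Yt (wd a) T t - lam) -
      (dp Y (ah h N Y) t).im) ^ 2 * ‖dp N b t‖ ^ 2) volume A B
  · refine (intervalIntegral.integral_mono_on hAB hint (cG.intervalIntegrable _ _) hmaj).trans ?_
    rw [hI]
    exact hfin
  · rw [intervalIntegral.integral_undef hint]
    positivity

end

end Pool.Agent.H4.MZ
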