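import Pool.Agent.H4.MZ.Stm
import Pool.Agent.H17.LG.Pro0
import Pool.Graph.R_pool_sql_team_seeded_3997aac3.Q176.UM.QH

/-!
# Project MZ, module KER: the smoothed window
-/

set_option autoImplicit false

namespace Pool.Agent.H4.MZ

open Filter Topology MeasureTheory Complex
open scoped ComplexConjugate
open Pool.Agent.Q97.UM

/-- the weight `(1 + |u|)^(-2)` is integrable -/
theorem wt_int : Integrable (fun u : ℝ => (1 + ‖u‖) ^ (-(2 : ℝ))) :=
  integrable_one_add_norm (by rw [Module.finrank_self]; norm_num)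

theorem wt_eq (u : ℝ) : (1 + ‖u‖) ^ (-(2 : ℝ)) = 1 / (1 + |u|) ^ 2 := by
  have h : 0 ≤ 1 + |u| := by positivity
  rw [Real.norm_eq_abs, Real.rpow_neg h, one_div]
  congr 1
  exact_mod_cast Real.rpow_natCast (1 + |u|) 2

theorem tail_bd (g : ℝ → ℂ) (hg : Continuous g) (A : ℝ) (hA : 0 ≤ A)
    (hb : ∀ u : ℝ, ‖g u‖ ≤ A / (1 + |u|) ^ 4) (S : Set ℝ) (hS : MeasurableSet S) (X : ℝ)
    (hX : ∀ u ∈ S, |X| ≤ |u|) :
    ‖∫ u in S, g u‖ ≤ A * (∫ u : ℝ, (1 + ‖u‖) ^ (-(2 : ℝ))) * (1 / (1 + |X|) ^ 2) := by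
  have h0 : ∀ u : ℝ, 0 ≤ (1 + ‖u‖) ^ (-(2 : ℝ)) := fun u => by positivity
  have h1 : ∀ u ∈ S, ‖g u‖ ≤ A * (1 / (1 + |X|) ^ 2) * (1 + ‖u‖) ^ (-(2 : ℝ)) := by
    intro u hu
    refine (hb u).trans ?_
    rw [wt_eq]
    have h2 : 1 + |X| ≤ 1 + |u| := by linarith [hX u hu]
    have h3 : (1 + |X|) ^ 2 ≤ (1 + |u|) ^ 2 := pow_le_pow_left₀ (by positivity) h2 2
    have h4 : A / (1 + |u|) ^ 4 = A * (1 / (1 + |u|) ^ 2) * (1 / (1 + |u|) ^ 2) := by
      field_simp
    rw [h4]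
    refine mul_le_mul_of_nonneg_right (mul_le_mul_of_nonneg_left ?_ hA) (by positivity)
    exact one_div_le_one_div_of_le (by positivity) h3
  calc ‖∫ u in S, g u‖ ≤ ∫ u in S, A * (1 / (1 + |X|) ^ 2) * (1 + ‖u‖) ^ (-(2 : ℝ)) := by
        refine norm_integral_le_of_norm_le (wt_int.const_mul _).integrableOn ?_
        exact (ae_restrict_iff' hS).mpr (Eventually.of_forall h1)
    _ ≤ ∫ u : ℝ, A * (1 / (1 + |X|) ^ 2) * (1 + ‖u‖) ^ (-(2 : ℝ)) := by
        refine setIntegral_le_integral (wt_int.const_mul _) (Eventually.of_forall fun u => ?_)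
        exact mul_nonneg (by positivity) (h0 u)
    _ = A * (∫ u : ℝ, (1 + ‖u‖) ^ (-(2 : ℝ))) * (1 / (1 + |X|) ^ 2) := by
        rw [integral_const_mul]
        ring

theorem ker_core (g : ℂ → ℂ) (hg : Differentiable ℂ g) (A δ : ℝ) (hA : 0 ≤ A) (hδ : 0 < δ)
    (hb : ∀ z : ℂ, ‖g z‖ ≤ A * Real.exp (2 * δ * |z.im|) / (1 + |z.re|) ^ 4) (J : ℂ)
    (hJ : ∫ u : ℝ, g u = J) :
    ∃ C₁ : ℝ, 0 ≤ C₁ ∧ ∀ a : ℝ, 0 ≤ a → ∀ x y : ℝ,
      ‖(∫ s in (0 : ℝ)..a, g (((x - s : ℝ) : ℂ) + y * I)) - (if 0 < x ∧ x ≤ a then J else 0)‖ ≤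
        C₁ * Real.exp (4 * δ * |y|) * (1 / (1 + |x|) ^ 2 + 1 / (1 + |x - a|) ^ 2) := by
  have hgc : Continuous g := hg.continuous
  have hgr : Continuous (fun u : ℝ => g u) := hgc.comp Complex.continuous_ofReal
  have hbr : ∀ u : ℝ, ‖g u‖ ≤ A / (1 + |u|) ^ 4 := by
    intro u
    have := hb u
    rw [Complex.ofReal_im, Complex.ofReal_re, abs_zero, mul_zero, Real.exp_zero, mul_one] at this
    exact this
  obtain ⟨D, hD⟩ : ∃ D : ℝ, D = ∫ u : ℝ, (1 + ‖u‖) ^ (-(2 : ℝ)) := ⟨_, rfl⟩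
  have hD0 : 0 ≤ D := by
    rw [hD]
    exact integral_nonneg fun u => by positivity
  have hint : Integrable (fun u : ℝ => g u) := by
    refine (wt_int.const_mul A).mono' hgr.aestronglyMeasurable (Eventually.of_forall fun u => ?_)
    refine (hbr u).trans ?_
    rw [wt_eq, mul_one_div]
    refine div_le_div_of_nonneg_left hA (by positivity) ?_
    exact pow_le_pow_right₀ (by linarith [abs_nonneg u]) (by norm_num)
  -- the primitive
  have hPhi : ∀ X : ℝ, ‖(∫ u in Set.Iic X, g u) - (if 0 < X then J else 0)‖ ≤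
      A * D * (1 / (1 + |X|) ^ 2) := by
    intro X
    rcases lt_or_ge 0 X with hX | hX
    · rw [if_pos hX]
      have h1 : (∫ u in Set.Iic X, g u) + ∫ u in Set.Ioi X, g u = J := by
        rw [← hJ]
        exact intervalIntegral.integral_Iic_add_Ioi hint.integrableOn hint.integrableOn
      have h2 : (∫ u in Set.Iic X, g u) - J = -∫ u in Set.Ioi X, g u := by
        rw [← h1]
        ring
      rw [h2, norm_neg, hD]
      refine tail_bd (fun u : ℝ => g u) hgr A hA hbr _ measurableSet_Ioi X fun u hu => ?_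
      rw [abs_of_pos hX]
      exact (le_of_lt hu).trans (le_abs_self u)
    · rw [if_neg (not_lt.mpr hX), sub_zero, hD]
      refine tail_bd (fun u : ℝ => g u) hgr A hA hbr _ measurableSet_Iic X fun u hu => ?_
      have h3 : u ≤ X := hu
      rw [abs_of_nonpos hX, abs_of_nonpos (h3.trans hX)]
      linarith
  -- the vertical sides
  have hver : ∀ X y : ℝ, ‖∫ η in (0 : ℝ)..y, g ((X : ℂ) + η * I)‖ ≤
      A * δ⁻¹ * Real.exp (4 * δ * |y|) * (1 / (1 + |X|) ^ 2) := by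
    intro X y
    have h1 : ∀ η ∈ Set.uIoc (0 : ℝ) y, ‖g ((X : ℂ) + η * I)‖ ≤
        A * Real.exp (2 * δ * |y|) * (1 / (1 + |X|) ^ 2) := by
      intro η hη
      have h2 : |η| ≤ |y| := by
        have := Set.abs_sub_left_of_mem_uIcc (Set.uIoc_subset_uIcc hη)
        simpa using this
      have h3 := hb ((X : ℂ) + η * I)
      have e1 : ((X : ℂ) + η * I).im = η := by simp
      have e2 : ((X : ℂ) + η * I).re = X := by simp
      rw [e1, e2] at h3
      refine h3.trans ?_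
      rw [mul_one_div]
      have h4 : Real.exp (2 * δ * |η|) ≤ Real.exp (2 * δ * |y|) :=
        Real.exp_le_exp.mpr (mul_le_mul_of_nonneg_left h2 (by positivity))
      refine div_le_div₀ (by positivity) (mul_le_mul_of_nonneg_left h4 hA) (by positivity) ?_
      exact pow_le_pow_right₀ (by linarith [abs_nonneg X]) (by norm_num)
    have h5 := intervalIntegral.norm_integral_le_of_norm_le_const h1
    rw [sub_zero] at h5
    refine h5.trans ?_
    have h6 : |y| ≤ δ⁻¹ * Real.exp (2 * δ * |y|) := by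
      have h7 : δ * |y| ≤ Real.exp (2 * δ * |y|) := by
        have h8 := Real.add_one_le_exp (2 * δ * |y|)
        have h9 : 0 ≤ δ * |y| := by positivity
        linarith
      calc |y| = δ⁻¹ * (δ * |y|) := by field_simp
        _ ≤ _ := mul_le_mul_of_nonneg_left h7 (by positivity)
    have h10 : Real.exp (4 * δ * |y|) = Real.exp (2 * δ * |y|) * Real.exp (2 * δ * |y|) := by
      rw [← Real.exp_add]
      congr 1
      ring
    calc A * Real.exp (2 * δ * |y|) * (1 / (1 + |X|) ^ 2) * |y| ≤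
        A * Real.exp (2 * δ * |y|) * (1 / (1 + |X|) ^ 2) * (δ⁻¹ * Real.exp (2 * δ * |y|)) :=
          mul_le_mul_of_nonneg_left h6 (by positivity)
      _ = _ := by rw [h10]; ring
  refine ⟨A * D + A * δ⁻¹, by positivity, fun a ha x y => ?_⟩
  have e1 : ∫ s in (0 : ℝ)..a, g (((x - s : ℝ) : ℂ) + y * I) =
      ∫ u in (x - a)..x, g ((u : ℂ) + y * I) := by
    have := intervalIntegral.integral_comp_sub_left (a := 0) (b := a)
      (fun u : ℝ => g ((u : ℂ) + y * I)) x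
    rw [sub_zero] at this
    exact this
  have e2 := Complex.integral_boundary_rect_eq_zero_of_differentiableOn g (((x - a : ℝ) : ℂ))
    ((x : ℂ) + y * I) hg.differentiableOn
  simp only [Complex.ofReal_re, Complex.ofReal_im, Complex.add_re, Complex.add_im, Complex.mul_re,
    Complex.mul_im, Complex.I_re, Complex.I_im, mul_zero, mul_one, sub_zero, add_zero, zero_add,
    Complex.ofReal_zero, zero_mul, smul_eq_mul] at e2
  have e3 : ∫ u in (x - a)..x, g (u : ℂ) = (∫ u in Set.Iic x, g u) - ∫ u in Set.Iic (x - a), g u :=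
    (intervalIntegral.integral_Iic_sub_Iic hint.integrableOn hint.integrableOn).symm
  have e4 : (if 0 < x ∧ x ≤ a then J else 0) = (if 0 < x then J else 0) -
      (if 0 < x - a then J else 0) := by
    by_cases h1 : 0 < x
    · by_cases h2 : x ≤ a
      · rw [if_pos ⟨h1, h2⟩, if_pos h1, if_neg (by linarith), sub_zero]
      · rw [if_neg (fun h => h2 h.2), if_pos h1, if_pos (by linarith [not_le.mp h2]), sub_self]
    · rw [if_neg (fun h => h1 h.1), if_neg h1, if_neg (by linarith [not_lt.mp h1]), sub_zero]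
  obtain ⟨P1, hP1⟩ : ∃ P, P = (∫ u in Set.Iic x, g u) - (if 0 < x then J else 0) := ⟨_, rfl⟩
  obtain ⟨P2, hP2⟩ : ∃ P, P = (∫ u in Set.Iic (x - a), g u) - (if 0 < x - a then J else 0) :=
    ⟨_, rfl⟩
  obtain ⟨V1, hV1⟩ : ∃ V, V = ∫ η in (0 : ℝ)..y, g ((x : ℂ) + η * I) := ⟨_, rfl⟩
  obtain ⟨V2, hV2⟩ : ∃ V, V = ∫ η in (0 : ℝ)..y, g (((x - a : ℝ) : ℂ) + η * I) := ⟨_, rfl⟩
  have b1 : ‖P1‖ ≤ A * D * (1 / (1 + |x|) ^ 2) := by rw [hP1]; exact hPhi x
  have b2 : ‖P2‖ ≤ A * D * (1 / (1 + |x - a|) ^ 2) := by rw [hP2]; exact hPhi (x - a)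
  have b3 : ‖V1‖ ≤ A * δ⁻¹ * Real.exp (4 * δ * |y|) * (1 / (1 + |x|) ^ 2) := by
    rw [hV1]; exact hver x y
  have b4 : ‖V2‖ ≤ A * δ⁻¹ * Real.exp (4 * δ * |y|) * (1 / (1 + |x - a|) ^ 2) := by
    rw [hV2]; exact hver (x - a) y
  have e5 : (∫ s in (0 : ℝ)..a, g (((x - s : ℝ) : ℂ) + y * I)) -
      (if 0 < x ∧ x ≤ a then J else 0) = P1 - P2 + I * V1 - I * V2 := by
    rw [e1, e4, hP1, hP2, hV1, hV2]
    rw [e3] at e2
    linear_combination -e2
  rw [e5]
  have hE : 1 ≤ Real.exp (4 * δ * |y|) := Real.one_le_exp (by positivity)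
  have n1 := norm_sub_le (P1 - P2 + I * V1) (I * V2)
  have n2 := norm_add_le (P1 - P2) (I * V1)
  have n3 := norm_sub_le P1 P2
  rw [norm_mul, Complex.norm_I, one_mul] at n1 n2
  have c1 : A * D * (1 / (1 + |x|) ^ 2) ≤
      A * D * Real.exp (4 * δ * |y|) * (1 / (1 + |x|) ^ 2) := by
    refine mul_le_mul_of_nonneg_right ?_ (by positivity)
    exact le_mul_of_one_le_right (by positivity) hE
  have c2 : A * D * (1 / (1 + |x - a|) ^ 2) ≤
      A * D * Real.exp (4 * δ * |y|) * (1 / (1 + |x - a|) ^ 2) := by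
    refine mul_le_mul_of_nonneg_right ?_ (by positivity)
    exact le_mul_of_one_le_right (by positivity) hE
  calc _ ≤ A * D * Real.exp (4 * δ * |y|) * (1 / (1 + |x|) ^ 2) +
        A * D * Real.exp (4 * δ * |y|) * (1 / (1 + |x - a|) ^ 2) +
        A * δ⁻¹ * Real.exp (4 * δ * |y|) * (1 / (1 + |x|) ^ 2) +
        A * δ⁻¹ * Real.exp (4 * δ * |y|) * (1 / (1 + |x - a|) ^ 2) := by linarith
    _ = _ := by ring

theorem one_add_le (H x : ℝ) (hH : 1 ≤ H) :
    1 + |x| ≤ (1 + H) * (1 + Pool.Agent.H17.LG.mm H x) := by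
  unfold Pool.Agent.H17.LG.mm
  have h1 : |x| - H ≤ max 0 (|x| - H) := le_max_right _ _
  have h2 : 0 ≤ max 0 (|x| - H) := le_max_left _ _
  nlinarith

theorem t_KER : S_KER := by
  intro δ H C K w hδ hδ1 hH hC hK hw
  have hcw : Continuous w := Pool.Agent.H17.LG.w_cont hw
  have hcp : Pool.Agent.Q176.UM.Cp δ w := ⟨hcw, hw.supp⟩
  obtain ⟨a1, a2⟩ := Pool.Agent.Q176.UM.planch hcp
  have hq0 : qh w 0 = ∫ v, w v ^ 2 := by
    unfold qh
    congr 1
    funext s
    rw [zero_sub, hw.even, pow_two]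
  have hre : ∀ x : ℝ, om w x ^ 2 = ((‖om w x‖ ^ 2 : ℝ) : ℂ) := by
    intro x
    have h1 : om w x = ((om w x).re : ℂ) := by
      apply Complex.ext
      · simp
      · simp [(hw.unit x).1]
    have h2 : ‖om w x‖ = |(om w x).re| := by
      nth_rewrite 1 [h1]
      rw [Complex.norm_real, Real.norm_eq_abs]
    rw [h2, sq_abs]
    nth_rewrite 1 [h1]
    push_cast
    rfl
  have hJ : ∫ u : ℝ, om w u ^ 2 = ((2 * Real.pi * qh w 0 : ℝ) : ℂ) := by
    simp_rw [hre]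
    rw [integral_complex_ofReal, a2, hq0]
  refine ker_core (fun z => om w z ^ 2) ((Pool.Agent.H17.LG.om_diff hδ1 hw).pow 2)
    (4 * C ^ 2 * (1 + H) ^ 4) δ (by positivity) hδ (fun z => ?_) _ hJ
  have h1 := Pool.Agent.H17.LG.om_sq_bound hδ hC hK hw z
  have h2 := one_add_le H z.re hH
  have h3 := Pool.Agent.H17.LG.mm_nonneg H z.re
  rw [norm_pow]
  refine h1.trans ?_
  rw [div_le_div_iff₀ (by positivity) (by positivity)]
  have h4 : (1 + |z.re|) ^ 4 ≤ ((1 + H) * (1 + Pool.Agent.H17.LG.mm H z.re)) ^ 4 :=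
    pow_le_pow_left₀ (by positivity) h2 4
  calc 4 * C ^ 2 * Real.exp (2 * δ * |z.im|) * (1 + |z.re|) ^ 4 ≤
      4 * C ^ 2 * Real.exp (2 * δ * |z.im|) * ((1 + H) * (1 + Pool.Agent.H17.LG.mm H z.re)) ^ 4 :=
        mul_le_mul_of_nonneg_left h4 (by positivity)
    _ = _ := by ring

end Pool.Agent.H4.MZ
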