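import Pool.Agent.H4.MZ.Stm

set_option autoImplicit false

/-! Project MZ, part LEV (helper99): the continuity theorem of Levy for the standard complex Gaussian law, in uniform form. -/

namespace Pool.Agent.H4.MZ

open Filter Topology MeasureTheory Complex ProbabilityTheory
open scoped ComplexConjugate

noncomputable section

/-- the law of `x + iy` for independent standard normal `x`, `y` -/
def gam : Measure ℂ := ((gaussianReal 0 1).prod (gaussianReal 0 1)).map Complex.measurableEquivRealProd.symm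

instance gam_prob : IsProbabilityMeasure gam := by
  unfold gam
  exact Measure.isProbabilityMeasure_map (Complex.measurableEquivRealProd.symm.measurable.aemeasurable)

theorem charFun_gam (z : ℂ) : charFun gam z = ((Real.exp (-(‖z‖ ^ 2 / 2)) : ℝ) : ℂ) := by
  rw [charFun_apply, gam, integral_map_equiv]
  have h1 : ∀ p : ℝ × ℝ, cexp (((inner ℝ (Complex.measurableEquivRealProd.symm p) z : ℝ) : ℂ) * I) =
      cexp (z.re * p.1 * I) * cexp (z.im * p.2 * I) := by
    intro p
    rw [← Complex.exp_add, Complex.inner]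
    congr 1
    simp only [Complex.measurableEquivRealProd_symm_apply, Complex.mul_re, Complex.conj_re, Complex.conj_im]
    push_cast
    ring
  simp_rw [h1]
  rw [integral_prod_mul (fun x : ℝ => cexp (z.re * x * I)) (fun y : ℝ => cexp (z.im * y * I)),
    ← charFun_apply_real, ← charFun_apply_real, charFun_gaussianReal, charFun_gaussianReal, ← Complex.exp_add, Complex.ofReal_exp]
  congr 1
  have h2 : ‖z‖ ^ 2 = z.re ^ 2 + z.im ^ 2 := by
    rw [Complex.sq_norm, Complex.normSq_apply]; ring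
  rw [h2]
  push_cast
  ring

theorem gam_box (J J' : Set ℝ) : gam {w : ℂ | w.re ∈ J ∧ w.im ∈ J'} = gaussianReal 0 1 J * gaussianReal 0 1 J' := by
  rw [gam, MeasurableEquiv.map_apply, ← Measure.prod_prod]
  congr 1

theorem gauss_frontier (J : Set ℝ) (hJ : J.OrdConnected) : gaussianReal 0 1 (frontier J) = 0 := by
  refine gaussianReal_absolutelyContinuous 0 one_ne_zero ?_
  exact hJ.convex.addHaar_frontier volume

theorem gam_frontier (J J' : Set ℝ) (hJ : J.OrdConnected) (hJ' : J'.OrdConnected) :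
    gam (frontier {w : ℂ | w.re ∈ J ∧ w.im ∈ J'}) = 0 := by
  have h1 : {w : ℂ | w.re ∈ J ∧ w.im ∈ J'} = J ×ℂ J' := rfl
  rw [h1, Complex.frontier_reProdIm]
  refine measure_union_null ?_ ?_
  · have h2 : (closure J ×ℂ frontier J') = {w : ℂ | w.re ∈ closure J ∧ w.im ∈ frontier J'} := rfl
    rw [h2, gam_box, gauss_frontier J' hJ', mul_zero]
  · have h2 : (frontier J ×ℂ closure J') = {w : ℂ | w.re ∈ frontier J ∧ w.im ∈ closure J'} := rfl
    rw [h2, gam_box, gauss_frontier J hJ, zero_mul]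

theorem t_LEV : S_LEV := by
  intro J J' hJ hJ' ε hε
  by_contra hcon
  push Not at hcon
  have h1 : ∀ n : ℕ, ∃ μ : Measure ℂ, IsProbabilityMeasure μ ∧
      (∀ z : ℂ, ‖z‖ ≤ (n : ℝ) + 1 → ‖(∫ w, cexp (I * (((conj z * w).re : ℝ) : ℂ)) ∂μ) - ((Real.exp (-(‖z‖ ^ 2 / 2)) : ℝ) : ℂ)‖ ≤ 1 / ((n : ℝ) + 1)) ∧
      ε < |μ.real {w | w.re ∈ J ∧ w.im ∈ J'} - (gaussianReal 0 1).real J * (gaussianReal 0 1).real J'| := fun n =>
    hcon ((n : ℝ) + 1) (1 / ((n : ℝ) + 1)) (by positivity) (by positivity)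
  choose μ hμ hμ1 hμ2 using h1
  let M : ℕ → ProbabilityMeasure ℂ := fun n => ⟨μ n, hμ n⟩
  let G : ProbabilityMeasure ℂ := ⟨gam, gam_prob⟩
  have hch : ∀ t : ℂ, Tendsto (fun n => charFun ((M n : ProbabilityMeasure ℂ) : Measure ℂ) t) atTop (𝓝 (charFun (G : Measure ℂ) t)) := by
    intro t
    rw [tendsto_iff_norm_sub_tendsto_zero]
    refine squeeze_zero' (Eventually.of_forall fun _ => norm_nonneg _) ?_ tendsto_one_div_add_atTop_nhds_zero_nat
    filter_upwards [eventually_ge_atTop ⌈‖t‖⌉₊] with n hn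
    have h3 : ‖t‖ ≤ (n : ℝ) + 1 := by
      have := Nat.le_of_ceil_le hn
      linarith
    have h4 := hμ1 n t h3
    have h5 : charFun ((M n : ProbabilityMeasure ℂ) : Measure ℂ) t = ∫ w, cexp (I * (((conj t * w).re : ℝ) : ℂ)) ∂(μ n) := by
      rw [charFun_apply]
      refine integral_congr_ae (Eventually.of_forall fun w => ?_)
      simp only [Complex.inner]
      congr 1
      simp only [Complex.mul_re, Complex.conj_re, Complex.conj_im]
      push_cast
      ring
    have h6 : charFun (G : Measure ℂ) t = ((Real.exp (-(‖t‖ ^ 2 / 2)) : ℝ) : ℂ) := charFun_gam t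
    rw [h5, h6]
    exact h4
  have hw : Tendsto M atTop (𝓝 G) := ProbabilityMeasure.tendsto_of_tendsto_charFun hch
  have hS := ProbabilityMeasure.tendsto_measure_of_null_frontier_of_tendsto' hw (E := {w : ℂ | w.re ∈ J ∧ w.im ∈ J'})
    (gam_frontier J J' hJ hJ')
  have hS2 : Tendsto (fun n => (μ n).real {w : ℂ | w.re ∈ J ∧ w.im ∈ J'}) atTop (𝓝 (gam.real {w : ℂ | w.re ∈ J ∧ w.im ∈ J'})) :=
    (ENNReal.tendsto_toReal (measure_ne_top gam _)).comp hS
  have hS3 : gam.real {w : ℂ | w.re ∈ J ∧ w.im ∈ J'} = (gaussianReal 0 1).real J * (gaussianReal 0 1).real J' := by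
    rw [Measure.real, gam_box, ENNReal.toReal_mul]
    rfl
  rw [hS3, tendsto_iff_norm_sub_tendsto_zero] at hS2
  have h7 := hS2.eventually (gt_mem_nhds hε)
  obtain ⟨n, hn⟩ := h7.exists
  have h8 := hμ2 n
  rw [Real.norm_eq_abs] at hn
  linarith

end

end Pool.Agent.H4.MZ
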