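import Pool.Agent.H4.MZ.Stm
import Pool.Graph.R_seed8.Erdos456.Mertens

set_option autoImplicit false

/-! Project MZ, part PSM (helper99): prime sums. -/

namespace Pool.Agent.H4.MZ

open Filter Topology

noncomputable section

/-- the reciprocals of the primes, from `2` on -/
theorem psm_inv : ∃ C : ℝ, 0 ≤ C ∧ ∀ N : ℕ, 2 ≤ N →
    |∑ p ∈ (Finset.Icc 1 N).filter Nat.Prime, (1 : ℝ) / p - Real.log (Real.log N)| ≤ C := by
  obtain ⟨C, hC⟩ := Pool.Agent.Erdos456.Mert.mertens_inv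
  refine ⟨max C (|∑ p ∈ (Finset.Icc 1 2).filter Nat.Prime, (1 : ℝ) / p - Real.log (Real.log (2 : ℕ))|),
    le_max_of_le_right (abs_nonneg _), fun N hN => ?_⟩
  rcases Nat.lt_or_ge 2 N with h | h
  · exact (hC N h).trans (le_max_left _ _)
  · have : N = 2 := le_antisymm h hN
    subst this
    exact le_max_right _ _

theorem t_PSM : S_PSM := by
  obtain ⟨C₁, hC₁⟩ := Pool.Agent.Erdos456.Mert.mertens_log
  obtain ⟨C₂, hC₂0, hC₂⟩ := psm_inv
  have hC₁0 : 0 ≤ C₁ := (abs_nonneg _).trans (hC₁ 1 le_rfl)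
  have hl2 : 0 < Real.log 2 := Real.log_pos (by norm_num)
  have hq : 0 ≤ C₁ / Real.log 2 := by positivity
  refine ⟨1 + C₁ / Real.log 2 + 2 * C₂ + Real.log 2, by linarith, fun x hx => ?_⟩
  have hx0 : 0 < x := by linarith
  have hlx : Real.log 2 ≤ Real.log x := Real.log_le_log (by norm_num) hx
  have hlx0 : 0 < Real.log x := by linarith
  have hN2 : 2 ≤ ⌊x⌋₊ := Nat.le_floor (by exact_mod_cast hx)
  have hNx : (⌊x⌋₊ : ℝ) ≤ x := Nat.floor_le hx0.le
  have hN0 : (0 : ℝ) < ⌊x⌋₊ := by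
    have : (2 : ℝ) ≤ ⌊x⌋₊ := by exact_mod_cast hN2
    linarith
  have h1 : ∑ p ∈ (Finset.Icc 1 ⌊x⌋₊).filter Nat.Prime, Real.log p / p ≤ (1 + C₁ / Real.log 2) * Real.log x := by
    have h := (abs_le.1 (hC₁ ⌊x⌋₊ (by omega))).2
    have h2 : Real.log (⌊x⌋₊ : ℝ) ≤ Real.log x := Real.log_le_log hN0 hNx
    have h3 : C₁ ≤ C₁ / Real.log 2 * Real.log x := by
      calc C₁ = C₁ / Real.log 2 * Real.log 2 := by field_simp
        _ ≤ C₁ / Real.log 2 * Real.log x := mul_le_mul_of_nonneg_left hlx hq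
    linarith
  refine ⟨?_, ?_, ?_⟩
  · refine h1.trans (mul_le_mul_of_nonneg_right ?_ hlx0.le)
    linarith
  · calc ∑ p ∈ (Finset.Icc 1 ⌊x⌋₊).filter Nat.Prime, Real.log p ^ 2 / p
        ≤ ∑ p ∈ (Finset.Icc 1 ⌊x⌋₊).filter Nat.Prime, Real.log x * (Real.log p / p) := by
          refine Finset.sum_le_sum fun p hp => ?_
          rw [Finset.mem_filter, Finset.mem_Icc] at hp
          have hp0 : (0 : ℝ) < p := by exact_mod_cast hp.2.pos
          have hpx : Real.log p ≤ Real.log x := by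
            refine Real.log_le_log hp0 (le_trans ?_ hNx)
            exact_mod_cast hp.1.2
          have hp1 : 0 ≤ Real.log p := Real.log_natCast_nonneg p
          rw [pow_two, mul_div_assoc]
          exact mul_le_mul_of_nonneg_right hpx (by positivity)
      _ = Real.log x * ∑ p ∈ (Finset.Icc 1 ⌊x⌋₊).filter Nat.Prime, Real.log p / p := by rw [Finset.mul_sum]
      _ ≤ Real.log x * ((1 + C₁ / Real.log 2) * Real.log x) := mul_le_mul_of_nonneg_left h1 hlx0.le
      _ = (1 + C₁ / Real.log 2) * Real.log x ^ 2 := by ring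
      _ ≤ (1 + C₁ / Real.log 2 + 2 * C₂ + Real.log 2) * Real.log x ^ 2 := by
          refine mul_le_mul_of_nonneg_right ?_ (by positivity)
          linarith
  · intro y hy hyx
    have hy0 : 0 < y := by linarith
    have hly : 0 < Real.log y := Real.log_pos (by linarith)
    have hM2 : 2 ≤ ⌊y⌋₊ := Nat.le_floor (by exact_mod_cast hy)
    have hMN : ⌊y⌋₊ ≤ ⌊x⌋₊ := Nat.floor_mono hyx
    have hM2' : (2 : ℝ) ≤ ⌊y⌋₊ := by exact_mod_cast hM2
    have hsplit : ∑ p ∈ (Finset.Icc 1 ⌊x⌋₊).filter Nat.Prime, (1 : ℝ) / p =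
        ∑ p ∈ (Finset.Icc 1 ⌊x⌋₊).filter (fun p => p.Prime ∧ ⌊y⌋₊ < p), (1 : ℝ) / p +
        ∑ p ∈ (Finset.Icc 1 ⌊y⌋₊).filter Nat.Prime, (1 : ℝ) / p := by
      rw [← Finset.sum_filter_add_sum_filter_not ((Finset.Icc 1 ⌊x⌋₊).filter Nat.Prime) (fun p => ⌊y⌋₊ < p)]
      rw [Finset.filter_filter, Finset.filter_filter]
      congr 1
      refine Finset.sum_congr ?_ fun _ _ => rfl
      ext p
      simp only [Finset.mem_filter, Finset.mem_Icc]
      constructor
      · rintro ⟨⟨a, b⟩, c, d⟩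
        exact ⟨⟨a, by omega⟩, c⟩
      · rintro ⟨⟨a, b⟩, c⟩
        exact ⟨⟨a, by omega⟩, c, by omega⟩
    have hX := (abs_le.1 (hC₂ ⌊x⌋₊ hN2)).2
    have hY := (abs_le.1 (hC₂ ⌊y⌋₊ hM2)).1
    have hLx : Real.log (Real.log (⌊x⌋₊ : ℝ)) ≤ Real.log (Real.log x) := by
      refine Real.log_le_log ?_ (Real.log_le_log hN0 hNx)
      refine Real.log_pos ?_
      have : (2 : ℝ) ≤ ⌊x⌋₊ := by exact_mod_cast hN2
      linarith
    have hLy : Real.log (Real.log y) - Real.log 2 ≤ Real.log (Real.log (⌊y⌋₊ : ℝ)) := by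
      rw [← Real.log_div hly.ne' (by norm_num)]
      refine Real.log_le_log (by positivity) ?_
      have h4 : y ≤ (⌊y⌋₊ : ℝ) ^ 2 := by
        have := Nat.lt_floor_add_one y
        nlinarith
      have h5 := Real.log_le_log hy0 h4
      rw [Real.log_pow] at h5
      push_cast at h5
      linarith
    rw [Real.log_div hlx0.ne' hly.ne']
    linarith

end

end Pool.Agent.H4.MZ
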