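import Pool.Agent.H4.MZ.RealA

set_option autoImplicit false

/-!
Project MZ (helper4), module REAL: the real part (helper11).
-/

namespace Pool.Agent.H4.MZ

open Filter Topology MeasureTheory Complex
open Pool.Agent.Q97.UM

noncomputable section

theorem zt_cont' : Continuous zt := by
  unfold zt
  rw [continuous_iff_continuousAt]
  intro t
  have h1 : DifferentiableAt ℂ riemannZeta (1 / 2 + t * I) := by
    apply differentiableAt_riemannZeta
    intro h
    have := congrArg Complex.re h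
    simp at this
  exact ContinuousAt.comp (f := fun t : ℝ => (1 / 2 + t * I : ℂ)) h1.continuousAt (by fun_prop)

theorem N2_nonneg' (N : ℕ) (b : ℕ → ℂ) : 0 ≤ N2 N b := by
  unfold N2
  exact Finset.sum_nonneg (fun n _ => by positivity)

theorem four_sq (a b c d : ℝ) : (a - b + c + d) ^ 2 ≤ 4 * (a ^ 2 + b ^ 2 + c ^ 2 + d ^ 2) := by
  nlinarith [sq_nonneg (a + b), sq_nonneg (a - c), sq_nonneg (a - d), sq_nonneg (b + c), sq_nonneg (b + d),
    sq_nonneg (c - d)]

/-- the integral -/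
theorem real_int (T h CE C1 K : ℝ) (N X Y : ℕ) (b : ℕ → ℂ) (hT : 16 ≤ T) (hh0 : 0 ≤ h) (hh1 : h ≤ 1)
    (hYX : Y ≤ X) (hN : (N : ℝ) ≤ T ^ (1 / 4 : ℝ)) (hCE : 0 ≤ CE)
    (hEU : ∀ t : ℝ, |EP X t - (dp X lamL t).re| ≤ CE)
    (hTHP : ∀ b : ℕ → ℂ, IntervalIntegrable (fun t => |Real.log ‖zt t‖ - EP X t| ^ 2 * ‖dp N b t‖ ^ 2) volume (T / 2) (4 * T) ∧
      ∫ t in (T / 2)..(4 * T), |Real.log ‖zt t‖ - EP X t| ^ 2 * ‖dp N b t‖ ^ 2 ≤ C1 * T * N2 N b)
    (hSQ : ∫ t in (T / 2)..(4 * T), ‖dp X (al h N Y) t‖ ^ 2 * ‖dp N b t‖ ^ 2 ≤ K * (T * N2 N b)) :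
    IntervalIntegrable (fun t => |Real.log ‖zt (t + h)‖ - Real.log ‖zt t‖ - (dp Y (ah h N Y) t).re| ^ 2 * ‖dp N b t‖ ^ 2)
      volume T (2 * T) ∧
    ∫ t in T..(2 * T), |Real.log ‖zt (t + h)‖ - Real.log ‖zt t‖ - (dp Y (ah h N Y) t).re| ^ 2 * ‖dp N b t‖ ^ 2 ≤
      4 * (2 * C1 + K + 8 * CE ^ 2) * (T * N2 N b) := by
  obtain ⟨-, hD2, hD3⟩ := Pool.Agent.Q84.UM.t_DPM
  have hcont : ∀ (M : ℕ) (c : ℕ → ℂ), Continuous (dp M c) := fun M c => (hD3 M c 0).2
  let b' : ℕ → ℂ := fun n => b n * (n : ℂ) ^ (h * I)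
  have hb' : ∀ t, dp N b' (t + h) = dp N b t := by
    intro t
    have := (hD2 N b (t + h) h).1
    rw [add_sub_cancel_right] at this
    exact this.symm
  have hb2 : N2 N b' = N2 N b := (hD2 N b 0 h).2
  let G : (ℕ → ℂ) → ℝ → ℝ := fun b t => |Real.log ‖zt t‖ - EP X t| ^ 2 * ‖dp N b t‖ ^ 2
  have hG0 : ∀ b t, 0 ≤ G b t := fun b t => by positivity
  have hG : ∀ b, IntervalIntegrable (G b) volume (T / 2) (4 * T) ∧
      ∫ t in (T / 2)..(4 * T), G b t ≤ C1 * T * N2 N b := hTHP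
  -- restrict
  have hres : ∀ (f : ℝ → ℝ) (u v : ℝ), (∀ t, 0 ≤ f t) → IntervalIntegrable f volume (T / 2) (4 * T) →
      T / 2 ≤ u → u ≤ v → v ≤ 4 * T → IntervalIntegrable f volume u v ∧
      ∫ t in u..v, f t ≤ ∫ t in (T / 2)..(4 * T), f t := by
    intro f u v hf hfi h1 h2 h3
    refine ⟨hfi.mono_set ?_, ?_⟩
    · rw [Set.uIcc_of_le h2, Set.uIcc_of_le (by linarith)]
      exact Set.Icc_subset_Icc h1 h3
    · exact intervalIntegral.integral_mono_interval h1 h2 h3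
        (Filter.Eventually.of_forall (fun t => hf t)) hfi
  -- the four functions
  have i1 : IntervalIntegrable (fun t => G b' (t + h)) volume T (2 * T) ∧
      ∫ t in T..(2 * T), G b' (t + h) ≤ C1 * T * N2 N b := by
    obtain ⟨q1, q2⟩ := hres (G b') (T + h) (2 * T + h) (hG0 b') (hG b').1 (by linarith) (by linarith) (by linarith)
    constructor
    · have := q1.comp_add_right h
      simpa using this
    · rw [intervalIntegral.integral_comp_add_right (G b') h]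
      have := (hG b').2
      rw [hb2] at this
      exact q2.trans this
  have i2 : IntervalIntegrable (G b) volume T (2 * T) ∧ ∫ t in T..(2 * T), G b t ≤ C1 * T * N2 N b := by
    obtain ⟨q1, q2⟩ := hres (G b) T (2 * T) (hG0 b) (hG b).1 (by linarith) (by linarith) (by linarith)
    exact ⟨q1, q2.trans (hG b).2⟩
  let P : ℝ → ℝ := fun t => ‖dp X (al h N Y) t‖ ^ 2 * ‖dp N b t‖ ^ 2
  have hPc : Continuous P := ((hcont X _).norm.pow 2).mul ((hcont N b).norm.pow 2)
  have i3 : IntervalIntegrable P volume T (2 * T) ∧ ∫ t in T..(2 * T), P t ≤ K * (T * N2 N b) := by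
    obtain ⟨q1, q2⟩ := hres P T (2 * T) (fun t => by positivity) (hPc.intervalIntegrable _ _)
      (by linarith) (by linarith) (by linarith)
    exact ⟨q1, q2.trans hSQ⟩
  let B : ℝ → ℝ := fun t => ‖dp N b t‖ ^ 2
  have hBc : Continuous B := (hcont N b).norm.pow 2
  have i4 : IntervalIntegrable B volume T (2 * T) ∧ ∫ t in T..(2 * T), B t ≤ 2 * T * N2 N b :=
    ⟨hBc.intervalIntegrable _ _, (Pool.Agent.Q84.UM.t_MVL T hT N hN b).2⟩
  let H : ℝ → ℝ := fun t => 4 * (G b' (t + h) + G b t + P t + 4 * CE ^ 2 * B t)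
  have hH : IntervalIntegrable H volume T (2 * T) :=
    (((i1.1.add i2.1).add i3.1).add (i4.1.const_mul (4 * CE ^ 2))).const_mul 4
  have hpt : ∀ t, |Real.log ‖zt (t + h)‖ - Real.log ‖zt t‖ - (dp Y (ah h N Y) t).re| ^ 2 * ‖dp N b t‖ ^ 2 ≤ H t := by
    intro t
    have e1 := congrArg Complex.re (dp_al h N Y X hYX t)
    rw [Complex.sub_re, Complex.add_re] at e1
    set D1 := Real.log ‖zt (t + h)‖ - EP X (t + h) with hD1
    set D0 := Real.log ‖zt t‖ - EP X t with hD0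
    set E := (EP X (t + h) - (dp X lamL (t + h)).re) - (EP X t - (dp X lamL t).re) with hE
    set r := (dp X (al h N Y) t).re with hr
    have e2 : Real.log ‖zt (t + h)‖ - Real.log ‖zt t‖ - (dp Y (ah h N Y) t).re = D1 - D0 + E + r := by
      rw [hD1, hD0, hE]
      linarith
    have e3 : E ^ 2 ≤ 4 * CE ^ 2 := by
      have h1 := hEU (t + h)
      have h2 := hEU t
      rw [abs_le] at h1 h2
      have h3 : |E| ≤ 2 * CE := by
        rw [abs_le, hE]
        constructor <;> linarith [h1.1, h1.2, h2.1, h2.2]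
      have h4 : |E| ^ 2 ≤ (2 * CE) ^ 2 := pow_le_pow_left₀ (abs_nonneg _) h3 2
      rw [sq_abs] at h4
      linarith
    have e4 : r ^ 2 ≤ ‖dp X (al h N Y) t‖ ^ 2 := by
      have := Complex.abs_re_le_norm (dp X (al h N Y) t)
      rw [← hr] at this
      have h4 : |r| ^ 2 ≤ ‖dp X (al h N Y) t‖ ^ 2 := pow_le_pow_left₀ (abs_nonneg _) this 2
      rwa [sq_abs] at h4
    have e5 : H t = 4 * (D1 ^ 2 + D0 ^ 2 + 4 * CE ^ 2 + ‖dp X (al h N Y) t‖ ^ 2) * ‖dp N b t‖ ^ 2 := by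
      simp only [H, G, P, B, hb' t, sq_abs]
      ring
    rw [e5, sq_abs, e2]
    refine mul_le_mul_of_nonneg_right ?_ (by positivity)
    have := four_sq D1 D0 E r
    linarith
  have hint : IntervalIntegrable (fun t => |Real.log ‖zt (t + h)‖ - Real.log ‖zt t‖ - (dp Y (ah h N Y) t).re| ^ 2 *
      ‖dp N b t‖ ^ 2) volume T (2 * T) := by
    refine hH.mono_fun' ?_ (Filter.Eventually.of_forall (fun t => ?_))
    · apply Measurable.aestronglyMeasurable
      have m1 : Measurable (fun t : ℝ => Real.log ‖zt (t + h)‖) :=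
        Real.measurable_log.comp ((zt_cont'.comp (continuous_id.add continuous_const)).norm.measurable)
      have m2 : Measurable (fun t : ℝ => Real.log ‖zt t‖) :=
        Real.measurable_log.comp (zt_cont'.norm.measurable)
      have m3 : Measurable (fun t : ℝ => (dp Y (ah h N Y) t).re) :=
        (Complex.continuous_re.comp (hcont Y _)).measurable
      have m4 : Measurable (fun t : ℝ => ‖dp N b t‖ ^ 2) := hBc.measurable
      exact (((m1.sub m2).sub m3).abs.pow_const 2).mul m4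
    · beta_reduce
      rw [Real.norm_eq_abs, abs_of_nonneg (by positivity)]
      exact hpt t
  refine ⟨hint, ?_⟩
  have hle : ∫ t in T..(2 * T), |Real.log ‖zt (t + h)‖ - Real.log ‖zt t‖ - (dp Y (ah h N Y) t).re| ^ 2 * ‖dp N b t‖ ^ 2 ≤
      ∫ t in T..(2 * T), H t :=
    intervalIntegral.integral_mono_on (by linarith) hint hH (fun t _ => hpt t)
  have hsum : ∫ t in T..(2 * T), H t = 4 * ((∫ t in T..(2 * T), G b' (t + h)) + (∫ t in T..(2 * T), G b t) +
      (∫ t in T..(2 * T), P t) + 4 * CE ^ 2 * ∫ t in T..(2 * T), B t) := by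
    simp only [H]
    rw [intervalIntegral.integral_const_mul, intervalIntegral.integral_add ((i1.1.add i2.1).add i3.1)
      (i4.1.const_mul (4 * CE ^ 2)), intervalIntegral.integral_add (i1.1.add i2.1) i3.1,
      intervalIntegral.integral_add i1.1 i2.1, intervalIntegral.integral_const_mul]
  rw [hsum] at hle
  have h4 : 4 * CE ^ 2 * ∫ t in T..(2 * T), B t ≤ 4 * CE ^ 2 * (2 * T * N2 N b) :=
    mul_le_mul_of_nonneg_left i4.2 (by positivity)
  linarith [i1.2, i2.2, i3.2]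

theorem t_REAL : S_SQ → S_PSM → S_EU → S_REAL := by
  intro hSQ hPSM hEU
  obtain ⟨C0, hC0, hSQ⟩ := hSQ
  obtain ⟨CP, hCP, hPSM⟩ := hPSM
  obtain ⟨CE, hCE, hEU⟩ := hEU
  obtain ⟨θ, δ0, hθ, hδ0, hTHP⟩ := b_THP 2
  obtain ⟨δ, hδ⟩ : ∃ δ, δ = min δ0 (1 / 16) := ⟨_, rfl⟩
  have hδ1 : 0 < δ := by rw [hδ]; exact lt_min hδ0 (by norm_num)
  have hδ2 : δ ≤ δ0 := by rw [hδ]; exact min_le_left _ _
  have hδ3 : δ ≤ 1 / 16 := by rw [hδ]; exact min_le_right _ _
  obtain ⟨C1, hC1, hTHP⟩ := hTHP δ hδ1 hδ2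
  obtain ⟨θ0, hθ0⟩ : ∃ θ0, θ0 = min θ (δ / 2) := ⟨_, rfl⟩
  have ht1 : 0 < θ0 := by rw [hθ0]; exact lt_min hθ (by linarith)
  have ht2 : θ0 ≤ θ := by rw [hθ0]; exact min_le_left _ _
  have ht3 : θ0 ≤ δ / 2 := by rw [hθ0]; exact min_le_right _ _
  refine ⟨θ0, ht1, by linarith, ?_⟩
  intro ε hε hεθ
  have hlogpos : 0 ≤ Real.log (δ / ε) := Real.log_nonneg (by rw [le_div_iff₀ hε]; linarith)
  refine ⟨4 * (2 * C1 + C0 * (4 * (Real.log (δ / ε) + CP) + 4 * CP + 1) + 8 * CE ^ 2), by positivity, ?_⟩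
  intro lam hlam
  have hpi := Real.pi_pos
  filter_upwards [hTHP, hSQ, eventually_ge_atTop (16 : ℝ),
    Real.tendsto_log_atTop.eventually_ge_atTop (2 * Real.pi * lam),
    Real.tendsto_log_atTop.eventually_ge_atTop (Real.pi ^ 2 * lam ^ 2),
    Real.tendsto_log_atTop.eventually_ge_atTop (1 / ε),
    Real.tendsto_log_atTop.eventually_ge_atTop (8 : ℝ)] with T hT1 hT2 hT16 hLa hLb hLc hLd
  intro N hN1 hN b
  have hT0 : 0 < T := by linarith
  have hTone : 1 ≤ T := by linarith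
  set L := Real.log T with hL
  have hL0 : 0 < L := by linarith
  set h := sh lam T with hh
  have hh' : h = 2 * Real.pi * lam / L := rfl
  have hh0 : 0 ≤ h := by rw [hh']; positivity
  have hh1 : h ≤ 1 := by
    rw [hh', div_le_one hL0]
    exact hLa
  -- sizes
  have hN2 : (N : ℝ) ≤ T ^ θ0 := hN.trans (Real.rpow_le_rpow_of_exponent_le hTone
    (div_le_self ht1.le hlam))
  have hNθ : (N : ℝ) ≤ T ^ θ := hN2.trans (Real.rpow_le_rpow_of_exponent_le hTone ht2)
  have hN4 : (N : ℝ) ≤ T ^ (1 / 4 : ℝ) := hN2.trans (Real.rpow_le_rpow_of_exponent_le hTone (by linarith))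
  have hexp : ∀ a : ℝ, T ^ a = Real.exp (L * a) := fun a => Real.rpow_def_of_pos hT0 a
  have he1 : (2 : ℝ) ≤ Real.exp 1 := by
    have := Real.add_one_le_exp (1 : ℝ)
    linarith
  have hy2 : 2 ≤ T ^ ε := by
    rw [hexp]
    refine he1.trans (Real.exp_le_exp.2 ?_)
    rw [div_le_iff₀ hε] at hLc
    exact hLc
  have hyx : T ^ ε ≤ T ^ δ := Real.rpow_le_rpow_of_exponent_le hTone (by linarith)
  have hx0 : (0 : ℝ) ≤ T ^ δ := by positivity
  set X := ⌊T ^ δ⌋₊ with hX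
  set Y := ⌊T ^ ε⌋₊ with hY
  have hYX : Y ≤ X := Nat.floor_le_floor hyx
  have hXle : (X : ℝ) ≤ T ^ δ := Nat.floor_le hx0
  have hX1 : 1 ≤ X := by
    rw [hX, Nat.one_le_floor_iff]
    linarith
  have hNX : (N : ℝ) * X ≤ T ^ (1 / 8 : ℝ) := by
    calc (N : ℝ) * X ≤ T ^ θ0 * T ^ δ := mul_le_mul hN2 hXle (Nat.cast_nonneg _) (by positivity)
      _ = T ^ (θ0 + δ) := (Real.rpow_add hT0 _ _).symm
      _ ≤ T ^ (1 / 8 : ℝ) := Real.rpow_le_rpow_of_exponent_le hTone (by linarith)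
  -- the three sums
  have hlogx : Real.log (T ^ δ) / Real.log (T ^ ε) = δ / ε := by
    rw [Real.log_rpow hT0, Real.log_rpow hT0, mul_div_mul_right _ _ hL0.ne']
  have s1 := sum_big h CP hPSM N (T ^ δ) (T ^ ε) hy2 hyx
  rw [hlogx, ← hX, ← hY] at s1
  have s2 := sum_small h CP (fun x hx => (hPSM x hx).1) N X hN1
  have hNpos : (1 : ℝ) ≤ N := by exact_mod_cast hN1
  have hXpos : (1 : ℝ) ≤ X := by exact_mod_cast hX1
  have hlog2N : 0 ≤ Real.log (2 * N) := Real.log_nonneg (by linarith)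
  have hlogN : Real.log N ≤ θ0 / lam * L := by
    have := Real.log_le_log (by linarith) hN
    rwa [Real.log_rpow hT0] at this
  have hhN : h * Real.log (2 * N) ≤ 2 := by
    rw [Real.log_mul (by norm_num) (by linarith)]
    have h1 : Real.log 2 ≤ 1 := by
      have := Real.log_two_lt_d9
      linarith
    have h2 : h * Real.log N ≤ 1 := by
      calc h * Real.log N ≤ h * (θ0 / lam * L) := mul_le_mul_of_nonneg_left hlogN hh0
        _ = 2 * Real.pi * θ0 := by
          rw [hh']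
          have : lam ≠ 0 := by linarith
          field_simp
        _ ≤ 1 := by
          have := Real.pi_lt_four
          nlinarith
    have h3 : h * Real.log 2 ≤ 1 := by
      have h0 : 0 ≤ Real.log 2 := Real.log_nonneg (by norm_num)
      nlinarith
    linarith
  have s2' : Real.log (2 * N) * ∑ p ∈ smallP N X, Real.log p * h ^ 2 / p ≤ 4 * CP := by
    calc Real.log (2 * N) * ∑ p ∈ smallP N X, Real.log p * h ^ 2 / p
        ≤ Real.log (2 * N) * (CP * h ^ 2 * Real.log (2 * N)) := mul_le_mul_of_nonneg_left s2 hlog2N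
      _ = CP * (h * Real.log (2 * N)) ^ 2 := by ring
      _ ≤ CP * 2 ^ 2 := by
        have h0 : 0 ≤ h * Real.log (2 * N) := mul_nonneg hh0 hlog2N
        have h1 : (h * Real.log (2 * N)) ^ 2 ≤ 2 ^ 2 := pow_le_pow_left₀ h0 hhN 2
        exact mul_le_mul_of_nonneg_left h1 (by linarith)
      _ = 4 * CP := by ring
  have s3 : Real.log (2 * N * X) * h ^ 2 ≤ 1 := by
    have h1 : (2 : ℝ) * N * X ≤ T ^ (1 / 4 : ℝ) := by
      have h2 : (2 : ℝ) ≤ T ^ (1 / 8 : ℝ) := by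
        rw [hexp]
        refine he1.trans (Real.exp_le_exp.2 ?_)
        linarith
      calc (2 : ℝ) * N * X = 2 * (N * X) := by ring
        _ ≤ T ^ (1 / 8 : ℝ) * T ^ (1 / 8 : ℝ) := mul_le_mul h2 hNX (by positivity) (by positivity)
        _ = T ^ (1 / 4 : ℝ) := by
          rw [← Real.rpow_add hT0]
          norm_num
    have h3 : Real.log (2 * N * X) ≤ 1 / 4 * L := by
      have := Real.log_le_log (by positivity) h1
      rwa [Real.log_rpow hT0] at this
    calc Real.log (2 * N * X) * h ^ 2 ≤ 1 / 4 * L * h ^ 2 := mul_le_mul_of_nonneg_right h3 (by positivity)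
      _ = Real.pi ^ 2 * lam ^ 2 / L := by
        rw [hh']
        field_simp
        ring
      _ ≤ 1 := by
        rw [div_le_one hL0]
        exact hLb
  -- the mean square
  have hsq := hT2 N X (al h N Y) b (fun _ => h) h hN1 hX1 hNX (fun _ => ⟨hh0, le_rfl⟩)
    (fun n => al_le h hh0 N Y n)
  have hTN : 0 ≤ T * N2 N b := mul_nonneg hT0.le (N2_nonneg' N b)
  have hK : ∫ t in (T / 2)..(4 * T), ‖dp X (al h N Y) t‖ ^ 2 * ‖dp N b t‖ ^ 2 ≤
      (C0 * (4 * (Real.log (δ / ε) + CP) + 4 * CP + 1)) * (T * N2 N b) := by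
    refine hsq.trans (mul_le_mul_of_nonneg_right ?_ hTN)
    refine mul_le_mul_of_nonneg_left ?_ (by linarith)
    linarith
  exact real_int T h CE C1 _ N X Y b hT16 hh0 hh1 hYX hN4 hCE (fun t => hEU X t)
    (fun b => hT1 N hNθ b) hK

end

end Pool.Agent.H4.MZ
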