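import Pool.Agent.H4.MZ.Stm
import Pool.Graph.R_pool_sql_team_seeded_3997aac3.Q84.UM.DPM
import Pool.Graph.R_pool_sql_team_seeded_3997aac3.Q84.UM.MVL
import Pool.Graph.R_pool_sql_team_seeded_3997aac3.Q247.UM.CONV

set_option autoImplicit false

/-! Project MZ, SQ: mean squares of products. -/

namespace Pool.Agent.H4.MZ

open Filter Topology MeasureTheory Complex
open Pool.Agent.Q97.UM

noncomputable section

namespace SQ

/-- restriction to `[0, M]` -/
def rs (M : ℕ) (α : ℕ → ℂ) (n : ℕ) : ℂ := if n ≤ M then α n else 0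

theorem dp_rs (M : ℕ) (α : ℕ → ℂ) (t : ℝ) : dp M (rs M α) t = dp M α t := by
  unfold dp
  apply Finset.sum_congr rfl
  intro n hn
  rw [Finset.mem_Icc] at hn
  rw [rs, if_pos hn.2]

theorem N2_rs (M : ℕ) (α : ℕ → ℂ) : N2 M (rs M α) = N2 M α := by
  unfold N2
  apply Finset.sum_congr rfl
  intro n hn
  rw [Finset.mem_Icc] at hn
  rw [rs, if_pos hn.2]

theorem three (T : ℝ) (hT : 64 ≤ T) (K : ℕ) (c : ℕ → ℂ) (hK : (K : ℝ) ≤ T ^ (1 / 8 : ℝ)) :
    ∫ t in (T / 2)..(4 * T), ‖dp K c t‖ ^ 2 ≤ 7 * T * N2 K c := by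
  have hc : Continuous fun t => ‖dp K c t‖ ^ 2 := (Q84.UM.dp_cont K c).norm.pow 2
  have h0 : (0 : ℝ) < T := by linarith
  have key : ∀ S : ℝ, T / 2 ≤ S → (K : ℝ) ≤ S ^ (1 / 4 : ℝ) := by
    intro S hS
    refine hK.trans ?_
    have h1 : T ≤ S ^ (2 : ℝ) := by
      rw [Real.rpow_two]
      nlinarith
    calc T ^ (1 / 8 : ℝ) ≤ (S ^ (2 : ℝ)) ^ (1 / 8 : ℝ) :=
          Real.rpow_le_rpow h0.le h1 (by norm_num)
      _ = S ^ (1 / 4 : ℝ) := by
          rw [← Real.rpow_mul (by linarith)]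
          norm_num
  have h1 := (Q84.UM.t_MVL (T / 2) (by linarith) K (key _ le_rfl) c).2
  have h2 := (Q84.UM.t_MVL T (by linarith) K (key _ (by linarith)) c).2
  have h3 := (Q84.UM.t_MVL (2 * T) (by linarith) K (key _ (by linarith)) c).2
  have e1 : 2 * (T / 2) = T := by ring
  have e2 : 2 * (2 * T) = 4 * T := by ring
  rw [e1] at h1
  rw [e2] at h3
  have e3 : ∫ t in (T / 2)..(4 * T), ‖dp K c t‖ ^ 2 = (∫ t in (T / 2)..T, ‖dp K c t‖ ^ 2) +
      (∫ t in T..(2 * T), ‖dp K c t‖ ^ 2) + ∫ t in (2 * T)..(4 * T), ‖dp K c t‖ ^ 2 := by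
    rw [intervalIntegral.integral_add_adjacent_intervals (hc.intervalIntegrable _ _)
      (hc.intervalIntegrable _ _), intervalIntegral.integral_add_adjacent_intervals
      (hc.intervalIntegrable _ _) (hc.intervalIntegrable _ _)]
  rw [e3]
  linarith

end SQ

open SQ

theorem t_SQ : S_SQ := by
  obtain ⟨C, hC, hconv⟩ := Q247.UM.t_CONV
  refine ⟨7 * (2 + C), by linarith, ?_⟩
  filter_upwards [eventually_ge_atTop (64 : ℝ)] with T hT
  intro N M α b β β₁ hN hM hNM hβ hα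
  have h0 : (0 : ℝ) < T := by linarith
  have e1 : ∀ t, ‖dp M α t‖ ^ 2 * ‖dp N b t‖ ^ 2 = ‖dp (M * N) (cv (rs M α) (rs N b)) t‖ ^ 2 := by
    intro t
    have h1 := Q84.UM.t_DPM.1 M N (rs M α) (rs N b) t
      (fun n hn => by rw [rs, if_neg (by omega)]) (fun n hn => by rw [rs, if_neg (by omega)])
    rw [← h1, dp_rs, dp_rs, norm_mul, mul_pow]
  have e2 : ∫ t in (T / 2)..(4 * T), ‖dp M α t‖ ^ 2 * ‖dp N b t‖ ^ 2 =
      ∫ t in (T / 2)..(4 * T), ‖dp (M * N) (cv (rs M α) (rs N b)) t‖ ^ 2 := by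
    simp only [e1]
  rw [e2]
  have h1 := three T hT (M * N) (cv (rs M α) (rs N b)) (by
    push_cast
    rw [mul_comm]
    exact hNM)
  refine h1.trans ?_
  have h2 := hconv N M (rs N b) (rs M α) β β₁ 1 hN hM one_pos le_rfl hβ
    (fun n => by
      rw [rs]
      split_ifs
      · exact hα n
      · rw [norm_zero]
        exact mul_nonneg ArithmeticFunction.vonMangoldt_nonneg (hβ n).1)
    (fun n hn => by rw [rs, if_neg (by omega)]) (fun n hn => by rw [rs, if_neg (by omega)])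
  have e3 : ∑ p ∈ bigP N M, ‖rs M α p‖ ^ 2 / (p : ℝ) = ∑ p ∈ bigP N M, ‖α p‖ ^ 2 / (p : ℝ) := by
    apply Finset.sum_congr rfl
    intro p hp
    have := (Finset.mem_Icc.1 (Finset.mem_filter.1 hp).1).2
    rw [rs, if_pos this]
  rw [e3, N2_rs, mul_comm N M] at h2
  set S : ℝ := ∑ p ∈ bigP N M, ‖α p‖ ^ 2 / (p : ℝ) with hS
  set Y : ℝ := ∑ p ∈ smallP N M, Real.log p * β p ^ 2 / p with hY
  have hS0 : 0 ≤ S := Finset.sum_nonneg fun p _ => by positivity
  have hY0 : 0 ≤ Y := Finset.sum_nonneg fun p _ => by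
    have := Real.log_natCast_nonneg p
    positivity
  have hl1 : 0 ≤ Real.log (2 * N) := by
    have := Real.log_natCast_nonneg (2 * N)
    push_cast at this
    exact this
  have hl2 : 0 ≤ Real.log (2 * N * M) := by
    have := Real.log_natCast_nonneg (2 * N * M)
    push_cast at this
    exact this
  have hb0 : 0 ≤ N2 N b := Q84.UM.N2_nonneg N b
  have h3 := (abs_le.1 h2).2
  have h4 : N2 (M * N) (cv (rs M α) (rs N b)) ≤
      (2 + C) * (S + Real.log (2 * N) * Y + Real.log (2 * N * M) * β₁ ^ 2) * N2 N b := by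
    have h5 : N2 (M * N) (cv (rs M α) (rs N b)) ≤
        (2 * S + C * (Real.log (2 * N) * Y + Real.log (2 * N * M) * β₁ ^ 2)) * N2 N b := by
      have e : (1 * S + C / 1 * (Real.log (2 * N) * Y + Real.log (2 * N * M) * β₁ ^ 2)) * N2 N b +
          S * N2 N b = (2 * S + C * (Real.log (2 * N) * Y + Real.log (2 * N * M) * β₁ ^ 2)) * N2 N b := by
        ring
      linarith
    refine h5.trans (mul_le_mul_of_nonneg_right ?_ hb0)
    have h6 : 0 ≤ Real.log (2 * N) * Y + Real.log (2 * N * M) * β₁ ^ 2 := by positivity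
    nlinarith
  calc 7 * T * N2 (M * N) (cv (rs M α) (rs N b)) ≤
        7 * T * ((2 + C) * (S + Real.log (2 * N) * Y + Real.log (2 * N * M) * β₁ ^ 2) * N2 N b) :=
        mul_le_mul_of_nonneg_left h4 (by positivity)
    _ = _ := by ring

end

end Pool.Agent.H4.MZ
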