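import Pool.Agent.H4.MZ.Stm
import Pool.Graph.R_pool_sql_team_seeded_3997aac3.Q149.UM.MZ

set_option autoImplicit false

/-! Project MZ, part VAR (helper99): the variance of the prime sum. -/

namespace Pool.Agent.H4.MZ

open Filter Topology Complex
open Pool.Agent.Q97.UM

noncomputable section

theorem var_nsq (h : ℝ) (n : ℕ) (hn : n ≠ 0) :
    ‖(n : ℂ) ^ (-(h * I)) - 1‖ ^ 2 = 2 - 2 * Real.cos (h * Real.log n) := by
  have h1 : (n : ℂ) ^ (-(h * I)) = cexp (((-(h * Real.log n) : ℝ) : ℂ) * I) := by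
    rw [Complex.cpow_def_of_ne_zero (by exact_mod_cast hn), ← Complex.natCast_log]
    congr 1
    push_cast
    ring
  have h2 := Real.sin_sq_add_cos_sq (h * Real.log n)
  rw [h1, Complex.sq_norm, Complex.normSq_apply, Complex.exp_mul_I, ← Complex.ofReal_cos, ← Complex.ofReal_sin]
  simp only [Complex.sub_re, Complex.sub_im, Complex.add_re, Complex.add_im, Complex.mul_re, Complex.mul_im,
    Complex.ofReal_re, Complex.ofReal_im, Complex.I_re, Complex.I_im, Complex.one_re, Complex.one_im,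
    Real.cos_neg, Real.sin_neg]
  nlinarith

theorem var_ah_sq (h : ℝ) (N Y n : ℕ) (hn : n ≠ 0) :
    ‖ah h N Y n‖ ^ 2 ≤ (h * Real.log n) ^ 2 ∧ ‖ah h N Y n‖ ^ 2 ≤ 4 := by
  unfold ah
  split_ifs with hp
  · rw [var_nsq h n hn]
    have h1 := Real.one_sub_sq_div_two_le_cos (x := h * Real.log n)
    have h2 := Real.neg_one_le_cos (h * Real.log n)
    constructor <;> linarith
  · rw [norm_zero, zero_pow two_ne_zero]
    constructor
    · positivity
    · norm_num

theorem var_N2 (h : ℝ) (N Y : ℕ) :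
    N2 Y (ah h N Y) = ∑ p ∈ ((Finset.Icc 1 Y).filter Nat.Prime).filter (fun p => N < p), (2 - 2 * Real.cos (h * Real.log p)) / p := by
  rw [N2, Finset.filter_filter, Finset.sum_filter]
  refine Finset.sum_congr rfl fun n hn => ?_
  rw [Finset.mem_Icc] at hn
  unfold ah
  by_cases hp : n.Prime ∧ N < n
  · rw [if_pos hp, if_pos ⟨hp.1, hp.2, hn.2⟩, var_nsq h n (by omega)]
  · rw [if_neg hp, if_neg (fun hh => hp ⟨hh.1, hh.2.1⟩)]
    simp

theorem var_Q4 (h : ℝ) (N Y : ℕ) :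
    Q4 Y (ah h N Y) ≤ 64 * h ^ 2 * ∑' n : ℕ, (n : ℝ) ^ (-(3 / 2) : ℝ) := by
  have hs : Summable (fun n : ℕ => (n : ℝ) ^ (-(3 / 2) : ℝ)) := Real.summable_nat_rpow.2 (by norm_num)
  calc Q4 Y (ah h N Y) ≤ ∑ n ∈ Finset.Icc 1 Y, 64 * h ^ 2 * (n : ℝ) ^ (-(3 / 2) : ℝ) := by
        refine Finset.sum_le_sum fun n hn => ?_
        rw [Finset.mem_Icc] at hn
        have hn0 : (0 : ℝ) < n := by exact_mod_cast hn.1
        obtain ⟨h1, h2⟩ := var_ah_sq h N Y n (by omega)
        have h3 : Real.log n ≤ 4 * (n : ℝ) ^ (1 / 4 : ℝ) := by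
          have := Real.log_le_rpow_div hn0.le (show (0 : ℝ) < 1 / 4 by norm_num)
          linarith
        have h3' : 0 ≤ Real.log n := Real.log_natCast_nonneg n
        have h4 : Real.log n ^ 2 ≤ 16 * (n : ℝ) ^ (1 / 2 : ℝ) := by
          have h5 : Real.log n ^ 2 ≤ (4 * (n : ℝ) ^ (1 / 4 : ℝ)) ^ 2 := pow_le_pow_left₀ h3' h3 2
          have h6 : (4 * (n : ℝ) ^ (1 / 4 : ℝ)) ^ 2 = 16 * (n : ℝ) ^ (1 / 2 : ℝ) := by
            rw [mul_pow, ← Real.rpow_natCast ((n : ℝ) ^ (1 / 4 : ℝ)), ← Real.rpow_mul hn0.le]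
            norm_num
          linarith
        have h7 : (n : ℝ) ^ (-(3 / 2) : ℝ) = (n : ℝ) ^ (1 / 2 : ℝ) / (n : ℝ) ^ 2 := by
          rw [← Real.rpow_natCast, ← Real.rpow_sub hn0]
          norm_num
        rw [h7, ← mul_div_assoc]
        refine div_le_div_of_nonneg_right ?_ (by positivity)
        have h8 : ‖ah h N Y n‖ ^ 4 ≤ 4 * (h * Real.log n) ^ 2 := by
          have h9 : ‖ah h N Y n‖ ^ 4 = ‖ah h N Y n‖ ^ 2 * ‖ah h N Y n‖ ^ 2 := by ring
          rw [h9]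
          exact mul_le_mul h2 h1 (by positivity) (by norm_num)
        calc ‖ah h N Y n‖ ^ 4 ≤ 4 * (h * Real.log n) ^ 2 := h8
          _ = 4 * h ^ 2 * Real.log n ^ 2 := by ring
          _ ≤ 4 * h ^ 2 * (16 * (n : ℝ) ^ (1 / 2 : ℝ)) := mul_le_mul_of_nonneg_left h4 (by positivity)
          _ = 64 * h ^ 2 * (n : ℝ) ^ (1 / 2 : ℝ) := by ring
    _ = 64 * h ^ 2 * ∑ n ∈ Finset.Icc 1 Y, (n : ℝ) ^ (-(3 / 2) : ℝ) := by rw [Finset.mul_sum]
    _ ≤ 64 * h ^ 2 * ∑' n : ℕ, (n : ℝ) ^ (-(3 / 2) : ℝ) := by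
        refine mul_le_mul_of_nonneg_left ?_ (by positivity)
        exact hs.sum_le_tsum _ fun n _ => by positivity

theorem var_zeta : ∃ δ : ℝ, 0 < δ ∧ ∀ s : ℂ, s ≠ 1 → ‖s - 1‖ < δ →
    |Real.log ‖riemannZeta s‖ + Real.log ‖s - 1‖| ≤ 1 := by
  have h := riemannZeta_residue_one
  have h2 : Tendsto (fun s : ℂ => Real.log ‖(s - 1) * riemannZeta s‖) (𝓝[≠] 1) (𝓝 0) := by
    have := (h.norm).log (by simp)
    simpa using this
  have h3 : ∀ᶠ s in 𝓝[≠] (1 : ℂ), |Real.log ‖(s - 1) * riemannZeta s‖| < 1 ∧ (s - 1) * riemannZeta s ≠ 0 := by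
    refine Eventually.and ?_ (h.eventually_ne one_ne_zero)
    have h4 := h2.abs
    rw [abs_zero] at h4
    exact h4.eventually (gt_mem_nhds one_pos)
  rw [eventually_nhdsWithin_iff, Metric.eventually_nhds_iff] at h3
  obtain ⟨δ, hδ, h3⟩ := h3
  refine ⟨δ, hδ, fun s hs hd => ?_⟩
  obtain ⟨h4, h5⟩ := h3 (by rwa [dist_eq_norm]) hs
  rw [norm_mul, Real.log_mul (norm_ne_zero_iff.2 (left_ne_zero_of_mul h5))
    (norm_ne_zero_iff.2 (right_ne_zero_of_mul h5)), add_comm] at h4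
  exact h4.le

theorem t_VAR : S_PSM → S_VAR := by
  rintro ⟨CP, hCP1, hCP⟩ ε hε hε1
  obtain ⟨CM, hCM⟩ := Pool.Agent.Q149.UM.t_MZ ε hε hε1
  obtain ⟨δ, hδ, hz⟩ := var_zeta
  have hl8 : 0 ≤ Real.log 8 := Real.log_nonneg (by norm_num)
  have hC0 : 0 ≤ 4 * |CM| + 4 + 2 * Real.log 8 + 4 * Real.pi ^ 2 * CP := by
    have : 0 ≤ CP := by linarith
    positivity
  refine ⟨4 * |CM| + 4 + 2 * Real.log 8 + 4 * Real.pi ^ 2 * CP, hC0, fun lam hlam κ hκ => ?_⟩
  have hlam0 : 0 < lam := by linarith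
  have hpi := Real.pi_pos
  set K : ℝ := 64 * ∑' n : ℕ, (n : ℝ) ^ (-(3 / 2) : ℝ) with hK
  have e0 : Tendsto (fun T : ℝ => 1 / Real.log T) atTop (𝓝 0) := by
    simp only [one_div]
    exact Real.tendsto_log_atTop.inv_tendsto_atTop
  have e1 : ∀ᶠ T : ℝ in atTop, (1 + 2 * Real.pi * lam) * (1 / Real.log T) < δ := by
    have h := e0.const_mul (1 + 2 * Real.pi * lam)
    rw [mul_zero] at h
    exact h.eventually (gt_mem_nhds hδ)
  have e2 : ∀ᶠ T : ℝ in atTop, 2 ≤ T ^ (1 / lam) :=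
    (tendsto_rpow_atTop (by positivity : 0 < 1 / lam)).eventually_ge_atTop 2
  have e3 : ∀ᶠ T : ℝ in atTop, (2 * Real.pi * lam * (1 / Real.log T)) ^ 2 * K < κ := by
    have h := ((e0.const_mul (2 * Real.pi * lam)).pow 2).mul_const K
    rw [mul_zero, zero_pow (by norm_num), zero_mul] at h
    exact h.eventually (gt_mem_nhds hκ)
  filter_upwards [hCM, e1, e2, e3, eventually_gt_atTop 1] with T hT h1 h2 h3 hT1
  intro N hN
  have hL : 0 < Real.log T := Real.log_pos hT1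
  have hT0 : 0 < T := by linarith
  set L : ℝ := Real.log T with hLdef
  have hsh : sh lam T = 2 * Real.pi * lam * (1 / L) := by
    rw [sh, ← hLdef]; ring
  set h : ℝ := sh lam T with hh
  have hh0 : 0 < h := by rw [hsh]; positivity
  set Y : ℕ := ⌊T ^ ε⌋₊ with hY
  refine ⟨?_, ?_⟩
  swap
  · refine (var_Q4 h N Y).trans ?_
    have : 64 * h ^ 2 * ∑' n : ℕ, (n : ℝ) ^ (-(3 / 2) : ℝ) = h ^ 2 * K := by rw [hK]; ring
    rw [this, hsh]
    exact h3.le
  -- the variance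
  set P := (Finset.Icc 1 Y).filter Nat.Prime with hP
  set B : ℝ := ∑ p ∈ P.filter (fun p => ¬ N < p), (2 - 2 * Real.cos (h * Real.log p)) / p with hB
  have hsplit : N2 Y (ah h N Y) + B = ∑ p ∈ P, (2 - 2 * Real.cos (h * Real.log p)) / p := by
    rw [var_N2, hB, hP, Finset.sum_filter_add_sum_filter_not]
  have hA : ∑ p ∈ P, (2 - 2 * Real.cos (h * Real.log p)) / p =
      2 * (∑ p ∈ P, Real.cos ((0 : ℝ) * Real.log p) / p) - 2 * (∑ p ∈ P, Real.cos (h * Real.log p) / p) := by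
    rw [Finset.mul_sum, Finset.mul_sum, ← Finset.sum_sub_distrib]
    refine Finset.sum_congr rfl fun p _ => ?_
    rw [zero_mul, Real.cos_zero]
    ring
  -- the bound for B
  have hB0 : 0 ≤ B := by
    refine Finset.sum_nonneg fun p _ => ?_
    have := Real.cos_le_one (h * Real.log p)
    exact div_nonneg (by linarith) (Nat.cast_nonneg p)
  have hB1 : B ≤ 4 * Real.pi ^ 2 * CP := by
    have hb := (hCP (T ^ (1 / lam)) h2).2.1
    have hlog : Real.log (T ^ (1 / lam)) = L / lam := by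
      rw [Real.log_rpow hT0]; ring
    rw [hlog] at hb
    calc B ≤ ∑ p ∈ (Finset.Icc 1 ⌊T ^ (1 / lam)⌋₊).filter Nat.Prime, h ^ 2 * (Real.log p ^ 2 / p) := by
          refine (Finset.sum_le_sum (g := fun p : ℕ => h ^ 2 * (Real.log p ^ 2 / p)) fun p _ => ?_).trans
            (Finset.sum_le_sum_of_subset_of_nonneg ?_ fun p _ _ => by positivity)
          · rw [← mul_div_assoc]
            refine div_le_div_of_nonneg_right ?_ (Nat.cast_nonneg p)
            have := Real.one_sub_sq_div_two_le_cos (x := h * Real.log p)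
            nlinarith
          · intro p hp
            rw [Finset.mem_filter, hP, Finset.mem_filter, Finset.mem_Icc] at hp
            rw [Finset.mem_filter, Finset.mem_Icc]
            refine ⟨⟨hp.1.1.1, Nat.le_floor (le_trans ?_ hN)⟩, hp.1.2⟩
            exact_mod_cast not_lt.1 hp.2
      _ = h ^ 2 * ∑ p ∈ (Finset.Icc 1 ⌊T ^ (1 / lam)⌋₊).filter Nat.Prime, Real.log p ^ 2 / p := by rw [Finset.mul_sum]
      _ ≤ h ^ 2 * (CP * (L / lam) ^ 2) := mul_le_mul_of_nonneg_left hb (by positivity)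
      _ = 4 * Real.pi ^ 2 * CP := by
          rw [hsh]
          field_simp
          ring
  -- the values of zeta
  have hm0 := hT 0
  have hmh := hT h
  have hs0 : (1 + 1 / (L : ℂ) + ((0 : ℝ) : ℂ) * I) - 1 = ((1 / L : ℝ) : ℂ) := by push_cast; ring
  have hsh1 : (1 + 1 / (L : ℂ) + (h : ℂ) * I) - 1 = ((1 / L : ℝ) : ℂ) * (1 + ((2 * Real.pi * lam : ℝ) : ℂ) * I) := by
    rw [hsh]; push_cast; ring
  have hn0 : ‖(1 + 1 / (L : ℂ) + ((0 : ℝ) : ℂ) * I) - 1‖ = 1 / L := by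
    rw [hs0, Complex.norm_real, Real.norm_of_nonneg (by positivity)]
  set W : ℝ := ‖(1 : ℂ) + ((2 * Real.pi * lam : ℝ) : ℂ) * I‖ with hW
  have hnh : ‖(1 + 1 / (L : ℂ) + (h : ℂ) * I) - 1‖ = 1 / L * W := by
    rw [hsh1, norm_mul, Complex.norm_real, Real.norm_of_nonneg (by positivity)]
  have hW1 : W ≤ 1 + 2 * Real.pi * lam := by
    refine (norm_add_le _ _).trans ?_
    rw [norm_one, norm_mul, Complex.norm_real, Complex.norm_I, mul_one, Real.norm_of_nonneg (by positivity)]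
  have hW2 : 2 * Real.pi * lam ≤ W := by
    have := Complex.abs_im_le_norm ((1 : ℂ) + ((2 * Real.pi * lam : ℝ) : ℂ) * I)
    simp only [Complex.add_im, Complex.one_im, Complex.mul_im, Complex.ofReal_re, Complex.ofReal_im, Complex.I_re,
      Complex.I_im, mul_one, mul_zero, zero_add, add_zero] at this
    exact (le_abs_self _).trans this
  have hpi3 := Real.pi_gt_three
  have hpi4 := Real.pi_lt_d2
  have hWlam : lam ≤ W := by nlinarith
  have hW8 : W ≤ 8 * lam := by nlinarith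
  have hW0 : 0 < W := by linarith
  have hz0 := hz (1 + 1 / (L : ℂ) + ((0 : ℝ) : ℂ) * I) (by
    intro hc
    rw [hc, sub_self, norm_zero] at hn0
    have : 0 < 1 / L := by positivity
    linarith) (by
    rw [hn0]
    refine lt_of_le_of_lt ?_ h1
    have : 0 < 1 / L := by positivity
    nlinarith [mul_pos hpi hlam0])
  have hzh := hz (1 + 1 / (L : ℂ) + (h : ℂ) * I) (by
    intro hc
    rw [hc, sub_self, norm_zero] at hnh
    have : 0 < 1 / L * W := by positivity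
    linarith) (by
    rw [hnh]
    refine lt_of_le_of_lt ?_ h1
    have : 0 < 1 / L := by positivity
    nlinarith)
  rw [hn0] at hz0
  rw [hnh, Real.log_mul (by positivity) hW0.ne'] at hzh
  have hlW1 : Real.log lam ≤ Real.log W := Real.log_le_log hlam0 hWlam
  have hlW2 : Real.log W ≤ Real.log 8 + Real.log lam := by
    rw [← Real.log_mul (by norm_num) hlam0.ne']
    exact Real.log_le_log hW0 hW8
  have hCMa := le_abs_self CM
  rw [abs_le] at hm0 hmh hz0 hzh ⊢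
  constructor <;> linarith

end

end Pool.Agent.H4.MZ
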