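import Pool.Agent.H4.MZ.Law
import Pool.Agent.H4.MZ.Alg
import Pool.Agent.H4.MZ.Mom
import Pool.Agent.H4.MZ.Chr
import Pool.Agent.H4.MZ.Var
import Pool.Agent.H4.MZ.Sq
import Pool.Agent.H4.MZ.Psm
import Pool.Agent.H4.MZ.Eu
import Pool.Agent.H4.MZ.Real
import Pool.Agent.H4.MZ.Ker
import Pool.Agent.H4.MZ.Cnt
import Pool.Agent.H4.MZ.Exp
import Pool.Agent.H4.MZ.Imag
import Pool.Agent.H4.MZ.Lev

set_option autoImplicit false

/-! The final assembly. -/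

namespace Pool.Agent.H4.MZ

/-- **the law** -/
theorem lawF : S_LAW :=
  law (cf (t_REAL t_SQ t_PSM (t_EU t_PSM)) (t_IMAG t_SQ t_PSM (t_CNT t_KER) t_EXP) (t_VAR t_PSM) (t_CHR (t_MOM t_ALG))) t_LEV

end Pool.Agent.H4.MZ
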