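import Pool.Agent.H4.MZ.Stm

set_option autoImplicit false

/-! Closeness of characteristic functions, abstract form. -/

namespace Pool.Agent.H4.MZ

open Filter Topology MeasureTheory Complex
open scoped ComplexConjugate

noncomputable section

lemma exp_ii {φ : ℝ → ℝ} (hφ : Measurable φ) {W : ℝ → ℝ} (hW : Continuous W) (a b : ℝ) :
    IntervalIntegrable (fun t => cexp (I * ((φ t : ℝ) : ℂ)) * ((W t : ℝ) : ℂ)) volume a b := by
  have h1 : IntervalIntegrable (fun t => cexp (I * ((φ t : ℝ) : ℂ))) volume a b := by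
    rw [intervalIntegrable_iff]
    refine Measure.integrableOn_of_bounded (M := 1) (by simp) ?_ (Filter.Eventually.of_forall fun t => ?_)
    · exact (by fun_prop : Measurable fun t => cexp (I * ((φ t : ℝ) : ℂ))).aestronglyMeasurable
    · rw [mul_comm I, Complex.norm_exp_ofReal_mul_I]
  exact h1.mul_continuousOn (Complex.continuous_ofReal.comp hW).continuousOn

lemma exp_dif (x y : ℝ) : ‖cexp (I * ((x : ℝ) : ℂ)) - cexp (I * ((y : ℝ) : ℂ))‖ ≤ |x - y| := by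
  have h1 : cexp (I * ((x : ℝ) : ℂ)) - cexp (I * ((y : ℝ) : ℂ)) = cexp (I * ((y : ℝ) : ℂ)) * (cexp (I * ((x - y : ℝ) : ℂ)) - 1) := by
    rw [mul_sub, ← Complex.exp_add]
    push_cast
    ring_nf
  rw [h1, norm_mul, mul_comm I ((y : ℝ) : ℂ), Complex.norm_exp_ofReal_mul_I, one_mul]
  have := Real.norm_exp_I_mul_ofReal_sub_one_le (x := x - y)
  rwa [Real.norm_eq_abs] at this

lemma exp_dif2 (x y : ℝ) : ‖cexp (I * ((x : ℝ) : ℂ)) - cexp (I * ((y : ℝ) : ℂ))‖ ≤ 2 := by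
  refine (norm_sub_le _ _).trans ?_
  rw [mul_comm I ((y : ℝ) : ℂ), mul_comm I ((x : ℝ) : ℂ), Complex.norm_exp_ofReal_mul_I, Complex.norm_exp_ofReal_mul_I]
  norm_num

/-- closeness -/
theorem cf_close {A c d B Xi η : ℝ} (hAc : A ≤ c) (hcd : c ≤ d) (hdB : d ≤ B) (hXi : 0 ≤ Xi) (hη : 0 < η) {W : ℝ → ℝ} (hW : Continuous W)
    (hW0 : ∀ t, 0 ≤ W t) {φ φP u v : ℝ → ℝ} (hφ : Measurable φ) (hφP : Measurable φP)
    (h : ∀ t, c ≤ t → t ≤ d → |φ t - φP t| ≤ Xi * (|u t| + |v t|))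
    (hu : IntervalIntegrable (fun t => u t ^ 2 * W t) volume c d) (hv : IntervalIntegrable (fun t => v t ^ 2 * W t) volume c d) :
    ‖(∫ t in A..B, cexp (I * ((φ t : ℝ) : ℂ)) * ((W t : ℝ) : ℂ)) - ∫ t in A..B, cexp (I * ((φP t : ℝ) : ℂ)) * ((W t : ℝ) : ℂ)‖ ≤
      2 * (∫ t in A..c, W t) + 2 * (∫ t in d..B, W t) +
        Xi * (η * (∫ t in c..d, W t) + 1 / (2 * η) * ((∫ t in c..d, u t ^ 2 * W t) + ∫ t in c..d, v t ^ 2 * W t)) := by
  have i1 := exp_ii hφ hW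
  have i2 := exp_ii hφP hW
  have iW : ∀ a b, IntervalIntegrable W volume a b := fun a b => hW.intervalIntegrable a b
  have i3 : ∀ a b, IntervalIntegrable (fun t => ‖cexp (I * ((φ t : ℝ) : ℂ)) * ((W t : ℝ) : ℂ) - cexp (I * ((φP t : ℝ) : ℂ)) * ((W t : ℝ) : ℂ)‖) volume a b :=
    fun a b => ((i1 a b).sub (i2 a b)).norm
  rw [← intervalIntegral.integral_sub (i1 A B) (i2 A B)]
  refine (intervalIntegral.norm_integral_le_integral_norm (by linarith)).trans ?_
  rw [← intervalIntegral.integral_add_adjacent_intervals (i3 A c) (i3 c B), ← intervalIntegral.integral_add_adjacent_intervals (i3 c d) (i3 d B)]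
  have e : ∀ t, ‖cexp (I * ((φ t : ℝ) : ℂ)) * ((W t : ℝ) : ℂ) - cexp (I * ((φP t : ℝ) : ℂ)) * ((W t : ℝ) : ℂ)‖ =
      ‖cexp (I * ((φ t : ℝ) : ℂ)) - cexp (I * ((φP t : ℝ) : ℂ))‖ * W t := by
    intro t
    rw [← sub_mul, norm_mul, Complex.norm_real, Real.norm_eq_abs, abs_of_nonneg (hW0 t)]
  have b1 : ∀ a b, a ≤ b → ∫ t in a..b, ‖cexp (I * ((φ t : ℝ) : ℂ)) * ((W t : ℝ) : ℂ) - cexp (I * ((φP t : ℝ) : ℂ)) * ((W t : ℝ) : ℂ)‖ ≤
      2 * ∫ t in a..b, W t := by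
    intro a b hab
    rw [← intervalIntegral.integral_const_mul]
    refine intervalIntegral.integral_mono_on hab (i3 a b) ((iW a b).const_mul 2) fun t _ => ?_
    rw [e t]
    exact mul_le_mul_of_nonneg_right (exp_dif2 _ _) (hW0 t)
  have b2 : ∫ t in c..d, ‖cexp (I * ((φ t : ℝ) : ℂ)) * ((W t : ℝ) : ℂ) - cexp (I * ((φP t : ℝ) : ℂ)) * ((W t : ℝ) : ℂ)‖ ≤
      Xi * (η * (∫ t in c..d, W t) + 1 / (2 * η) * ((∫ t in c..d, u t ^ 2 * W t) + ∫ t in c..d, v t ^ 2 * W t)) := by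
    have e2 : Xi * (η * (∫ t in c..d, W t) + 1 / (2 * η) * ((∫ t in c..d, u t ^ 2 * W t) + ∫ t in c..d, v t ^ 2 * W t)) =
        ∫ t in c..d, Xi * (η * W t + 1 / (2 * η) * (u t ^ 2 * W t + v t ^ 2 * W t)) := by
      rw [intervalIntegral.integral_const_mul, intervalIntegral.integral_add ((iW c d).const_mul η) ((hu.add hv).const_mul _),
        intervalIntegral.integral_const_mul, intervalIntegral.integral_const_mul, intervalIntegral.integral_add hu hv]
    rw [e2]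
    refine intervalIntegral.integral_mono_on hcd (i3 c d) ((((iW c d).const_mul η).add ((hu.add hv).const_mul _)).const_mul Xi) fun t ht => ?_
    rw [e t]
    have h1 := (exp_dif (φ t) (φP t)).trans (h t ht.1 ht.2)
    have h2 : ∀ x : ℝ, |x| ≤ η / 2 + 1 / (2 * η) * x ^ 2 := by
      intro x
      have h3 : 0 ≤ (|x| - η) ^ 2 := sq_nonneg _
      have h4 : |x| ^ 2 = x ^ 2 := sq_abs x
      have h5 : η / 2 + 1 / (2 * η) * x ^ 2 - |x| = (|x| - η) ^ 2 / (2 * η) := by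
        rw [← h4]
        field_simp
        ring
      have h6 : 0 ≤ (|x| - η) ^ 2 / (2 * η) := by positivity
      linarith
    have h3 : Xi * (|u t| + |v t|) ≤ Xi * (η + 1 / (2 * η) * (u t ^ 2 + v t ^ 2)) := by
      refine mul_le_mul_of_nonneg_left ?_ hXi
      have a1 := h2 (u t)
      have a2 := h2 (v t)
      linarith
    refine (mul_le_mul_of_nonneg_right (h1.trans h3) (hW0 t)).trans (le_of_eq ?_)
    ring
  have b3 := b1 A c hAc
  have b4 := b1 d B hdB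
  linarith

end

end Pool.Agent.H4.MZ
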