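import Pool.Agent.H4.MZ.Cf1
import Pool.Agent.H4.LG.Idn

set_option autoImplicit false

/-! The pair of coordinates and the scaled prime sum. -/

namespace Pool.Agent.H4.MZ

open Filter Topology MeasureTheory Complex
open scoped ComplexConjugate
open Pool.Agent.Q97.UM
open Pool.Agent.H4.LG (Yt PF st_eq dp_c N2_nn Yt_meas Yt_bdd)

noncomputable section

/-- the number of zeros with ordinate in `(t - al/L, t + al/L]` -/
def Cn (al T t : ℝ) : ℝ := ∑ s ∈ H370.Zf riemannZeta (T / 2) (4 * T), (mz s : ℝ) * wd (2 * al) (Real.log T * (s.im - (t - al / Real.log T)))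

/-- real coordinate -/
def Rr (al T t : ℝ) : ℝ := (Real.log ‖zt (t + al / Real.log T)‖ - Real.log ‖zt (t - al / Real.log T)‖) / Real.sqrt (Real.log al)

/-- imaginary coordinate -/
def Ri (al T t : ℝ) : ℝ := (Real.pi * Cn al T t - al) / Real.sqrt (Real.log al)

lemma wd_pf {a : ℝ} : PF (a + 1) 1 (wd a) := by
  refine ⟨measurable_const.indicator measurableSet_Ioc, fun x => ?_, fun x hx => ?_⟩
  · unfold wd
    by_cases h : x ∈ Set.Ioc 0 a
    · rw [Set.indicator_of_mem h, abs_one]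
    · rw [Set.indicator_of_notMem h, abs_zero]; exact zero_le_one
  · unfold wd
    refine Set.indicator_of_notMem (fun h => ?_) _
    rw [abs_of_pos h.1] at hx
    linarith [h.2]

lemma wd_meas (a : ℝ) : Measurable (wd a) := measurable_const.indicator measurableSet_Ioc

lemma zt_cont : Continuous zt := by
  refine continuous_iff_continuousAt.2 fun t => ?_
  unfold zt
  have h1 : (1 / 2 + (t : ℂ) * I) ≠ 1 := by
    intro h
    have := congrArg Complex.re h
    norm_num at this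
  have h2 := (differentiableAt_riemannZeta h1).continuousAt
  exact h2.comp (f := fun t : ℝ => (1 / 2 + (t : ℂ) * I)) (by fun_prop)

lemma Cn_meas (al T : ℝ) : Measurable (Cn al T) := by
  unfold Cn
  exact Finset.measurable_sum _ fun s _ => measurable_const.mul ((wd_meas _).comp (by fun_prop))

lemma Rr_meas (al T : ℝ) : Measurable (Rr al T) := by
  unfold Rr
  refine Measurable.div_const (Measurable.sub ?_ ?_) _
  · exact Real.measurable_log.comp ((zt_cont.comp (by fun_prop : Continuous fun t : ℝ => t + al / Real.log T)).norm.measurable)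
  · exact Real.measurable_log.comp ((zt_cont.comp (by fun_prop : Continuous fun t : ℝ => t - al / Real.log T)).norm.measurable)

lemma Ri_meas (al T : ℝ) : Measurable (Ri al T) := by
  unfold Ri
  exact (((Cn_meas al T).const_mul _).sub_const _).div_const _

/-- in the middle `Cn` is the local statistic -/
lemma Cn_Yt {al T t : ℝ} (hT : 16 ≤ T) (hL : 2 * al + 1 ≤ Real.log T) (h1 : T + 2 ≤ t - al / Real.log T)
    (h2 : t - al / Real.log T ≤ 2 * T - 2) : Cn al T t = Yt (wd (2 * al)) T (t - al / Real.log T) := by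
  have hL0 : 0 < Real.log T := Real.log_pos (by linarith)
  unfold Cn
  rw [← st_eq (V := 2 * al + 1) (Q := 1) wd_pf (by linarith : (1 : ℝ) ≤ T / 2) hL0 hL (by linarith) (by linarith)]
  exact st_eq (V := 2 * al + 1) (Q := 1) wd_pf (by linarith : (1 : ℝ) ≤ T + 1) hL0 hL (by linarith) (by linarith)

/-- the scaled coefficients -/
def asc (r h a : ℝ) (N Y n : ℕ) : ℂ := ((r : ℝ) : ℂ) * (ah h N Y n * (n : ℂ) ^ (a * I))

lemma asc_norm (r h a : ℝ) (N Y : ℕ) {n : ℕ} (hn : 1 ≤ n) : ‖asc r h a N Y n‖ = |r| * ‖ah h N Y n‖ := by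
  unfold asc
  rw [norm_mul, norm_mul, Complex.norm_real, Real.norm_eq_abs, Complex.norm_natCast_cpow_of_pos (by omega)]
  have : ((a : ℂ) * I).re = 0 := by simp
  rw [this, Real.rpow_zero, mul_one]

lemma asc_PS (r h a : ℝ) (N Y : ℕ) : PS N Y (asc r h a N Y) := by
  intro n hn
  unfold asc at hn
  have h1 : ah h N Y n ≠ 0 := fun h0 => hn (by rw [h0, zero_mul, mul_zero])
  unfold ah at h1
  by_contra hcon
  rw [if_neg hcon] at h1
  exact h1 rfl

lemma asc_N2 (r h a : ℝ) (N Y : ℕ) : N2 Y (asc r h a N Y) = r ^ 2 * N2 Y (ah h N Y) := by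
  unfold N2
  rw [Finset.mul_sum]
  refine Finset.sum_congr rfl fun n hn => ?_
  rw [asc_norm r h a N Y (Finset.mem_Icc.1 hn).1, mul_pow, sq_abs]
  ring

lemma asc_Q4 (r h a : ℝ) (N Y : ℕ) : Q4 Y (asc r h a N Y) = r ^ 4 * Q4 Y (ah h N Y) := by
  unfold Q4
  rw [Finset.mul_sum]
  refine Finset.sum_congr rfl fun n hn => ?_
  rw [asc_norm r h a N Y (Finset.mem_Icc.1 hn).1, mul_pow]
  have : |r| ^ 4 = r ^ 4 := by
    rw [show (4 : ℕ) = 2 * 2 by norm_num, pow_mul, pow_mul, sq_abs]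
  rw [this]
  ring

lemma asc_dp (r h a : ℝ) (N Y : ℕ) (t : ℝ) : dp Y (asc r h a N Y) t = ((r : ℝ) : ℂ) * dp Y (ah h N Y) (t - a) := by
  rw [(Pool.Agent.Q84.UM.t_DPM.2.1 Y (ah h N Y) t a).1]
  unfold dp
  rw [Finset.mul_sum]
  refine Finset.sum_congr rfl fun n _ => ?_
  unfold asc
  ring

lemma Q4_nn (Y : ℕ) (α : ℕ → ℂ) : 0 ≤ Q4 Y α := by unfold Q4; positivity

/-- translation of the polynomial -/
lemma dp_tr (N : ℕ) (b : ℕ → ℂ) (a t : ℝ) : dp N b t = dp N (fun n => b n * (n : ℂ) ^ ((-a : ℝ) * I)) (t - a) := by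
  have h := (Pool.Agent.Q84.UM.t_DPM.2.1 N b (t - a) (-a)).1
  rw [← h]
  congr 1
  ring

lemma N2_tr (N : ℕ) (b : ℕ → ℂ) (a : ℝ) : N2 N (fun n => b n * (n : ℂ) ^ ((-a : ℝ) * I)) = N2 N b :=
  (Pool.Agent.Q84.UM.t_DPM.2.1 N b 0 (-a)).2

lemma exp_lip {x y : ℝ} (hx : 0 ≤ x) (hy : 0 ≤ y) : |Real.exp (-x) - Real.exp (-y)| ≤ |x - y| := by
  wlog hxy : x ≤ y generalizing x y
  · rw [abs_sub_comm, abs_sub_comm x y]
    exact this hy hx (by linarith)
  have h1 : Real.exp (-y) ≤ Real.exp (-x) := Real.exp_le_exp.2 (by linarith)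
  rw [abs_of_nonneg (by linarith), abs_sub_comm, abs_of_nonneg (by linarith)]
  have h2 : Real.exp (-y) = Real.exp (-x) * Real.exp (-(y - x)) := by
    rw [← Real.exp_add]; congr 1; ring
  have h3 := Real.add_one_le_exp (-(y - x))
  have h4 : Real.exp (-x) ≤ 1 := Real.exp_le_one_iff.2 (by linarith)
  have h5 := Real.exp_pos (-x)
  rw [h2]
  nlinarith

end

end Pool.Agent.H4.MZ
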