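import Mathlib

set_option autoImplicit false

/-! The law of a function under a weight. -/

namespace Pool.Agent.H4.MZ

open MeasureTheory Complex

noncomputable section

/-- the law of `V` under the normalised weight `W` -/
theorem wlaw {T : ℝ} (hT : 0 ≤ T) {W : ℝ → ℝ} (hW : Continuous W) (hW0 : ∀ t, 0 ≤ W t) {V : ℝ → ℂ} (hV : Measurable V) {m : ℝ}
    (hm : m = ∫ t in T..(2 * T), W t) (hm0 : 0 < m) :
    ∃ μ : Measure ℂ, IsProbabilityMeasure μ ∧
      (∀ f : ℂ → ℂ, Measurable f → ∫ w, f w ∂μ = (1 / m : ℝ) * ∫ t in T..(2 * T), f (V t) * ((W t : ℝ) : ℂ)) ∧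
      (∀ E : Set ℂ, MeasurableSet E → μ.real E = 1 / m * ∫ t in Set.Icc T (2 * T) ∩ V ⁻¹' E, W t) := by
  have hTT : T ≤ 2 * T := by linarith
  obtain ⟨ν, hν⟩ : ∃ ν : Measure ℝ, ν = volume.restrict (Set.Ioc T (2 * T)) := ⟨_, rfl⟩
  obtain ⟨g, hg⟩ : ∃ g : ℝ → NNReal, g = fun t => Real.toNNReal (W t / m) := ⟨_, rfl⟩
  have hgm : Measurable g := by rw [hg]; exact (hW.div_const m).measurable.real_toNNReal
  have hgc : ∀ t, ((g t : NNReal) : ℝ) = W t / m := fun t => by
    rw [hg]
    exact Real.coe_toNNReal _ (div_nonneg (hW0 t) hm0.le)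
  have hWi : IntegrableOn W (Set.Ioc T (2 * T)) := (hW.integrableOn_Icc (a := T) (b := 2 * T)).mono_set Set.Ioc_subset_Icc_self
  have hlin : ∀ S : Set ℝ, MeasurableSet S → (ν.withDensity fun t => (g t : ENNReal)) S =
      ENNReal.ofReal (1 / m * ∫ t in Set.Ioc T (2 * T) ∩ S, W t) := by
    intro S hS
    rw [withDensity_apply _ hS, hν, Measure.restrict_restrict hS, Set.inter_comm S]
    have h1 : ∀ t, (g t : ENNReal) = ENNReal.ofReal (W t / m) := fun t => by rw [hg]; rfl
    simp only [h1]
    rw [← ofReal_integral_eq_lintegral_ofReal]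
    · congr 1
      rw [← integral_const_mul]
      congr 1
      funext t
      ring
    · exact (hWi.mono_set Set.inter_subset_left).div_const m
    · exact Filter.Eventually.of_forall fun t => div_nonneg (hW0 t) hm0.le
  have hprob : IsProbabilityMeasure ((ν.withDensity fun t => (g t : ENNReal)).map V) := by
    refine ⟨?_⟩
    rw [Measure.map_apply hV MeasurableSet.univ, Set.preimage_univ, hlin _ MeasurableSet.univ, Set.inter_univ,
      ← intervalIntegral.integral_of_le hTT, ← hm]
    have : 1 / m * m = 1 := by field_simp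
    rw [this, ENNReal.ofReal_one]
  refine ⟨(ν.withDensity fun t => (g t : ENNReal)).map V, hprob, fun f hf => ?_, fun E hE => ?_⟩
  · rw [integral_map hV.aemeasurable hf.aestronglyMeasurable, integral_withDensity_eq_integral_smul hgm, hν,
      intervalIntegral.integral_of_le hTT, ← integral_const_mul]
    congr 1
    funext t
    rw [NNReal.smul_def, hgc t, Complex.real_smul]
    push_cast
    ring
  · rw [measureReal_def, Measure.map_apply hV hE, hlin _ (hV hE)]
    have h1 : 0 ≤ 1 / m * ∫ t in Set.Ioc T (2 * T) ∩ V ⁻¹' E, W t :=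
      mul_nonneg (by positivity) (integral_nonneg fun t => hW0 t)
    rw [ENNReal.toReal_ofReal h1]
    congr 1
    refine (setIntegral_congr_set ?_).symm
    exact (Ioc_ae_eq_Icc.symm).inter (Filter.EventuallyEq.refl _ _)

end

end Pool.Agent.H4.MZ
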