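import Pool.Agent.H4.MZ.Cf
import Pool.Agent.H4.MZ.Wl

set_option autoImplicit false

/-! The law of the pair relative to every Dirichlet polynomial. -/

namespace Pool.Agent.H4.MZ

open Filter Topology MeasureTheory Complex ProbabilityTheory
open scoped ComplexConjugate
open Pool.Agent.Q97.UM
open Pool.Agent.H4.LG (dp_c N2_nn)

noncomputable section

/-- the statement -/
def S_LAW : Prop := ∀ J J' : Set ℝ, J.OrdConnected → J'.OrdConnected → ∀ ε : ℝ, 0 < ε → ∃ A₀ : ℝ, 4 ≤ A₀ ∧ ∀ al : ℝ, A₀ ≤ al →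
  ∃ θ : ℝ, 0 < θ ∧ θ ≤ 1 / 40 ∧ ∀ᶠ T : ℝ in atTop, ∀ N : ℕ, (N : ℝ) ≤ T ^ θ → ∀ b : ℕ → ℂ,
    |(∫ t in Set.Icc T (2 * T) ∩ {t | Rr al T t ∈ J ∧ Ri al T t ∈ J'}, ‖dp N b t‖ ^ 2) -
      (gaussianReal 0 1).real J * (gaussianReal 0 1).real J' * (T * N2 N b)| ≤ ε * (T * N2 N b)

theorem law (hcf : S_CF) (hlev : S_LEV) : S_LAW := by
  intro J J' hJ hJ' ε hε
  obtain ⟨Xi, τ, hXi, hτ, hlev⟩ := hlev J J' hJ hJ' (ε / 4) (by positivity)
  obtain ⟨A₀, hA₀, hcf⟩ := hcf Xi (τ / 4) hXi (by positivity)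
  refine ⟨A₀, hA₀, fun al hal => ?_⟩
  obtain ⟨θ, hθ0, hθ1, hcf⟩ := hcf al hal
  refine ⟨θ, hθ0, hθ1, ?_⟩
  obtain ⟨η, hη⟩ : ∃ η, η = min (1 / 2) (min (τ / 4) (ε / 4)) := ⟨_, rfl⟩
  have hη0 : 0 < η := by rw [hη]; positivity
  have hη1 : η ≤ 1 / 2 := by rw [hη]; exact min_le_left _ _
  have hη2 : η ≤ τ / 4 := by rw [hη]; exact (min_le_right _ _).trans (min_le_left _ _)
  have hη3 : η ≤ ε / 4 := by rw [hη]; exact (min_le_right _ _).trans (min_le_right _ _)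
  filter_upwards [hcf, mv_rel η hη0, eventually_ge_atTop (16 : ℝ)] with T hcf hmv hT N hN b
  have hT0 : 0 < T := by linarith
  have hT1 : (1 : ℝ) ≤ T := by linarith
  have hN40 : (N : ℝ) ≤ T ^ (1 / 40 : ℝ) := hN.trans (Real.rpow_le_rpow_of_exponent_le hT1 hθ1)
  replace hmv := hmv N hN40 b
  obtain ⟨X, hX⟩ : ∃ X, X = T * N2 N b := ⟨_, rfl⟩
  have hX0 : 0 ≤ X := by rw [hX]; exact mul_nonneg hT0.le (N2_nn N b)
  rw [← hX] at hmv ⊢
  have hΦ : ∀ S : Set ℝ, 0 ≤ (gaussianReal 0 1).real S ∧ (gaussianReal 0 1).real S ≤ 1 := fun S => ⟨measureReal_nonneg, measureReal_le_one⟩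
  obtain ⟨G, hG⟩ : ∃ G, G = (gaussianReal 0 1).real J * (gaussianReal 0 1).real J' := ⟨_, rfl⟩
  have hG0 : 0 ≤ G := by rw [hG]; exact mul_nonneg (hΦ J).1 (hΦ J').1
  have hG1 : G ≤ 1 := by rw [hG]; exact mul_le_one₀ (hΦ J).2 (hΦ J').1 (hΦ J').2
  rw [← hG] at hlev ⊢
  obtain ⟨W, hW⟩ : ∃ W : ℝ → ℝ, W = fun t => ‖dp N b t‖ ^ 2 := ⟨_, rfl⟩
  have hWc : Continuous W := by rw [hW]; exact (dp_c N b).norm.pow 2
  have hW0 : ∀ t, 0 ≤ W t := fun t => by rw [hW]; exact sq_nonneg _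
  obtain ⟨m, hm⟩ : ∃ m, m = ∫ t in T..(2 * T), W t := ⟨_, rfl⟩
  have hmX : |m - X| ≤ η * X := by rw [hm, hW]; exact hmv
  have hWI : (∫ t in Set.Icc T (2 * T) ∩ {t | Rr al T t ∈ J ∧ Ri al T t ∈ J'}, ‖dp N b t‖ ^ 2) =
      ∫ t in Set.Icc T (2 * T) ∩ {t | Rr al T t ∈ J ∧ Ri al T t ∈ J'}, W t := by rw [hW]
  rw [hWI]
  rcases hX0.eq_or_lt with hX1 | hX1
  · -- trivial case
    have h1 : N2 N b = 0 := by
      rcases mul_eq_zero.1 (hX.symm.trans hX1.symm) with h | h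
      · exact absurd h hT0.ne'
      · exact h
    have h2 : ∀ t, W t = 0 := fun t => by
      have h3 := (Pool.Agent.Q84.UM.t_DPM.2.2 N b t).1
      rw [h1, mul_zero] at h3
      rw [hW]
      exact le_antisymm h3 (sq_nonneg _)
    simp [h2, ← hX1]
  · have hm1 := abs_le.1 hmX
    have hηX : η * X ≤ 1 / 2 * X := mul_le_mul_of_nonneg_right hη1 hX0
    have hm0 : 0 < m := by linarith [hm1.1]
    have hmX2 : X ≤ 2 * m := by linarith [hm1.1]
    obtain ⟨V, hV⟩ : ∃ V : ℝ → ℂ, V = fun t => ((Rr al T t : ℝ) : ℂ) + ((Ri al T t : ℝ) : ℂ) * I := ⟨_, rfl⟩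
    have hVm : Measurable V := by
      rw [hV]
      exact (Complex.measurable_ofReal.comp (Rr_meas al T)).add ((Complex.measurable_ofReal.comp (Ri_meas al T)).mul_const I)
    obtain ⟨μ, hμ, hμ1, hμ2⟩ := wlaw hT0.le hWc hW0 hVm hm hm0
    have hch := hlev μ hμ (fun z hz => by
      have h1 := hμ1 (fun w => cexp (I * (((conj z * w).re : ℝ) : ℂ))) (by fun_prop)
      rw [h1]
      have e1 : ∀ t, (conj z * V t).re = z.re * Rr al T t + z.im * Ri al T t := by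
        intro t
        rw [hV]
        simp
      simp only [e1]
      have h2 := hcf N hN b z hz
      rw [← hX] at h2
      have hWW : (∫ t in T..(2 * T), cexp (I * ((z.re * Rr al T t + z.im * Ri al T t : ℝ) : ℂ)) * ((‖dp N b t‖ ^ 2 : ℝ) : ℂ)) =
          ∫ t in T..(2 * T), cexp (I * ((z.re * Rr al T t + z.im * Ri al T t : ℝ) : ℂ)) * ((W t : ℝ) : ℂ) := by rw [hW]
      rw [hWW] at h2
      obtain ⟨F, hF⟩ : ∃ F : ℂ, F = ∫ t in T..(2 * T), cexp (I * ((z.re * Rr al T t + z.im * Ri al T t : ℝ) : ℂ)) * ((W t : ℝ) : ℂ) := ⟨_, rfl⟩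
      rw [← hF] at h2 ⊢
      obtain ⟨E, hE⟩ : ∃ E, E = Real.exp (-(‖z‖ ^ 2 / 2)) := ⟨_, rfl⟩
      rw [← hE] at h2 ⊢
      have hE0 : 0 ≤ E := by rw [hE]; positivity
      have hE1 : E ≤ 1 := by
        rw [hE]
        exact Real.exp_le_one_iff.2 (by have : 0 ≤ ‖z‖ ^ 2 / 2 := by positivity
                                        linarith)
      have e2 : ((1 / m : ℝ) : ℂ) * F - ((E : ℝ) : ℂ) = ((1 / m : ℝ) : ℂ) * ((F - ((E * X : ℝ) : ℂ)) + ((E * (X - m) : ℝ) : ℂ)) := by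
        have hmc : (m : ℂ) ≠ 0 := by exact_mod_cast hm0.ne'
        push_cast
        field_simp
        ring
      rw [e2, norm_mul, Complex.norm_real, Real.norm_eq_abs, abs_of_pos (by positivity : 0 < 1 / m)]
      have h3 : ‖(F - ((E * X : ℝ) : ℂ)) + ((E * (X - m) : ℝ) : ℂ)‖ ≤ τ / 4 * X + τ / 4 * X := by
        refine (norm_add_le _ _).trans (add_le_add h2 ?_)
        rw [Complex.norm_real, Real.norm_eq_abs, abs_mul, abs_of_nonneg hE0, abs_sub_comm]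
        have h4 : E * |m - X| ≤ 1 * (η * X) := mul_le_mul hE1 hmX (abs_nonneg _) zero_le_one
        have h5 := mul_le_mul_of_nonneg_right hη2 hX0
        linarith
      have h4 := mul_le_mul_of_nonneg_left h3 (show 0 ≤ 1 / m by positivity)
      refine h4.trans ?_
      rw [one_div, inv_mul_le_iff₀ hm0]
      have h5 := mul_le_mul_of_nonneg_left hmX2 (show 0 ≤ τ / 2 by positivity)
      linarith)
    have hEm : MeasurableSet {w : ℂ | w.re ∈ J ∧ w.im ∈ J'} :=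
      (Complex.measurable_re hJ.measurableSet).inter (Complex.measurable_im hJ'.measurableSet)
    rw [hμ2 _ hEm] at hch
    have e3 : Set.Icc T (2 * T) ∩ V ⁻¹' {w : ℂ | w.re ∈ J ∧ w.im ∈ J'} = Set.Icc T (2 * T) ∩ {t | Rr al T t ∈ J ∧ Ri al T t ∈ J'} := by
      ext t
      rw [hV]
      simp
    rw [e3] at hch
    obtain ⟨P, hP⟩ : ∃ P, P = ∫ t in Set.Icc T (2 * T) ∩ {t | Rr al T t ∈ J ∧ Ri al T t ∈ J'}, W t := ⟨_, rfl⟩
    rw [← hP] at hch ⊢
    have h5 : |P - G * m| ≤ ε / 4 * m := by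
      have e4 : P - G * m = m * (1 / m * P - G) := by field_simp
      rw [e4, abs_mul, abs_of_pos hm0, mul_comm (ε / 4)]
      exact mul_le_mul_of_nonneg_left hch hm0.le
    have e5 : P - G * X = (P - G * m) + G * (m - X) := by ring
    rw [e5]
    refine (abs_add_le _ _).trans ?_
    have h6 : |G * (m - X)| ≤ ε / 4 * X := by
      rw [abs_mul, abs_of_nonneg hG0]
      have h7 : G * |m - X| ≤ 1 * (η * X) := mul_le_mul hG1 hmX (abs_nonneg _) zero_le_one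
      have h8 := mul_le_mul_of_nonneg_right hη3 hX0
      linarith
    have h7 : ε / 4 * m ≤ ε / 4 * (2 * X) := by
      refine mul_le_mul_of_nonneg_left ?_ (by positivity)
      linarith [hm1.2]
    have h8 : 0 ≤ ε * X := mul_nonneg hε.le hX0
    linarith

end

end Pool.Agent.H4.MZ
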