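import Pool.Agent.H4.MZ.Stm

set_option autoImplicit false

/-!
Project MZ (helper4), module REAL, first part: the coefficients (helper11).
-/

namespace Pool.Agent.H4.MZ

open Filter Topology MeasureTheory Complex
open Pool.Agent.Q97.UM

noncomputable section

theorem norm_ih (h : ℝ) (hh : 0 ≤ h) (n : ℕ) (hn : 1 ≤ n) :
    ‖(n : ℂ) ^ (-(h * I)) - 1‖ ≤ h * Real.log n := by
  have hn0 : (n : ℂ) ≠ 0 := by exact_mod_cast (by omega : n ≠ 0)
  have hl : 0 ≤ Real.log n := Real.log_natCast_nonneg n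
  rw [Complex.cpow_def_of_ne_zero hn0]
  have e : Complex.log n * (-(h * I)) = I * ((-(h * Real.log n) : ℝ) : ℂ) := by
    rw [← Complex.natCast_log]
    push_cast
    ring
  rw [e]
  refine Real.norm_exp_I_mul_ofReal_sub_one_le.trans ?_
  rw [Real.norm_eq_abs, abs_neg, abs_of_nonneg (by positivity)]

theorem norm_ih2 (h : ℝ) (n : ℕ) (hn : 1 ≤ n) : ‖(n : ℂ) ^ (-(h * I)) - 1‖ ≤ 2 := by
  refine (norm_sub_le _ _).trans ?_
  rw [Complex.norm_natCast_cpow_of_pos hn]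
  simp
  norm_num

open Classical in
/-- the difference of the coefficients -/
def al (h : ℝ) (N Y n : ℕ) : ℂ := lamL n * ((n : ℂ) ^ (-(h * I)) - 1) - ah h N Y n

theorem lamL_prime {p : ℕ} (hp : p.Prime) : lamL p = 1 := by
  unfold lamL
  rw [ArithmeticFunction.vonMangoldt_apply_prime hp, div_self]
  · simp
  · exact (Real.log_pos (by exact_mod_cast hp.one_lt)).ne'

theorem al_zero {h : ℝ} {N Y n : ℕ} (hn : n.Prime ∧ N < n ∧ n ≤ Y) : al h N Y n = 0 := by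
  unfold al ah
  rw [if_pos hn, lamL_prime hn.1]
  ring

theorem ah_zero {h : ℝ} {N Y n : ℕ} (hn : ¬ (n.Prime ∧ N < n ∧ n ≤ Y)) : ah h N Y n = 0 := by
  unfold ah
  rw [if_neg hn]

theorem al_le (h : ℝ) (hh : 0 ≤ h) (N Y n : ℕ) :
    ‖al h N Y n‖ ≤ ArithmeticFunction.vonMangoldt n * h := by
  have hL : 0 ≤ ArithmeticFunction.vonMangoldt n := ArithmeticFunction.vonMangoldt_nonneg
  by_cases hn : n.Prime ∧ N < n ∧ n ≤ Y
  · rw [al_zero hn, norm_zero]
    positivity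
  · unfold al
    rw [ah_zero hn, sub_zero, norm_mul]
    unfold lamL
    rw [Complex.norm_real, Real.norm_eq_abs, abs_of_nonneg (div_nonneg hL (Real.log_natCast_nonneg n))]
    rcases Nat.lt_or_ge n 2 with h2 | h2
    · have : ArithmeticFunction.vonMangoldt n = 0 := by
        interval_cases n <;> simp
      rw [this]; simp
    · have hl : 0 < Real.log n := Real.log_pos (by exact_mod_cast h2)
      have h3 := norm_ih h hh n (by omega)
      calc ArithmeticFunction.vonMangoldt n / Real.log n * ‖(n : ℂ) ^ (-(h * I)) - 1‖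
          ≤ ArithmeticFunction.vonMangoldt n / Real.log n * (h * Real.log n) :=
            mul_le_mul_of_nonneg_left h3 (by positivity)
        _ = ArithmeticFunction.vonMangoldt n * h := by field_simp

theorem dp_ah (h : ℝ) (N Y X : ℕ) (hYX : Y ≤ X) (t : ℝ) :
    dp X (ah h N Y) t = dp Y (ah h N Y) t := by
  unfold dp
  symm
  refine Finset.sum_subset (Finset.Icc_subset_Icc_right hYX) ?_
  intro n _ hn2
  rw [ah_zero, zero_mul]
  rintro ⟨h1, h2, h3⟩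
  exact hn2 (Finset.mem_Icc.2 ⟨h1.one_le, h3⟩)

theorem dp_al (h : ℝ) (N Y X : ℕ) (hYX : Y ≤ X) (t : ℝ) :
    dp X lamL (t + h) - dp X lamL t = dp Y (ah h N Y) t + dp X (al h N Y) t := by
  have h1 := (Pool.Agent.Q84.UM.t_DPM.2.1 X lamL t (-h)).1
  rw [sub_neg_eq_add] at h1
  rw [h1, ← dp_ah h N Y X hYX t]
  unfold dp
  rw [← Finset.sum_sub_distrib, ← Finset.sum_add_distrib]
  refine Finset.sum_congr rfl (fun n _ => ?_)
  unfold al
  have : ((n : ℂ) ^ (((-h : ℝ) : ℂ) * I)) = (n : ℂ) ^ (-(h * I)) := by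
    congr 1
    push_cast
    ring
  beta_reduce
  rw [this]
  ring

/-- the first sum -/
theorem sum_big (h : ℝ) (CP : ℝ) (hPSM : ∀ x : ℝ, 2 ≤ x →
    (∑ p ∈ (Finset.Icc 1 ⌊x⌋₊).filter Nat.Prime, Real.log p / p ≤ CP * Real.log x) ∧
    (∑ p ∈ (Finset.Icc 1 ⌊x⌋₊).filter Nat.Prime, Real.log p ^ 2 / p ≤ CP * Real.log x ^ 2) ∧
    (∀ y : ℝ, 2 ≤ y → y ≤ x → ∑ p ∈ (Finset.Icc 1 ⌊x⌋₊).filter (fun p => p.Prime ∧ ⌊y⌋₊ < p), (1 : ℝ) / p ≤
      Real.log (Real.log x / Real.log y) + CP)) (N : ℕ) (x y : ℝ) (hy : 2 ≤ y) (hyx : y ≤ x) :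
    ∑ p ∈ bigP N ⌊x⌋₊, ‖al h N ⌊y⌋₊ p‖ ^ 2 / p ≤ 4 * (Real.log (Real.log x / Real.log y) + CP) := by
  have h1 := (hPSM x (hy.trans hyx)).2.2 y hy hyx
  refine le_trans ?_ (mul_le_mul_of_nonneg_left h1 (by norm_num))
  rw [Finset.mul_sum]
  have hsub : (bigP N ⌊x⌋₊).filter (fun p => ⌊y⌋₊ < p) ⊆
      (Finset.Icc 1 ⌊x⌋₊).filter (fun p => p.Prime ∧ ⌊y⌋₊ < p) := by
    intro p hp
    simp only [bigP, Finset.mem_filter] at hp ⊢
    exact ⟨hp.1.1, hp.1.2.1, hp.2⟩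
  calc ∑ p ∈ bigP N ⌊x⌋₊, ‖al h N ⌊y⌋₊ p‖ ^ 2 / p
      = ∑ p ∈ (bigP N ⌊x⌋₊).filter (fun p => ⌊y⌋₊ < p), ‖al h N ⌊y⌋₊ p‖ ^ 2 / p := by
        symm
        refine Finset.sum_subset (Finset.filter_subset _ _) ?_
        intro p hp hp2
        have hp' := hp
        simp only [bigP, Finset.mem_filter] at hp'
        have h3 : p ≤ ⌊y⌋₊ := by
          by_contra hcon
          exact hp2 (Finset.mem_filter.2 ⟨hp, not_le.1 hcon⟩)
        rw [al_zero ⟨hp'.2.1, hp'.2.2, h3⟩]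
        simp
    _ ≤ ∑ p ∈ (bigP N ⌊x⌋₊).filter (fun p => ⌊y⌋₊ < p), 4 * ((1 : ℝ) / p) := by
        refine Finset.sum_le_sum (fun p hp => ?_)
        have hp' := hp
        simp only [bigP, Finset.mem_filter] at hp'
        have hp0 : 1 ≤ p := hp'.1.2.1.one_le
        have h4 : ‖al h N ⌊y⌋₊ p‖ ≤ 2 := by
          unfold al
          rw [ah_zero (by omega), lamL_prime hp'.1.2.1, sub_zero, one_mul]
          exact norm_ih2 h p hp0
        have h5 : ‖al h N ⌊y⌋₊ p‖ ^ 2 ≤ 4 := by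
          have := norm_nonneg (al h N ⌊y⌋₊ p)
          nlinarith
        rw [mul_one_div]
        gcongr
    _ ≤ _ := Finset.sum_le_sum_of_subset_of_nonneg hsub (fun p _ _ => by positivity)

/-- the second sum -/
theorem sum_small (h : ℝ) (CP : ℝ) (hPSM : ∀ x : ℝ, 2 ≤ x →
    (∑ p ∈ (Finset.Icc 1 ⌊x⌋₊).filter Nat.Prime, Real.log p / p ≤ CP * Real.log x))
    (N X : ℕ) (hN : 1 ≤ N) :
    ∑ p ∈ smallP N X, Real.log p * h ^ 2 / p ≤ CP * h ^ 2 * Real.log (2 * N) := by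
  have h1 := hPSM (2 * N) (by
    have : (1 : ℝ) ≤ N := by exact_mod_cast hN
    linarith)
  have hsub : smallP N X ⊆ (Finset.Icc 1 ⌊(2 * N : ℝ)⌋₊).filter Nat.Prime := by
    intro p hp
    simp only [smallP, Finset.mem_filter, Finset.mem_Icc] at hp ⊢
    refine ⟨⟨hp.1.1, ?_⟩, hp.2.1⟩
    apply Nat.le_floor
    have : (p : ℝ) ≤ N := by exact_mod_cast hp.2.2
    have h0 : (0 : ℝ) ≤ N := Nat.cast_nonneg N
    linarith
  calc ∑ p ∈ smallP N X, Real.log p * h ^ 2 / p = h ^ 2 * ∑ p ∈ smallP N X, Real.log p / p := by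
        rw [Finset.mul_sum]
        refine Finset.sum_congr rfl (fun p _ => ?_)
        ring
    _ ≤ h ^ 2 * ∑ p ∈ (Finset.Icc 1 ⌊(2 * N : ℝ)⌋₊).filter Nat.Prime, Real.log p / p := by
        refine mul_le_mul_of_nonneg_left ?_ (sq_nonneg h)
        exact Finset.sum_le_sum_of_subset_of_nonneg hsub
          (fun p _ _ => div_nonneg (Real.log_natCast_nonneg p) (Nat.cast_nonneg p))
    _ ≤ h ^ 2 * (CP * Real.log (2 * N)) := mul_le_mul_of_nonneg_left h1 (sq_nonneg h)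
    _ = CP * h ^ 2 * Real.log (2 * N) := by ring

end

end Pool.Agent.H4.MZ
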