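import Pool.Agent.H4.LG.Stm

set_option autoImplicit false

/-!
Project MZ (helper4). THE MESOSCOPIC GAUSSIAN LAW RELATIVE TO EVERY DIRICHLET POLYNOMIAL.

THEOREM. `L = log T`, `h = 2πΛ/L`. Under `|B(t)|² dt` on `[T, 2T]`, for ALL Dirichlet polynomials `B` of length `≤ T^θ`, the pair
`(log|ζ(1/2+i(t+h))| - log|ζ(1/2+it)|, π (N(t+h) - N(t) - Λ)) / √(log Λ)` is close to a pair of independent standard normal variables,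
first `T → ∞`, then `Λ → ∞` (`θ` depends on `Λ`), uniformly in `B`.

METHOD. Both coordinates are the real and imaginary part of `P(t) = ∑_{N < p ≤ Y} (p^{-ih} - 1) p^{-1/2-it}`, `Y = T^ε`, up to an error with a bounded
mean square relative to `|B|²` (S_REAL, S_IMAG: the bound does not depend on `Λ`), and `P` is exactly Gaussian relative to `|B|²` (S_CHR), with
`∑ |p^{-ih} - 1|²/p = 2 log Λ + O(1)` (S_VAR).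

All statements below are `def S_xxx : Prop`, with complete proofs in the comments. Write `theorem t_xxx : S_xxx` (or `J_xxx`) in
`Pool/Agent/H4/MZ/<Name>.lean`, namespace `Pool.Agent.H4.MZ` (import this file). Known inputs (library, directory Q97/UM etc., `R_pool_sql_team_seeded_3997aac3`):
`b_THP : S_THP`, `b_EUL`, `b_EFL : S_EFL`, `b_STM : S_STM`, `b_TAIL`, `Pool.Agent.Q176.UM.t_QH : S_QH`, `Pool.Agent.Q247.UM.t_QLF : S_QLF`,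
`Pool.Agent.Q247.UM.t_OMEX : S_OMEX`, `Pool.Agent.Q84.UM.t_DPM : S_DPM`, `Pool.Agent.Q84.UM.t_MVL : S_MVL`, `Pool.Agent.Q222.UM.t_MV2 : S_MV2`,
`Pool.Agent.Q222.UM.t_MER : S_MER`, `Pool.Agent.Q247.UM.t_CONV : S_CONV` (Q247/UM/CONV.lean), `Pool.Agent.Q149.UM.t_MZ : S_MZ` (Q149/UM/MZ.lean; S_MZ is in Q97/UM/Stm12.lean).
-/

namespace Pool.Agent.H4.MZ

open Filter Topology MeasureTheory Complex ProbabilityTheory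
open scoped ComplexConjugate
open Pool.Agent.Q97.UM
open Pool.Agent.H4.LG (Yt)

noncomputable section

/-- the indicator function of `(0, a]` -/
def wd (a : ℝ) : ℝ → ℝ := (Set.Ioc 0 a).indicator fun _ => (1 : ℝ)

/-- `Λ` mean spacings -/
def sh (lam T : ℝ) : ℝ := 2 * Real.pi * lam / Real.log T

open Classical in
/-- `p^{-ih} - 1` for the primes in `(N, Y]` -/
def ah (h : ℝ) (N Y n : ℕ) : ℂ := if n.Prime ∧ N < n ∧ n ≤ Y then (n : ℂ) ^ (-(h * I)) - 1 else 0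

/-- convolution powers -/
def pw (α : ℕ → ℂ) : ℕ → ℕ → ℂ
  | 0 => fun n => if n = 1 then 1 else 0
  | (k + 1) => cv α (pw α k)

/-- sum of the fourth powers -/
def Q4 (Y : ℕ) (α : ℕ → ℂ) : ℝ := ∑ n ∈ Finset.Icc 1 Y, ‖α n‖ ^ 4 / (n : ℝ) ^ 2

/-- `α` is supported on the primes in `(N, Y]` -/
def PS (N Y : ℕ) (α : ℕ → ℂ) : Prop := ∀ n : ℕ, α n ≠ 0 → n.Prime ∧ N < n ∧ n ≤ Y

/-- `Λ(n) / log n` -/
def lamL (n : ℕ) : ℂ := ((ArithmeticFunction.vonMangoldt n / Real.log n : ℝ) : ℂ)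

/-- coefficients of the explicit formula -/
def be (w : ℝ → ℝ) (L h : ℝ) (n : ℕ) : ℂ := lamL n * ((QL w L (Real.log n) / qh w 0 : ℝ) : ℂ) * ((n : ℂ) ^ (-(h * I)) - 1)

/-! ### the prime sum -/

/-- ALG: powers of prime sums. PROOF. (1), (2) induction with S_DPM (first part). (3): `cv (pw α i) b n ≠ 0` implies that `n` has exactly `i` prime factors `> N`
(with multiplicity): `n = m k`, `k` a product of `i` primes `> N`, `1 ≤ m ≤ N`. (4): `n = m k` determines `m` and `k` (`k` is the part of `n` with the primes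
`> N`), so at most one term of the convolution is not zero and `∑_n |·|²/n` factors. (5): as the third part of S_PWKA (theorem `Pool.Agent.Q38.UM.t_PWKA`, file
Q38/UM/PWKA.lean; look there for reusable lemmas): `pw α i n = c(n) ∏ α_{p_j}` for `n = p_1 ⋯ p_i`, `c(n) = i!/∏ e_j! ` the number of ordered factorisations, and
`∑_n |pw α i n|²/n = ∑_{(p_1, ..., p_i)} c(p_1 ⋯ p_i) ∏ |α_{p_j}|²/p_j` over ordered tuples; `c ≤ i!`, with equality if the primes are distinct; the tuples with two equal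
primes contribute at most `i! i² Q4 V^{i-2}`, `V = N2 Y α`. (Or by induction on `i` with `N2 (cv α c)`: expand the square.) -/
def S_ALG : Prop := ∀ (N Y : ℕ) (α b : ℕ → ℂ), 1 ≤ Y → PS N Y α → (∀ n, b n ≠ 0 → 1 ≤ n ∧ n ≤ N) →
  (∀ (i : ℕ) (t : ℝ), dp (Y ^ i * N) (cv (pw α i) b) t = dp Y α t ^ i * dp N b t) ∧
  (∀ (i n : ℕ), cv (pw α i) b n ≠ 0 → 1 ≤ n ∧ n ≤ Y ^ i * N) ∧
  (∀ i l : ℕ, i ≠ l → ∀ n : ℕ, cv (pw α i) b n = 0 ∨ cv (pw α l) b n = 0) ∧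
  (∀ i : ℕ, N2 (Y ^ i * N) (cv (pw α i) b) = N2 (Y ^ i) (pw α i) * N2 N b) ∧
  (∀ i : ℕ, N2 (Y ^ i) (pw α i) ≤ (i.factorial : ℝ) * N2 Y α ^ i ∧
    (i.factorial : ℝ) * N2 Y α ^ i - (i.factorial : ℝ) * (i : ℝ) ^ 2 * Q4 Y α * (1 + N2 Y α) ^ i ≤ N2 (Y ^ i) (pw α i))

/-- MOM: moments. Job `S_ALG → S_MOM` (`theorem t_MOM : S_ALG → S_MOM`). PROOF. Replace `b` by its restriction to `[1, N]`. `F_i = P^i B = dp (Y^i N) c_i`, `c_i = cv (pw α i) b`; all lengths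
may be replaced by `M = Y^m N ≤ T^{1/8}` (the coefficients vanish beyond). `F conj G = (1/4) ∑_{k=0}^{3} i^k |F + i^k G|²`, and by S_MV2
`|∫_T^{2T} |dp M c|² - T N2 M c| ≤ C₀ M (1 + log M) N2 M c ≤ T^{1/2} N2 M c`. For `i ≠ l` `N2 (c_i + i^k c_l) = N2 c_i + N2 c_l` (disjoint supports), and `∑ i^k = 0`; `i = l`:
directly. `N2 c_i = N2 (pw α i) N2 N b ≤ i! V^i N2 N b`. -/
def S_MOM : Prop := ∀ m : ℕ, ∃ C : ℝ, 0 ≤ C ∧ ∀ᶠ T : ℝ in atTop, ∀ (N Y : ℕ) (α b : ℕ → ℂ), 1 ≤ Y → (Y : ℝ) ^ m * N ≤ T ^ (1 / 8 : ℝ) → PS N Y α →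
  ∀ i l : ℕ, i ≤ m → l ≤ m →
    ‖(∫ t in T..(2 * T), dp Y α t ^ i * conj (dp Y α t) ^ l * ((‖dp N b t‖ ^ 2 : ℝ) : ℂ)) -
      (if i = l then (((i.factorial : ℝ) * N2 Y α ^ i * (T * N2 N b) : ℝ) : ℂ) else 0)‖ ≤
        C * (Q4 Y α + T ^ (-(1 / 2) : ℝ)) * (1 + N2 Y α) ^ m * (T * N2 N b)

/-- CHR: characteristic function. Job `S_MOM → S_CHR`. PROOF. `x = Re (conj z P)`, `V = N2 Y α ≤ V₀`. `|e^{ix} - ∑_{j < 2k} (ix)^j/j!| ≤ x^{2k}/(2k)!`. By S_MOM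
(`x^j = 2^{-j} ∑_i (j choose i) (conj z P)^i (z conj P)^{j-i}`) `∫ x^j |B|²` is, up to `Xi^j C (Q4 + T^{-1/2}) (1+V₀)^m T N2`, zero for odd `j` and
`2^{-2r} (2r choose r) r! (|z|² V)^r T N2 = ((2r)!/r!) (|z|² V/4)^r T N2` for `j = 2r`. So the integral is `∑_{r<k} (-|z|²V/4)^r/r! T N2` up to
`(|z|² V/4)^k/k! T N2` and errors `≤ e^{Xi + 1} C (κ + T^{-1/2}) (1+V₀)^m T N2`; and `|e^{-v} - ∑_{r<k} (-v)^r/r!| ≤ v^k/k!`. Choose `k` with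
`2 (Xi² V₀/4)^k/k! ≤ τ/4`, `m = 2k`, then `κ` small, `T` large. -/
def S_CHR : Prop := ∀ V₀ Xi τ : ℝ, 0 ≤ V₀ → 0 ≤ Xi → 0 < τ → ∃ (m : ℕ) (κ : ℝ), 1 ≤ m ∧ 0 < κ ∧ ∀ᶠ T : ℝ in atTop, ∀ (N Y : ℕ) (α b : ℕ → ℂ), 1 ≤ Y →
  (Y : ℝ) ^ m * N ≤ T ^ (1 / 8 : ℝ) → PS N Y α → N2 Y α ≤ V₀ → Q4 Y α ≤ κ → ∀ z : ℂ, ‖z‖ ≤ Xi →
    ‖(∫ t in T..(2 * T), cexp (I * (((conj z * dp Y α t).re : ℝ) : ℂ)) * ((‖dp N b t‖ ^ 2 : ℝ) : ℂ)) -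
      ((Real.exp (-(‖z‖ ^ 2 * N2 Y α / 4)) * (T * N2 N b) : ℝ) : ℂ)‖ ≤ τ * (T * N2 N b)

/-- PSM: prime sums (Mertens). PROOF. From S_MER (theorem `Pool.Agent.Q222.UM.t_MER`) or any Mertens theorem of the libraries, Abel summation. -/
def S_PSM : Prop := ∃ C : ℝ, 1 ≤ C ∧ ∀ x : ℝ, 2 ≤ x →
  (∑ p ∈ (Finset.Icc 1 ⌊x⌋₊).filter Nat.Prime, Real.log p / p ≤ C * Real.log x) ∧
  (∑ p ∈ (Finset.Icc 1 ⌊x⌋₊).filter Nat.Prime, Real.log p ^ 2 / p ≤ C * Real.log x ^ 2) ∧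
  (∀ y : ℝ, 2 ≤ y → y ≤ x → ∑ p ∈ (Finset.Icc 1 ⌊x⌋₊).filter (fun p => p.Prime ∧ ⌊y⌋₊ < p), (1 : ℝ) / p ≤ Real.log (Real.log x / Real.log y) + C)

/-- VAR: the variance. Job `S_PSM → S_VAR`. PROOF. `|p^{-ih} - 1|² = 2 - 2 cos (h log p)`. S_MZ (`δ = ε`) with `u = 0` and `u = h`: `∑_{p ≤ Y} (2 - 2 cos (h log p))/p =
2 log|ζ(1+1/L)| - 2 log|ζ(1+1/L+ih)| + O(1)`, and `|ζ(1+1/L+iu)| |1/L + iu| → 1` for `u = 0, h`, as `T → ∞` (`riemannZeta_residue_one`), so this is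
`2 log |1 + 2πi Λ| + O(1) = 2 log Λ + O(1)`. The primes `p ≤ N`: at most `∑ h² log² p/p ≤ C h² log² (T^{1/Λ}) ≤ 4π² C`. `Q4 ≤ ∑ (h log p)^4/p² ≤ C h⁴ → 0`. -/
def S_VAR : Prop := ∀ ε : ℝ, 0 < ε → ε ≤ 1 → ∃ C : ℝ, 0 ≤ C ∧ ∀ lam : ℝ, 1 ≤ lam → ∀ κ : ℝ, 0 < κ → ∀ᶠ T : ℝ in atTop, ∀ N : ℕ,
  (N : ℝ) ≤ T ^ (1 / lam) → |N2 ⌊T ^ ε⌋₊ (ah (sh lam T) N ⌊T ^ ε⌋₊) - 2 * Real.log lam| ≤ C ∧ Q4 ⌊T ^ ε⌋₊ (ah (sh lam T) N ⌊T ^ ε⌋₊) ≤ κ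

/-- SQ: mean squares. PROOF. `b` restricted to `[1, N]`, `α` to `[1, M]`; `dp M α dp N b = dp (N M) (cv α b)` (S_DPM), S_MVL at `T/2`, `T`, `2T`, and S_CONV with `η = 1`. -/
def S_SQ : Prop := ∃ C₀ : ℝ, 1 ≤ C₀ ∧ ∀ᶠ T : ℝ in atTop, ∀ (N M : ℕ) (α b : ℕ → ℂ) (β : ℕ → ℝ) (β₁ : ℝ), 1 ≤ N → 1 ≤ M → (N : ℝ) * M ≤ T ^ (1 / 8 : ℝ) →
  (∀ n, 0 ≤ β n ∧ β n ≤ β₁) → (∀ n, ‖α n‖ ≤ ArithmeticFunction.vonMangoldt n * β n) →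
  ∫ t in (T / 2)..(4 * T), ‖dp M α t‖ ^ 2 * ‖dp N b t‖ ^ 2 ≤ C₀ * ((∑ p ∈ bigP N M, ‖α p‖ ^ 2 / p) +
    Real.log (2 * N) * (∑ p ∈ smallP N M, Real.log p * β p ^ 2 / p) + Real.log (2 * N * M) * β₁ ^ 2) * (T * N2 N b)

/-! ### the real part -/

/-- EU: the Euler product. Job `S_PSM → S_EU`. PROOF. `-log|1 - z| = Re ∑_{k ≥ 1} z^k/k`, `z = p^{-1/2-it}`. The difference consists of the `p^{-k/2}/k` with `p ≤ X < p^k`: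
`k = 2`: `∑_{√X < p ≤ X} 1/(2p) ≤ C` (Mertens), `k ≥ 3`: `∑_p ∑_{k ≥ 3} p^{-k/2} ≤ C`. (Compare the proof of S_EUL, `Pool.Agent.Q149.UM.t_EUL`.) -/
def S_EU : Prop := ∃ C : ℝ, 0 ≤ C ∧ ∀ (X : ℕ) (t : ℝ), |EP X t - (dp X lamL t).re| ≤ C

/-- REAL. Job `S_SQ → S_PSM → S_EU → S_REAL`. PROOF. S_THP with `m = 2` gives `θ, δ₀`; `δ = min δ₀ (1/16)`, `X = ⌊T^δ⌋`, `θ₀ = min θ (δ/2)`. `log|ζ(1/2+iu)| = EP X u + D(u)`, at `u = t` and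
`u = t + h` (`h ≤ 1`; `dp N b t = dp N b' (t+h)` with the same `N2`, S_DPM). By S_EU `EP X (t+h) - EP X t = Re dp X a t + O(1)`, `a_n = lamL n (n^{-ih} - 1)`. `α = a - ah h N Y`
is zero at the primes in `(N, Y]`, and `|a_n| ≤ h Λ(n)` (`|n^{-ih} - 1| ≤ h log n`): S_SQ with `β = β₁ = h`, `M = X`: `∑_{bigP N X} ≤ 4 ∑_{Y < p ≤ X} 1/p ≤ 4 log (δ/ε) + C`,
`log (2N) ∑_{p ≤ N} (log p) h²/p ≤ C h² (1 + log N)² ≤ C`, and the last term tends to `0`. `∫ O(1)² |B|² ≤ C T N2` by S_MVL. -/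
def S_REAL : Prop := ∃ θ₀ : ℝ, 0 < θ₀ ∧ θ₀ ≤ 1 / 32 ∧ ∀ ε : ℝ, 0 < ε → ε ≤ θ₀ → ∃ C : ℝ, 0 ≤ C ∧ ∀ lam : ℝ, 1 ≤ lam → ∀ᶠ T : ℝ in atTop, ∀ N : ℕ, 1 ≤ N →
  (N : ℝ) ≤ T ^ (θ₀ / lam) → ∀ b : ℕ → ℂ,
    IntervalIntegrable (fun t => |Real.log ‖zt (t + sh lam T)‖ - Real.log ‖zt t‖ - (dp ⌊T ^ ε⌋₊ (ah (sh lam T) N ⌊T ^ ε⌋₊) t).re| ^ 2 * ‖dp N b t‖ ^ 2)
      volume T (2 * T) ∧
    ∫ t in T..(2 * T), |Real.log ‖zt (t + sh lam T)‖ - Real.log ‖zt t‖ - (dp ⌊T ^ ε⌋₊ (ah (sh lam T) N ⌊T ^ ε⌋₊) t).re| ^ 2 * ‖dp N b t‖ ^ 2 ≤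
      C * (T * N2 N b)

/-! ### the number of zeros -/

open Classical in
/-- KER: the smoothed window. PROOF. `om w` is entire. `y = 0`: `om w x ^ 2` is real, `≥ 0`, integrable, `∫ om w x ^ 2 dx = 2π qh w 0` (S_QH and Fourier inversion for the Lipschitz
function `qh w` with compact support, compare `Pool.Agent.H4.LG.t_INV`; or Plancherel, `qh w 0 = ∫ w²`), and `om w x ^ 2 ≤ C²/(1 + max 0 (|x| - H))^4` (`far`, `unit`, `K ≥ 2`); `∫_0^a om w (x-s)² ds` is for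
`x ≤ 0` at most `∫_{|x|}^∞`, for `0 < x ≤ a` the whole integral minus two tails, for `x > a` at most one tail; a tail beyond `X ≥ 0` is `≤ C'/(1+X)²`. General `y`: with
`g = om w ^ 2`, `∫_0^a (g(x-s+iy) - g(x-s)) ds = i ∫_0^y (g(x + iη) - g(x - a + iη)) dη` (`s ↦ g(x - s + iη)`, `∂_η g = i g'`, Fubini), and `|g(x+iη)| ≤ 4C² e^{2δ|η|}/(1 + max 0 (|x| - H))^4`
(`near`, `far`); `|y| e^{2δ|y|} ≤ δ^{-1} e^{4δ|y|}`, `1/(1 + max 0 (|x|-H)) ≤ (1+H)/(1+|x|)`. -/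
def S_KER : Prop := ∀ (δ H C : ℝ) (K : ℕ) (w : ℝ → ℝ), 0 < δ → δ ≤ 1 / 16 → 1 ≤ H → 1 ≤ C → 2 ≤ K → OmW δ H C K w → ∃ C₁ : ℝ, 0 ≤ C₁ ∧
  ∀ a : ℝ, 0 ≤ a → ∀ x y : ℝ, ‖(∫ s in (0 : ℝ)..a, om w (((x - s : ℝ) : ℂ) + y * I) ^ 2) -
    (if 0 < x ∧ x ≤ a then ((2 * Real.pi * qh w 0 : ℝ) : ℂ) else 0)‖ ≤ C₁ * Real.exp (4 * δ * |y|) * (1 / (1 + |x|) ^ 2 + 1 / (1 + |x - a|) ^ 2)

/-- CNT: the zeros in the window and the local sums. Job `S_KER → S_CNT`. PROOF. `a = 2πΛ`, `x = L(γ - t)`, `y = -L(β - 1/2)`, so `L (zz - (t + s/L)) = x - s + iy`, and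
`Zt w T 0 (t + s/L) = ∑ m om w (x - s + iy)² e^{-(zz - t - s/L)²/2}`. Without the Gaussian factor the integral over `s` is `2π qh w 0 wd a x` up to S_KER, whose error is at most
`C₁ e^{4δ|y|} (1/(1+L|γ-t|)² + 1/(1+L|γ-t-h|)²)`: the terms of `SS (2δ) T` at `t` and `t + h` (`ZT T ⊆ ZD T`, see `Pool.Agent.H4.LG.ZT_ZD` in LG/Up.lean). The Gaussian factor: with `v = L(zz - t - s/L)`, `|e^{-v²/(2L²)} - 1| ≤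
(|v|²/L²) e^{|Im v|²/(2L²)} ≤ 2 |v|²/L²` (`|Im v| ≤ L/2`; `|e^{-z} - 1| ≤ |z| e^{max 0 (-Re z)}`), and `|om w v|² |v|² ≤ 4C² e^{2δ|y|} |v|²/(1 + max 0 (|Re v| - H))^4 ≤ C' e^{4δ|y|}/(1 + |Re v|)²`; sum: `(C'/L²) SS (2δ) T (t + s/L)`. -/
def S_CNT : Prop := ∀ (δ H C : ℝ) (K : ℕ) (w : ℝ → ℝ), 0 < δ → δ ≤ 1 / 64 → 1 ≤ H → 1 ≤ C → 2 ≤ K → OmW δ H C K w → ∃ C₂ : ℝ, 0 ≤ C₂ ∧
  ∀ lam : ℝ, 1 ≤ lam → ∀ᶠ T : ℝ in atTop, ∀ t : ℝ, T + 3 * Real.log T ≤ t → t ≤ 2 * T - 3 * Real.log T →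
    |2 * Real.pi * qh w 0 * Yt (wd (2 * Real.pi * lam)) T t - (∫ s in (0 : ℝ)..(2 * Real.pi * lam), Zt w T 0 (t + s / Real.log T)).re| ≤
      C₂ * (SS (2 * δ) T t + SS (2 * δ) T (t + sh lam T)) + C₂ / Real.log T * ∫ s in (0 : ℝ)..(2 * Real.pi * lam), SS (2 * δ) T (t + s / Real.log T)

/-- EXP: the explicit formula, integrated over the window. PROOF. `a = 2πΛ`. S_EFL with `u = 0`: `|Zt w T 0 t' - (QL(0) - 2 Re PL w L 0 t')| ≤ D/L` for `t' = t + s/L`. In `PL w L 0 t' = ∑_n Λ(n) n^{-1/2-it'} QL(log n)/L`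
the terms `n > M = ⌊T^{1/16}⌋` are together at most `1/T` for large `T` (S_QLF: `|QL x| ≤ D e^{-(x - 2δL)²/2}`, `2δL ≤ L/32`; as in the proof of S_PU, theorem `Pool.Agent.Q150.UM.t_PU`), for every `t'`. The finite sum is integrated
term by term: `∫_0^a n^{-is/L} ds = (1 - n^{-ih}) L/(i log n)` (`n ≥ 2`, `h = a/L`), so `∫_0^a Re Zt = a QL(0) + 2 qh w 0 Im dp M (be w L h) t + O(a D/L) + O(a/T)`
(`-2 Re (X/i) = -2 Im X`, `X = ∑ (Λ(n)/log n) QL(log n) (1 - n^{-ih}) n^{-1/2-it}`), and `|QL(0) - qh w 0| ≤ D/L`. For large `T` all errors are at most `1`. -/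
def S_EXP : Prop := ∀ (δ H C : ℝ) (K : ℕ) (w : ℝ → ℝ), 0 < δ → δ ≤ 1 / 64 → 1 ≤ H → 1 ≤ C → 2 ≤ K → OmW δ H C K w → qh w 0 ≠ 0 →
  ∀ lam : ℝ, 1 ≤ lam → ∀ᶠ T : ℝ in atTop, ∀ t : ℝ, T + 3 * Real.log T ≤ t → t ≤ 2 * T - 3 * Real.log T →
    |(∫ s in (0 : ℝ)..(2 * Real.pi * lam), Zt w T 0 (t + s / Real.log T)).re -
      2 * qh w 0 * (Real.pi * lam + (dp ⌊T ^ (1 / 16 : ℝ)⌋₊ (be w (Real.log T) (sh lam T)) t).im)| ≤ 1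

/-- IMAG. Job `S_SQ → S_PSM → S_CNT → S_EXP → S_IMAG`. PROOF. `θ₁, c, C` from `b_TAIL`; `δ = min (c/96) (1/64)` (so `16 (2δ) (2+1) ≤ c`), `C_w` from S_OMEX (`K = 2`), `H = 8 C_w²`, `w`; `qh w 0 ≥ (H - 4 C_w²)/π > 0` (S_QH).
`θ₀ = min (θ₁/2) (1/32)`. Pointwise (S_CNT, S_EXP, divided by `2 qh w 0`): `|π (Yt - Λ) - Im dp M (be) t| ≤ C (SS(t) + SS(t+h)) + (C/L) ∫_0^a SS(t + s/L) ds + C`, `M = ⌊T^{1/16}⌋`. Squares relative to `|B|²`: `b_STM` with `m = 2`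
(`SSB`-form: `∫_{T/4}^{8T} SS² |B|² ≤ C' T N2`), at `t + h`, `t + s/L` after translation (S_DPM: `dp N b (t) = dp N b' (t + y)`, same `N2`); `((C/L) ∫_0^a SS)² ≤ (C²a/L²) ∫_0^a SS²`, so this
part is `≤ C² a²/L² C' T N2 ≤ T N2` for large `T`. `α = be - ah h N Y`: S_SQ with `β = β₁ = C h` (`|be_n| ≤ (D/qh w 0) Λ(n) h`, `|QL| ≤ D`); for the primes `N < p ≤ Y`: `|α_p| = |p^{-ih} - 1| |QL(log p)/qh w 0 - 1| ≤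
2 D (1 + log p)/(L qh w 0)` (S_QLF: Lipschitz and `|QL 0 - qh w 0| ≤ D/L`), `∑_{p ≤ Y} (1 + log p)²/(L² p) ≤ C` (S_PSM), and for `Y < p ≤ M`: `|α_p| ≤ 2D/qh w 0`, `∑ 1/p ≤ log (1/(16 ε)) + C`. -/
def S_IMAG : Prop := ∃ θ₀ : ℝ, 0 < θ₀ ∧ θ₀ ≤ 1 / 32 ∧ ∀ ε : ℝ, 0 < ε → ε ≤ θ₀ → ∃ C : ℝ, 0 ≤ C ∧ ∀ lam : ℝ, 1 ≤ lam → ∀ᶠ T : ℝ in atTop, ∀ N : ℕ, 1 ≤ N →
  (N : ℝ) ≤ T ^ (θ₀ / lam) → ∀ b : ℕ → ℂ,
    ∫ t in (T + 3 * Real.log T)..(2 * T - 3 * Real.log T), (Real.pi * (Yt (wd (2 * Real.pi * lam)) T t - lam) -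
      (dp ⌊T ^ ε⌋₊ (ah (sh lam T) N ⌊T ^ ε⌋₊) t).im) ^ 2 * ‖dp N b t‖ ^ 2 ≤ C * (T * N2 N b)

/-! ### probability -/

/-- LEV. PROOF. By contradiction: for `Xi = n + 1`, `τ = 1/(n+1)` choose `μ_n`. `ℂ` is a real inner product space with `inner z w = Re (conj z w)`, so the characteristic functions (`charFun`) of `μ_n` converge pointwise
to that of `γ` = the law of `x + iy` under `(gaussianReal 0 1).prod (gaussianReal 0 1)`, `e^{-|z|²/2}` (`charFun_gaussianReal`, Fubini); by Lévy's theorem (Mathlib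
`MeasureTheory.ProbabilityMeasure.tendsto_of_tendsto_charFun`, file Mathlib/MeasureTheory/Measure/LevyConvergence.lean) `μ_n → γ` weakly. The frontier of `{w | w.re ∈ J ∧ w.im ∈ J'}` is contained in the union of at
most four lines `re = c`, `im = c` (the frontier of an interval has at most two points), which have `γ`-measure `0`; portmanteau (`ProbabilityMeasure.tendsto_measure_of_null_frontier_of_tendsto`). -/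
def S_LEV : Prop := ∀ J J' : Set ℝ, J.OrdConnected → J'.OrdConnected → ∀ ε : ℝ, 0 < ε → ∃ Xi τ : ℝ, 0 < Xi ∧ 0 < τ ∧ ∀ μ : Measure ℂ, IsProbabilityMeasure μ →
  (∀ z : ℂ, ‖z‖ ≤ Xi → ‖(∫ w, cexp (I * (((conj z * w).re : ℝ) : ℂ)) ∂μ) - ((Real.exp (-(‖z‖ ^ 2 / 2)) : ℝ) : ℂ)‖ ≤ τ) →
    |μ.real {w | w.re ∈ J ∧ w.im ∈ J'} - (gaussianReal 0 1).real J * (gaussianReal 0 1).real J'| ≤ ε

end

end Pool.Agent.H4.MZ
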